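import Pool.Agent.MP_04a200_co.N4.Spec
import Mathlib.Data.Finset.Card
import Mathlib.Data.Nat.Choose.Basic

/-! Counting facets, and triangles through a point. -/

set_option autoImplicit false

open Classical Finset

namespace Pool.Agent.MP_04a200_co.N4

namespace Cnt

variable {α : Type}

theorem small1 {A : Finset (Finset α)} {U : Finset α} (g : Finset α → Finset α)
    (hg : ∀ F ∈ A, g F ⊆ U ∧ (g F).card ≤ 1) (hi : ∀ F ∈ A, ∀ F' ∈ A, g F = g F' → F = F') :
    A.card ≤ U.card + 1 := by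
  refine (card_le_card_of_injOn (t := U.powersetCard 1 ∪ U.powersetCard 0) g (fun F hF => ?_)
    fun F hF F' hF' => hi F hF F' hF').trans ((card_union_le _ _).trans (le_of_eq ?_))
  · have := hg F hF
    simp only [coe_union, Set.mem_union, mem_coe, mem_powersetCard, this.1, true_and]
    omega
  · rw [card_powersetCard, card_powersetCard, Nat.choose_one_right, Nat.choose_zero_right]

theorem small2 {A : Finset (Finset α)} {U : Finset α} (g : Finset α → Finset α)
    (hg : ∀ F ∈ A, g F ⊆ U ∧ (g F).card ≤ 2) (hi : ∀ F ∈ A, ∀ F' ∈ A, g F = g F' → F = F') :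
    2 * A.card ≤ U.card * U.card + 2 * U.card + 2 := by
  have h1 : A.card ≤ U.card.choose 2 + U.card + 1 := by
    refine (card_le_card_of_injOn (t := U.powersetCard 2 ∪ U.powersetCard 1 ∪ U.powersetCard 0) g
      (fun F hF => ?_) fun F hF F' hF' => hi F hF F' hF').trans ((card_union_le _ _).trans
        ((Nat.add_le_add_right (card_union_le _ _) _).trans (le_of_eq ?_)))
    · have := hg F hF
      simp only [coe_union, Set.mem_union, mem_coe, mem_powersetCard, this.1, true_and]
      omega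
    · rw [card_powersetCard, card_powersetCard, card_powersetCard, Nat.choose_one_right,
        Nat.choose_zero_right]
  have h2 : U.card * (U.card - 1) ≤ U.card * U.card := Nat.mul_le_mul_left _ (Nat.sub_le _ _)
  rw [Nat.choose_two_right] at h1
  omega

variable {e : α → R5} {V U F t : Finset α}

theorem mem_fac : F ∈ Fac e U ↔ F.card = 4 ∧ Face e U F := by
  rw [Fac, mem_filter, mem_powersetCard]
  exact ⟨fun h => ⟨h.1.2, h.2⟩, fun h => ⟨⟨h.2.1, h.1⟩, h.2⟩⟩

theorem mem_tri : t ∈ Tri e U ↔ t.card = 3 ∧ Face e U t := by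
  rw [Tri, mem_filter, mem_powersetCard]
  exact ⟨fun h => ⟨h.1.2, h.2⟩, fun h => ⟨⟨h.2.1, h.1⟩, h.2⟩⟩

theorem in_fac (ext : ExtStmt) (gp : GP e V) (hU : U ⊆ V) (h5 : 5 ≤ U.card) (ht : t ∈ Tri e U) :
    ∃ F ∈ Fac e U, t ⊆ F := by
  obtain ⟨h3, htU, H, hH⟩ := mem_tri.1 ht
  obtain ⟨x, hx, hxt⟩ := exists_mem_notMem_of_card_lt_card (s := t) (t := U) (by omega)
  have hx0 : H (e x) ≠ 0 := fun h => hxt ((hH x hx).2.1 h)
  obtain ⟨K, k1, k2, k3, k4⟩ := ext α e V (U.erase x) x H gp ((erase_subset _ _).trans hU)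
    (by rw [card_erase_of_mem hx]; omega) (hU hx) (notMem_erase _ _)
    (fun u hu => (hH u (mem_of_mem_erase hu)).1) hx0
  refine ⟨_, mem_fac.2 ⟨k4, (filter_subset _ _).trans (erase_subset _ _), K, fun v hv => ?_⟩,
    fun v hv => ?_⟩
  · by_cases h : v = x
    · subst h
      rw [k2]
      exact ⟨(hH v hv).1, fun h => (hx0 h).elim, fun h => (notMem_erase _ _ (mem_filter.1 h).1).elim⟩
    · have hv' := mem_erase.2 ⟨h, hv⟩
      exact ⟨k1 v hv', fun h => mem_filter.2 ⟨hv', h⟩, fun h => (mem_filter.1 h).2⟩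
  · have hv' : v ∈ U.erase x := mem_erase.2 ⟨fun h => hxt (h ▸ hv), htU hv⟩
    exact mem_filter.2 ⟨hv', k3 v hv' ((hH v (htU hv)).2.2 hv)⟩

theorem all_fac (kkt : KKTStmt) (gp : GP e V) :
    2 * (Fac e V).card ≤ V.card * V.card + 4 * V.card + 4 := by
  obtain ⟨P, p1, p2, p3⟩ := kkt α e V V gp subset_rfl
  have h1 := small2 (A := (Fac e V).filter fun F => (P F).card ≤ 2) (U := V) P
    (fun F hF => ⟨(p1 F (mem_filter.1 hF).1).trans (mem_fac.1 (mem_filter.1 hF).1).2.1,
      (mem_filter.1 hF).2⟩) fun F hF F' hF' h =>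
    p2 F (mem_filter.1 hF).1 F' (mem_filter.1 hF').1 (h ▸ p1 F' (mem_filter.1 hF').1)
      (h ▸ p1 F (mem_filter.1 hF).1)
  have h2 := small1 (A := (Fac e V).filter fun F => ¬ (P F).card ≤ 2) (U := V) (fun F => F \ P F)
    (fun F hF => by
      obtain ⟨a, b⟩ := mem_filter.1 hF
      refine ⟨sdiff_subset.trans (mem_fac.1 a).2.1, ?_⟩
      rw [card_sdiff_of_subset (p1 F a), (mem_fac.1 a).1]
      omega) fun F hF F' hF' h =>
    p3 F (mem_filter.1 hF).1 F' (mem_filter.1 hF').1 (h.le.trans sdiff_subset)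
      (h.ge.trans sdiff_subset)
  have h3 := card_filter_add_card_filter_not (s := Fac e V) fun F => (P F).card ≤ 2
  omega

theorem sub_of {v : α} {X X' F' : Finset α} (h : X.erase v = X'.erase v) (hX : X' ⊆ F')
    (hv : v ∈ F') : X ⊆ F' := fun y hy => by
  by_cases q : y = v
  · exact q ▸ hv
  · exact hX (mem_of_mem_erase (h ▸ mem_erase.2 ⟨q, hy⟩))

theorem star_fac (kkt : KKTStmt) (gp : GP e V) (hU : U ⊆ V) (v : α) :
    ((Fac e U).filter fun F => v ∈ F).card ≤ 2 * (U.card + 1) := by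
  obtain ⟨P, p1, p2, p3⟩ := kkt α e V U gp hU
  have h1 := small1 (A := ((Fac e U).filter fun F => v ∈ F).filter
    fun F => ((P F).erase v).card ≤ 1) (U := U) (fun F => (P F).erase v)
    (fun F hF => by
      obtain ⟨a, b⟩ := mem_filter.1 hF
      have a := (mem_filter.1 a).1
      exact ⟨(erase_subset _ _).trans ((p1 F a).trans (mem_fac.1 a).2.1), b⟩)
    fun F hF F' hF' h => by
      obtain ⟨a, b⟩ := mem_filter.1 (mem_filter.1 hF).1
      obtain ⟨a', b'⟩ := mem_filter.1 (mem_filter.1 hF').1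
      exact p2 F a F' a' (sub_of h (p1 F' a') b') (sub_of h.symm (p1 F a) b)
  have h2 := small1 (A := ((Fac e U).filter fun F => v ∈ F).filter
    fun F => ¬ ((P F).erase v).card ≤ 1) (U := U) (fun F => (F \ P F).erase v)
    (fun F hF => by
      obtain ⟨a, b⟩ := mem_filter.1 hF
      obtain ⟨a, a'⟩ := mem_filter.1 a
      refine ⟨(erase_subset _ _).trans (sdiff_subset.trans (mem_fac.1 a).2.1), ?_⟩
      have c1 := card_sdiff_add_card_eq_card (p1 F a)
      rw [(mem_fac.1 a).1] at c1
      by_cases q : v ∈ P F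
      · have := card_erase_of_mem q
        have := card_erase_le (s := F \ P F) (a := v)
        omega
      · have := card_erase_of_mem (mem_sdiff.2 ⟨a', q⟩)
        have := card_erase_le (s := P F) (a := v)
        omega)
    fun F hF F' hF' h => by
      obtain ⟨a, b⟩ := mem_filter.1 (mem_filter.1 hF).1
      obtain ⟨a', b'⟩ := mem_filter.1 (mem_filter.1 hF').1
      exact p3 F a F' a' (sub_of h sdiff_subset b') (sub_of h.symm sdiff_subset b)
  have h3 := card_filter_add_card_filter_not (s := (Fac e U).filter fun F => v ∈ F)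
    fun F => ((P F).erase v).card ≤ 1
  omega

end Cnt

open Cnt in
theorem cnt (ext : ExtStmt) (kkt : KKTStmt) : CntStmt := by
  intro α e V gp
  refine ⟨all_fac kkt gp, fun v U hU => ?_⟩
  by_cases h5 : 5 ≤ U.card
  · have h1 : ((Tri e U).filter fun t => v ∈ t) ⊆
        ((Fac e U).filter fun F => v ∈ F).biUnion fun F => (F.erase v).image F.erase := by
      intro t ht
      obtain ⟨a, b⟩ := mem_filter.1 ht
      obtain ⟨F, hF, htF⟩ := in_fac ext gp hU h5 a
      have c3 := (mem_tri.1 a).1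
      have c4 := (mem_fac.1 hF).1
      obtain ⟨y, hy, hyt⟩ := exists_mem_notMem_of_card_lt_card (s := t) (t := F) (by omega)
      refine mem_biUnion.2 ⟨F, mem_filter.2 ⟨hF, htF b⟩, mem_image.2
        ⟨y, mem_erase.2 ⟨fun q => hyt (q ▸ b), hy⟩, ?_⟩⟩
      refine (eq_of_subset_of_card_le (subset_erase.2 ⟨htF, hyt⟩) ?_).symm
      rw [card_erase_of_mem hy]
      omega
    have h2 := (card_le_card h1).trans (card_biUnion_le_card_mul _ _ 3 fun F hF =>
      card_image_le.trans (by
        rw [card_erase_of_mem (mem_filter.1 hF).2, (mem_fac.1 (mem_filter.1 hF).1).1]))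
    have h3 := star_fac kkt gp hU v
    omega
  · have h1 : ((Tri e U).filter fun t => v ∈ t).card ≤ U.card.choose 3 := by
      rw [← card_powersetCard]
      exact card_le_card ((filter_subset _ _).trans (filter_subset _ _))
    have h2 : U.card.choose 3 ≤ Nat.choose 4 3 := Nat.choose_le_choose 3 (by omega)
    have h3 : Nat.choose 4 3 = 4 := rfl
    omega

end Pool.Agent.MP_04a200_co.N4
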