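import Pool.Agent.MP_04a200_co.N4.Spec
import Mathlib.Tactic.Ring
import Mathlib.Tactic.Linarith
import Mathlib.Tactic.Positivity
import Mathlib.Order.Interval.Finset.Nat

/-! The counting part, assembled. -/

set_option autoImplicit false

open Classical Finset

namespace Pool.Agent.MP_04a200_co.N4

namespace Comb

variable {α ι γ δ : Type} {D : ℕ} {Ω Φ : Finset ι}

theorem mmono {f : ι → γ} {g : ι → δ} (h : Mult D Ω f g) (hs : Φ ⊆ Ω) : Mult D Φ f g :=
  fun a b => (card_le_card (filter_subset_filter _ hs)).trans (h a b)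

theorem msymm {f : ι → γ} {g : ι → δ} (h : Mult D Ω f g) : Mult D Ω g f :=
  fun a b => by simpa only [and_comm] using h b a

theorem fib {f : ι → γ} {g : ι → δ} (h : Mult D Ω f g) (hs : Φ ⊆ Ω) (a : γ)
    (ha : ∀ t ∈ Φ, f t = a) : Φ.card ≤ D * (Φ.image g).card :=
  card_le_mul_card_image _ _ fun b _ => (card_le_card fun t ht => by
    rw [mem_filter] at ht ⊢
    exact ⟨hs ht.1, ha t ht.1, ht.2⟩).trans (h a b)

theorem fib' {f : ι → γ} {g : ι → δ} (h : Mult D Ω f g) (a : γ) :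
    (Ω.filter fun t => f t = a).card ≤ D * (Ω.image g).card :=
  (fib h (filter_subset _ _) a fun _ ht => (mem_filter.1 ht).2).trans
    (Nat.mul_le_mul_left _ (card_le_card (image_subset_image (filter_subset _ _))))

theorem tot {f : ι → γ} {g : ι → δ} (h : Mult D Ω f g) :
    Ω.card ≤ D * (Ω.image g).card * (Ω.image f).card :=
  card_le_mul_card_image _ _ fun a _ => fib' h a

theorem mof {f : ι → γ} {g : ι → δ}
    (h : ∀ a b, ∀ S ⊆ Ω, (∀ t ∈ S, f t = a ∧ g t = b) → S.card ≤ D) : Mult D Ω f g :=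
  fun a b => h a b _ (filter_subset _ _) fun _ ht => (mem_filter.1 ht).2

theorem mref {f : ι → γ} {g : ι → δ} {η : ι → ℕ} (h : Mult D Ω f g)
    (he : ∀ t ∈ Ω, ∀ t' ∈ Ω, η t = η t' → g t = g t') : Mult D Ω f η := mof fun a b S s hS => by
  rcases S.eq_empty_or_nonempty with rfl | ⟨u, hu⟩
  · exact D.zero_le
  · exact le_trans (card_le_card fun t ht => mem_filter.2 ⟨s ht, (hS t ht).1,
      he t (s ht) u (s hu) ((hS t ht).2.trans (hS u hu).2.symm)⟩) (h a (g u))

theorem mlev {f : ι → γ} {η lev : ι → ℕ} {k : ℕ} (h : Mult D Ω f η)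
    (hk : ∀ j, ((Ω.filter fun t => lev t = j).image η).card ≤ k) : Mult (D * k) Ω f lev :=
  mof fun a j S s hS => (fib h s a fun t ht => (hS t ht).1).trans
    (Nat.mul_le_mul_left _ (le_trans (card_le_card fun e he => by
      simp only [mem_image, mem_filter] at he ⊢
      obtain ⟨t, ht, rfl⟩ := he
      exact ⟨t, ⟨s ht, (hS t ht).2⟩, rfl⟩) (hk j)))

theorem sub (cls : ClassStmt) (fine : FineStmt) (sweep : SweepStmt) {K L0 m0 T M n q : ℕ}
    (fin : ∀ (W : Finset ι) (l c r : ι → α) (τ lev : ι → ℕ) (L k : ℕ), Core W l c r τ →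
      W.Nonempty → Mono W τ lev → (∀ t ∈ W, lev t < L) → Mult k W c lev → Mult k W l lev →
      L0 ≤ L → m0 ≤ (W.image c).card + (W.image l).card →
      L * k * ((W.image c).card + (W.image l).card) ≤ 2048 * K * D * W.card → False)
    (hD : 0 < D) (hK : 0 < K) (hT : T = 2 ^ 18 * K * K * D * (L0 + 1)) (hq : q * T ≤ n)
    (hn : 16 * K * 2 ^ M * D * (T + 256 * K * D * (512 * K * D * m0 + 1)) ≤ n)
    {l c r : ι → α} {τ β : ι → ℕ} (il : (Ω.image l).card ≤ n) (ic : (Ω.image c).card ≤ n)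
    (ir : (Ω.image r).card ≤ n) (m1 : Mult D Ω l c) (m2 : Mult D Ω c r) (m3 : Mult D Ω r l)
    (hτ : ∀ t ∈ Ω, ∀ t' ∈ Ω, τ t = τ t' → t = t') (c1 : Core Ω l c r τ) (c2 : Core Ω r l c τ)
    (mo : Mono Ω τ β) (hβ : ∀ t ∈ Ω, β t < M) (mq : Mult q Ω c β)
    (big : n * n ≤ 4 * K * Ω.card) : False := by
  have T0 : 0 < T := by rw [hT]; positivity
  have n0 : 0 < n := lt_of_lt_of_le (by positivity) hn
  have ne : Ω.Nonempty := card_pos.1 (Nat.pos_of_mul_pos_left
    ((Nat.mul_pos n0 n0).trans_le big))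
  have im : ∀ {A : Finset ι} (f : ι → α), A ⊆ Ω → (Ω.image f).card ≤ n → (A.image f).card ≤ n :=
    fun f h h' => (card_le_card (image_subset_image h)).trans h'
  obtain ⟨Ω2, s2, ne2, full, a1, a2⟩ := cls α ι Ω c β M (D * n) n ne hβ
    (fun p => (fib' m2 p).trans (Nat.mul_le_mul_left _ ir)) ic
  obtain ⟨d, hd⟩ : ∃ d, d = (Ω2.image c).card := ⟨_, rfl⟩
  rw [← hd] at a1 a2
  have b1 : n * d ≤ 8 * K * Ω2.card := Nat.le_of_mul_le_mul_left (by
    have := Nat.mul_le_mul_right d big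
    have := Nat.mul_le_mul_left (4 * K) a1
    linarith) n0
  have b2 : T + 256 * K * D * (512 * K * D * m0 + 1) ≤ d :=
    Nat.le_of_mul_le_mul_left (hn.trans (Nat.le_of_mul_le_mul_left (by
      have := Nat.mul_le_mul_left (4 * K) a2
      linarith) n0)) (by positivity)
  obtain ⟨w, hw⟩ : ∃ w, w = 128 * K * d / T := ⟨_, rfl⟩
  obtain ⟨b, hb⟩ : ∃ b, b = d / (256 * K * D) := ⟨_, rfl⟩
  have w1 : w * T ≤ 128 * K * d := hw ▸ Nat.div_mul_le_self _ _
  have w2 : 128 * K * d < T * (w + 1) := hw ▸ Nat.lt_mul_div_succ _ T0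
  have w0 : 0 < w := hw ▸ Nat.div_pos ((Nat.le_add_right _ _).trans (b2.trans
    (Nat.le_mul_of_pos_left _ (by positivity)))) T0
  have e1 : b * (256 * K * D) ≤ d := hb ▸ Nat.div_mul_le_self _ _
  have e2 : d < 256 * K * D * (b + 1) := hb ▸ Nat.lt_mul_div_succ _ (by positivity)
  have e3 : 512 * K * D * m0 + 1 ≤ b := hb ▸ (Nat.le_div_iff_mul_le (by positivity)).2 (by linarith)
  have b0 : 0 < b := by omega
  have d0 : 0 < d := by omega
  have e4 : 4 * w * (L0 + 1) ≤ b := Nat.le_of_mul_le_mul_left (c := 2 ^ 16 * K * K * D) (by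
    have h1 : 256 * K * D * (b + 1) ≤ 256 * K * D * (2 * b) := Nat.mul_le_mul_left _ (by omega)
    have h2 := Nat.mul_le_mul_left (128 * K) (e2.le.trans h1)
    rw [hT] at w1
    linarith) (by positivity)
  have e5 : 4 * w ≤ b := le_trans (Nat.le_mul_of_pos_right _ L0.succ_pos) e4
  obtain ⟨Φ, s3, η, h1, h2, h3, h4⟩ := fine α ι Ω2 l c r τ β q w
    (c1 Ω2 s2 β (fun t ht t' ht' => mo t (s2 ht) t' (s2 ht')) full) (mmono mq s2)
  rw [← hd] at h2 h3
  have f1 : Ω2.card ≤ 2 * Φ.card := by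
    have h5 : 2 * (Ω2.card - Φ.card) ≤ Ω2.card :=
      Nat.le_of_mul_le_mul_left (c := 64 * K * d) (by
        have := Nat.mul_le_mul_right (Ω2.card - Φ.card) w2.le
        have := Nat.mul_le_mul_left T h3
        have := Nat.mul_le_mul_right (8 * d * d) hq
        have := Nat.mul_le_mul_left (8 * d) b1
        linarith) (by positivity)
    omega
  have f2 : n * d ≤ 16 * K * Φ.card := by
    have := Nat.mul_le_mul_left (8 * K) f1
    linarith
  have s4 := s3.trans s2
  have h1' : ∀ t ∈ Φ, ∀ t' ∈ Φ, η t = η t' → c t = c t' :=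
    fun t ht t' ht' => h1 t (s3 ht) t' (s3 ht')
  have n1 := mref (mmono m1 s4) h1'
  have n2 := mref (mmono (msymm m2) s4) h1'
  obtain ⟨W, s5, ne5, ⟨lev, l1, l2, l3⟩, g1⟩ := sweep α ι Φ l r η τ D n d b (2 * w)
    (card_pos.1 (by have := ne2.card_pos; omega)) (fun t ht t' ht' => hτ t (s4 ht) t' (s4 ht')) h4
    n1 n2 (fun t ht => h2 t (s3 ht)) (im l s4 il) (im r s4 ir) (by omega) b0
    (hb ▸ Nat.div_le_self _ _) (Nat.le_of_mul_le_mul_left (c := 16 * K) (by
      have := Nat.mul_le_mul_left n e1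
      have := Nat.mul_le_mul_left (64 * K * n * D) (show b + 2 * (2 * w) ≤ 4 * b by omega)
      linarith) (by positivity))
  obtain ⟨u, hu⟩ : ∃ u, u = (W.image l).card := ⟨_, rfl⟩
  obtain ⟨v, hv⟩ : ∃ v, v = (W.image r).card := ⟨_, rfl⟩
  have g2 := tot (mmono m3 (s5.trans s4))
  have u0 : 0 < u := hu ▸ (ne5.image l).card_pos
  rw [← hu, ← hv] at g1 g2
  have g3 : b * (u + v) ≤ 512 * K * W.card := Nat.le_of_mul_le_mul_left (c := n * d) (by
    have := Nat.mul_le_mul_right (b * (u + v)) f2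
    have := Nat.mul_le_mul_left (16 * K) g1
    linarith) (by positivity)
  have g4 : b ≤ 512 * K * D * (u + v) := Nat.le_of_mul_le_mul_right (c := u + v) (by
    have := Nat.mul_le_mul_left (512 * K) g2
    have := Nat.mul_le_mul_left (512 * K * D)
      (Nat.mul_le_mul (Nat.le_add_right u v) (Nat.le_add_left v u))
    linarith) (by omega)
  refine fin W r l c τ lev _ _ (fun A hA => c2 A (hA.trans (s5.trans s4))) ne5 l1 l2
    (mlev (mmono n1 s5) l3) (mlev (mmono n2 s5) l3) ?_ ?_ ?_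
  · exact Nat.le_succ_of_le ((Nat.le_div_iff_mul_le (by omega)).2 (by
      linarith [Nat.zero_le (w * L0), Nat.zero_le w]))
  · rw [← hu, ← hv]
    exact (Nat.lt_of_mul_lt_mul_left (a := 512 * K * D) (by omega)).le
  · rw [← hu, ← hv]
    have h5 : (b / (2 * w) + 1) * (2 * (2 * w)) ≤ 4 * b := by
      have := Nat.div_mul_le_self b (2 * w)
      linarith
    have := Nat.mul_le_mul_right (D * (u + v)) h5
    have := Nat.mul_le_mul_left (4 * D) g3
    linarith

end Comb

open Comb in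
theorem comb (rank : RankStmt) (loc : LocStmt) (cls : ClassStmt) (fine : FineStmt)
    (sweep : SweepStmt) (fin : FinalStmt) : CombStmt := by
  intro D K
  obtain ⟨L0, m0, fin⟩ := fin (2048 * K * D)
  obtain ⟨T, hT⟩ : ∃ T, T = 2 ^ 18 * K * K * D * (L0 + 1) := ⟨_, rfl⟩
  obtain ⟨M, hM⟩ : ∃ M, M = 16 * D * D * T * T := ⟨_, rfl⟩
  refine ⟨2 * D * T + 16 * K * 2 ^ M * D * (T + 256 * K * D * (512 * K * D * m0 + 1)) + 1, ?_⟩
  intro α ι Ω x y z τ n hn ix iy iz m1 m2 m3 hτ c1 c2 c3 big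
  have n0 : 0 < n := by omega
  have p0 := (Nat.mul_pos n0 n0).trans_le big
  have hK : 0 < K := Nat.pos_of_mul_pos_right p0
  have t1 := tot m1
  have hD : 0 < D := Nat.pos_of_mul_pos_right (Nat.pos_of_mul_pos_right
    ((Nat.pos_of_mul_pos_left p0).trans_le t1))
  have T0 : 0 < T := by rw [hT]; positivity
  have M0 : 0 < M := by rw [hM]; positivity
  obtain ⟨rk, r1, r2, r3⟩ := rank ι Ω fun t => τ t
  obtain ⟨q, hq⟩ : ∃ q, q = n / T := ⟨_, rfl⟩
  obtain ⟨g, hg⟩ : ∃ g, g = Ω.card / M := ⟨_, rfl⟩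
  have q1 : q * T ≤ n := hq ▸ Nat.div_mul_le_self _ _
  have q2 : n < T * (q + 1) := hq ▸ Nat.lt_mul_div_succ _ T0
  have q3 : 2 * D ≤ q := hq ▸ (Nat.le_div_iff_mul_le T0).2 (by omega)
  have g1 : g * M ≤ Ω.card := hg ▸ Nat.div_mul_le_self _ _
  have g2 : Ω.card < M * (g + 1) := hg ▸ Nat.lt_mul_div_succ _ M0
  have q4 : n ≤ T * (2 * q) := q2.le.trans (Nat.mul_le_mul_left _ (by omega))
  have g3 : 4 * D * g ≤ q * q := Nat.le_of_mul_le_mul_left (c := 4 * D * T * T) (by
    have := Nat.mul_le_mul_left D (Nat.mul_le_mul (iy.trans q4) (ix.trans q4))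
    rw [hM] at g1
    linarith) (by positivity)
  have g4 : 2 * D * (g + 1) ≤ q * q := by
    have := Nat.mul_le_mul q3 (show 2 ≤ q by omega)
    linarith
  have mo : Mono Ω τ fun t => rk t / (g + 1) := fun t ht t' ht' h => by
    rcases h.eq_or_lt with h | h
    · rw [hτ t ht t' ht' h]
    · exact Nat.div_le_div_right (r3 t ht t' ht' (by exact_mod_cast h)).le
  have hβ : ∀ t ∈ Ω, rk t / (g + 1) < M := fun t ht =>
    (Nat.div_lt_iff_lt_mul g.succ_pos).2 ((r2 t ht).trans g2)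
  have lo := loc α ι Ω x y (fun t => rk t / (g + 1)) D (g + 1) q m1 fun k => by
    refine (card_le_card_of_injOn rk (t := Ico (k * (g + 1)) (k * (g + 1) + (g + 1)))
      (fun t ht => ?_) fun t ht t' ht' => ?_).trans (by simp)
    · rw [mem_coe, mem_filter] at ht
      rw [mem_coe, mem_Ico, ← ht.2]
      exact ⟨Nat.div_mul_le_self _ _, Nat.lt_div_mul_add g.succ_pos⟩
    · exact r1 t (mem_filter.1 ht).1 t' (mem_filter.1 ht').1
  have key : ∀ (l c r : ι → α) (A : Finset ι), A ⊆ Ω → (Ω.image l).card ≤ n →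
      (Ω.image c).card ≤ n → (Ω.image r).card ≤ n → Mult D Ω l c → Mult D Ω c r → Mult D Ω r l →
      Core Ω l c r τ → Core Ω r l c τ → (∀ t ∈ A, (Ω.filter fun u => c u = c t ∧
        rk u / (g + 1) = rk t / (g + 1)).card ≤ q) → 4 * A.card < Ω.card := by
    intro l c r A s il ic ir m1 m2 m3 c1 c2 hA
    by_contra hc
    have im : ∀ f : ι → α, (Ω.image f).card ≤ n → (A.image f).card ≤ n :=
      fun f h' => (card_le_card (image_subset_image s)).trans h'
    refine sub cls fine sweep (fin α ι) hD hK hT q1 (M := M) (by omega) (im l il) (im c ic)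
      (im r ir) (mmono m1 s) (mmono m2 s) (mmono m3 s) (fun t ht t' ht' => hτ t (s ht) t' (s ht'))
      (fun B hB => c1 B (hB.trans s)) (fun B hB => c2 B (hB.trans s))
      (fun t ht t' ht' => mo t (s ht) t' (s ht')) (fun t ht => hβ t (s ht))
      (mof fun a j S s' hS => ?_) ?_
    · rcases S.eq_empty_or_nonempty with rfl | ⟨u, hu⟩
      · exact q.zero_le
      · exact le_trans (card_le_card fun t ht => mem_filter.2 ⟨s (s' ht),
          (hS t ht).1.trans (hS u hu).1.symm, (hS t ht).2.trans (hS u hu).2.symm⟩) (hA u (s' hu))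
    · have := Nat.mul_le_mul_left K (not_lt.1 hc)
      linarith
  obtain ⟨cx, hx⟩ : ∃ cx : ι → ℕ, cx = fun t => (Ω.filter fun u => x u = x t ∧
    rk u / (g + 1) = rk t / (g + 1)).card := ⟨_, rfl⟩
  obtain ⟨cy, hy⟩ : ∃ cy : ι → ℕ, cy = fun t => (Ω.filter fun u => y u = y t ∧
    rk u / (g + 1) = rk t / (g + 1)).card := ⟨_, rfl⟩
  have k1 := key z x y (Ω.filter fun t => cx t ≤ q) (filter_subset _ _) iz ix iy m3 m1 m2 c3 c2
    fun t ht => by simpa only [hx] using (mem_filter.1 ht).2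
  have k2 := key x y z (Ω.filter fun t => cy t ≤ q) (filter_subset _ _) ix iy iz m1 m2 m3 c1 c3
    fun t ht => by simpa only [hy] using (mem_filter.1 ht).2
  have k3 : q * q * (Ω.filter fun t => q < cx t ∧ q < cy t).card ≤ D * (g + 1) * Ω.card := by
    rw [hx, hy]
    exact lo
  have k4 : 2 * (Ω.filter fun t => q < cx t ∧ q < cy t).card ≤ Ω.card :=
    Nat.le_of_mul_le_mul_left (c := q * q) (by
      have := Nat.mul_le_mul_right Ω.card g4
      linarith) (Nat.mul_pos (by omega) (by omega))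
  have k5 : Ω ⊆ (Ω.filter fun t => q < cx t ∧ q < cy t) ∪ ((Ω.filter fun t => cx t ≤ q) ∪
      Ω.filter fun t => cy t ≤ q) := fun t ht => by
    simp only [mem_union, mem_filter, ht, true_and]
    omega
  have k6 := (card_le_card k5).trans ((card_union_le _ _).trans
    (Nat.add_le_add_left (card_union_le _ _) _))
  omega

end Pool.Agent.MP_04a200_co.N4
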