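import Mathlib.Algebra.BigOperators.Fin
import Mathlib.Algebra.Order.BigOperators.Group.Finset
import Mathlib.Data.Finset.Powerset
import Mathlib.Data.Real.Basic
import Mathlib.LinearAlgebra.Pi

/-! Neighborly 4-polytopes with many vertices contain a 3-path joined to a 4-path:
definitions and the statements of the steps. -/

set_option autoImplicit false

open Classical Finset

namespace Pool.Agent.MP_04a200_co.N4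

abbrev R5 := Fin 5 → ℝ
abbrev L5 := R5 →ₗ[ℝ] ℝ

section Defs

variable {α ι γ δ : Type}

/-- `H` is nonnegative on `U` and vanishes there exactly on `S` -/
def Sup (e : α → R5) (U S : Finset α) (H : L5) : Prop :=
  ∀ v ∈ U, 0 ≤ H (e v) ∧ (H (e v) = 0 ↔ v ∈ S)

def Face (e : α → R5) (U S : Finset α) : Prop := S ⊆ U ∧ ∃ H, Sup e U S H

/-- all sets with at most two points are faces -/
def Nb (e : α → R5) (V : Finset α) : Prop := ∀ S ⊆ V, S.card ≤ 2 → Face e V S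

/-- general position, in the two forms that are used -/
def GP (e : α → R5) (V : Finset α) : Prop :=
  (∀ S ⊆ V, S.card ≤ 5 → ∀ f : α → ℝ, ∃ K : L5, ∀ v ∈ S, K (e v) = f v) ∧
  (∀ S ⊆ V, S.card = 5 → ∀ H : L5, (∀ v ∈ S, H (e v) = 0) → H = 0)

noncomputable def Fac (e : α → R5) (U : Finset α) : Finset (Finset α) :=
  (U.powersetCard 4).filter (Face e U)

noncomputable def Tri (e : α → R5) (U : Finset α) : Finset (Finset α) :=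
  (U.powersetCard 3).filter (Face e U)

/-- every pair of distinct points lies in at most `D` members of `Λ` -/
def PairLe (D : ℕ) (Λ : Finset (Finset α)) : Prop :=
  ∀ a b : α, a ≠ b → (Λ.filter fun t => a ∈ t ∧ b ∈ t).card ≤ D

/-- the abstract facet system -/
structure FSys (V : Finset α) (Fc Tr : Finset (Finset α)) : Prop where
  fc : ∀ F ∈ Fc, F ⊆ V ∧ F.card = 4
  tr : ∀ t ∈ Tr, t ⊆ V ∧ t.card = 3
  two : ∀ t ∈ Tr, (Fc.filter fun F => t ⊆ F).card = 2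
  sub : ∀ F ∈ Fc, ∀ t ⊆ F, t.card = 3 → t ∈ Tr
  edge : ∀ a ∈ V, ∀ b ∈ V, ∃ F ∈ Fc, a ∈ F ∧ b ∈ F
  cnt : 2 * Fc.card ≤ V.card * V.card + 4 * V.card + 4
  pl : ∀ v, ∀ U ⊆ V, (Tr.filter fun t => v ∈ t ∧ t ⊆ U).card ≤ 6 * (U.card + 1)
  c3 : ∀ a b c0 c1 c2 d, {a, b, c0, c1} ∈ Fc → {a, b, c1, c2} ∈ Fc → {a, b, c2, c0} ∈ Fc →
    {a, b, d} ∈ Tr → d = c0 ∨ d = c1 ∨ d = c2
  c4 : ∀ a b c0 c1 c2 c3 d, c0 ≠ c2 → c1 ≠ c3 → {a, b, c0, c1} ∈ Fc → {a, b, c1, c2} ∈ Fc →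
    {a, b, c2, c3} ∈ Fc → {a, b, c3, c0} ∈ Fc → {a, b, d} ∈ Tr →
    d = c0 ∨ d = c1 ∨ d = c2 ∨ d = c3

/-- a path with three edges joined to a path with four edges -/
def Pat (Fc : Finset (Finset α)) (V : Finset α) : Prop :=
  ∃ v : Fin 9 → α, Function.Injective v ∧ (∀ i, v i ∈ V) ∧
    ∀ p ∈ [((0 : Fin 9), (1 : Fin 9)), (1, 2), (2, 3)],
      ∀ q ∈ [((4 : Fin 9), (5 : Fin 9)), (5, 6), (6, 7), (7, 8)],
        ({v p.1, v p.2, v q.1, v q.2} : Finset α) ∈ Fc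

/-- every pair of values of `f`, `g` is taken at most `D` times -/
def Mult (D : ℕ) (Ω : Finset ι) (f : ι → γ) (g : ι → δ) : Prop :=
  ∀ a b, (Ω.filter fun t => f t = a ∧ g t = b).card ≤ D

/-- determinant of three points given by three coordinate functions -/
def br (p q r : α → ℝ) (a b c : α) : ℝ :=
  p a * (q b * r c - q c * r b) - p b * (q a * r c - q c * r a) + p c * (q a * r b - q b * r a)

/-- the linear relation among four plane points, applied to a height function -/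
def lift (p q r : α → ℝ) (h : α → ℝ) (a b c d : α) : ℝ :=
  br p q r b c d * h a - br p q r a c d * h b + br p q r a b d * h c - br p q r a b c * h d

/-- the planar model with affine time -/
structure Kin (V : Finset α) (Ω : Finset ι) (x y z : ι → α) (p q r : α → ℝ) (H : ι → α → ℝ)
    (s : ι → ℝ) (G : α → α → α → ℝ) (G0 G1 : α → α → ℝ) : Prop where
  mem : ∀ t ∈ Ω, x t ∈ V ∧ y t ∈ V ∧ z t ∈ V
  pos : ∀ t ∈ Ω, ∀ t' ∈ Ω, ∀ t'' ∈ Ω, 0 < br p q r (x t) (y t') (z t'')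
  gen : ∀ a ∈ V, ∀ b ∈ V, ∀ c ∈ V, a ≠ b → a ≠ c → b ≠ c → br p q r a b c ≠ 0
  sup : ∀ t ∈ Ω, ∀ v ∈ V, 0 ≤ H t v ∧ (H t v = 0 ↔ v = x t ∨ v = y t ∨ v = z t)
  edge : ∀ a ∈ V, ∀ b ∈ V, ∀ v ∈ V, 0 ≤ G a b v ∧ (G a b v = 0 ↔ v = a ∨ v = b)
  aff : ∀ a ∈ V, ∀ b ∈ V, ∀ c ∈ V, ∀ d ∈ V, ∃ g0 g1 : ℝ,
    (∀ t ∈ Ω, lift p q r (H t) a b c d = g0 + g1 * s t) ∧
    ∀ u ∈ V, ∀ w ∈ V, lift p q r (G u w) a b c d = g0 * G0 u w + g1 * G1 u w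

/-- `β` is monotone in the time `τ` -/
def Mono (Ω : Finset ι) (τ β : ι → ℕ) : Prop := ∀ t ∈ Ω, ∀ t' ∈ Ω, τ t ≤ τ t' → β t ≤ β t'

/-- every centre is active in every active block -/
def Full (Ω : Finset ι) (c : ι → α) (β : ι → ℕ) : Prop :=
  ∀ t ∈ Ω, ∀ t' ∈ Ω, ∃ u ∈ Ω, c u = c t ∧ β u = β t'

/-- the two rules for a centre cluster `c` with left partner `l` and right partner `r` -/
def Rules (Ω : Finset ι) (l c r : ι → α) (τ β : ι → ℕ) : Prop :=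
  ∃ (ρ : α → ℕ) (Bad : ι → α → Prop),
    (∀ t ∈ Ω, ∀ t' ∈ Ω, ρ (c t) = ρ (c t') → c t = c t') ∧
    (∀ t ∈ Ω, ρ (c t) < (Ω.image c).card) ∧
    (∀ b p, ∃ B : Finset ℕ, B.card ≤ 8 ∧ ∀ t ∈ Ω, c t = b → Bad t p → β t ∈ B) ∧
    (∀ t1 ∈ Ω, ∀ t2 ∈ Ω, ∀ t3 ∈ Ω, τ t1 ≤ τ t2 → τ t2 ≤ τ t3 → l t1 = l t3 →
      ρ (c t2) < ρ (c t1) → ρ (c t2) < ρ (c t3) → Bad t1 (c t2) ∨ Bad t3 (c t2)) ∧
    (∀ t1 ∈ Ω, ∀ t2 ∈ Ω, ∀ t3 ∈ Ω, τ t1 ≤ τ t2 → τ t2 ≤ τ t3 → r t1 = r t3 →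
      ρ (c t1) < ρ (c t2) → ρ (c t3) < ρ (c t2) → Bad t1 (c t2) ∨ Bad t3 (c t2))

def Core (Ω : Finset ι) (l c r : ι → α) (τ : ι → ℕ) : Prop :=
  ∀ Ω' ⊆ Ω, ∀ β : ι → ℕ, Mono Ω' τ β → Full Ω' c β → Rules Ω' l c r τ β

/-- the rules for fine roots: few heights below (above) both ends are active in between -/
def FR (Φ : Finset ι) (x z : ι → α) (η τ : ι → ℕ) (w : ℕ) : Prop :=
  (∀ t1 ∈ Φ, ∀ t3 ∈ Φ, x t1 = x t3 → ((Φ.filter fun t =>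
    τ t1 ≤ τ t ∧ τ t ≤ τ t3 ∧ η t < η t1 ∧ η t < η t3).image η).card ≤ w) ∧
  (∀ t1 ∈ Φ, ∀ t3 ∈ Φ, z t1 = z t3 → ((Φ.filter fun t =>
    τ t1 ≤ τ t ∧ τ t ≤ τ t3 ∧ η t1 < η t ∧ η t3 < η t).image η).card ≤ w)

/-- a sweep: `W` is cut into `L` time intervals, each with at most `k` heights -/
def Lev (W : Finset ι) (η τ : ι → ℕ) (L k : ℕ) : Prop :=
  ∃ lev : ι → ℕ, Mono W τ lev ∧ (∀ t ∈ W, lev t < L) ∧
    ∀ j, ((W.filter fun t => lev t = j).image η).card ≤ k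

end Defs

/-! ### 0. basics -/

def GPStmt : Prop := ∀ (α : Type) (e : α → R5) (V : Finset α), Nb e V → GP e V

def ExtStmt : Prop := ∀ (α : Type) (e : α → R5) (V U : Finset α) (x : α) (F : L5), GP e V →
  U ⊆ V → 4 ≤ U.card → x ∈ V → x ∉ U → (∀ u ∈ U, 0 ≤ F (e u)) → F (e x) ≠ 0 →
  ∃ F' : L5, (∀ u ∈ U, 0 ≤ F' (e u)) ∧ F' (e x) = F (e x) ∧
    (∀ u ∈ U, F (e u) = 0 → F' (e u) = 0) ∧ (U.filter fun u => F' (e u) = 0).card = 4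

def TwoStmt : Prop := ∀ (α : Type) (e : α → R5) (V : Finset α), Nb e V → GP e V → 5 ≤ V.card →
  (∀ t ∈ Tri e V, ((Fac e V).filter fun F => t ⊆ F).card = 2) ∧
  (∀ F ∈ Fac e V, ∀ t ⊆ F, t.card = 3 → t ∈ Tri e V) ∧
  (∀ a ∈ V, ∀ b ∈ V, ∃ F ∈ Fac e V, a ∈ F ∧ b ∈ F)

def KKTStmt : Prop := ∀ (α : Type) (e : α → R5) (V U : Finset α), GP e V → U ⊆ V →
  ∃ P : Finset α → Finset α, (∀ F ∈ Fac e U, P F ⊆ F) ∧
    (∀ F ∈ Fac e U, ∀ F' ∈ Fac e U, P F ⊆ F' → P F' ⊆ F → F = F') ∧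
    (∀ F ∈ Fac e U, ∀ F' ∈ Fac e U, F \ P F ⊆ F' → F' \ P F' ⊆ F → F = F')

def CntStmt : Prop := ∀ (α : Type) (e : α → R5) (V : Finset α), GP e V →
  2 * (Fac e V).card ≤ V.card * V.card + 4 * V.card + 4 ∧
  ∀ v, ∀ U ⊆ V, ((Tri e U).filter fun t => v ∈ t).card ≤ 6 * (U.card + 1)

def CycStmt : Prop := ∀ (α : Type) (e : α → R5) (V : Finset α), GP e V →
  (∀ a b c0 c1 c2 d, {a, b, c0, c1} ∈ Fac e V → {a, b, c1, c2} ∈ Fac e V →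
    {a, b, c2, c0} ∈ Fac e V → {a, b, d} ∈ Tri e V → d = c0 ∨ d = c1 ∨ d = c2) ∧
  (∀ a b c0 c1 c2 c3 d, c0 ≠ c2 → c1 ≠ c3 → {a, b, c0, c1} ∈ Fac e V → {a, b, c1, c2} ∈ Fac e V →
    {a, b, c2, c3} ∈ Fac e V → {a, b, c3, c0} ∈ Fac e V → {a, b, d} ∈ Tri e V →
    d = c0 ∨ d = c1 ∨ d = c2 ∨ d = c3)

/-! ### 1. few light triangles give the pattern -/

def GridStmt : Prop := ∃ D K n0 : ℕ, ∀ (α : Type) (V : Finset α) (Fc Tr : Finset (Finset α)),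
  FSys V Fc Tr → n0 ≤ V.card → (∀ Λ ⊆ Tr, PairLe D Λ → K * Λ.card ≤ V.card * V.card) → Pat Fc V

/-! ### 2a. the planar model -/

def Sep1Stmt : Prop := ∀ (α : Type) (e : α → R5) (V S : Finset α) (a b c : α), Nb e V → GP e V →
  S ⊆ V → 2 ≤ S.card → a ∈ V → b ∈ V → c ∈ V → a ∉ S → b ∉ S → c ∉ S → a ≠ b → a ≠ c → b ≠ c →
  (∃ T ⊆ S, T.card = 4 ∧ ∃ F : L5, (∀ v ∈ T, F (e v) = 0) ∧ F (e a) < 0 ∧ 0 < F (e b) ∧
    0 < F (e c)) ∨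
  ∀ s ∈ S, Face e (insert a (insert b S)) {a, b, s} ∨ Face e (insert a (insert c S)) {a, c, s}

def Sep2Stmt : Prop := ∀ (α : Type) (e : α → R5) (V : Finset α) (r : ℕ), GP e V → 1 ≤ r →
  r ≤ V.card → ∃ S ⊆ V, S.card = r ∧ r * ((V ×ˢ V).filter fun ab => ab.1 ≠ ab.2 ∧ ab.1 ∉ S ∧
    ab.2 ∉ S ∧ r ≤ 2 * (S.filter fun s =>
      Face e (insert ab.1 (insert ab.2 S)) {ab.1, ab.2, s}).card).card ≤ 48 * (V.card * V.card)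

def SepStmt : Prop := ∀ D K : ℕ, ∃ K1 n0 : ℕ, ∀ (α : Type) (e : α → R5) (V : Finset α)
  (Λ : Finset (Finset α)), Nb e V → GP e V → n0 ≤ V.card → Λ ⊆ V.powersetCard 3 → PairLe D Λ →
  V.card * V.card ≤ K * Λ.card →
  ∃ Ω ⊆ Λ, ∃ (x y z : Finset α → α) (f g h : L5), V.card * V.card ≤ K1 * Ω.card ∧
    ∀ t ∈ Ω, t = {x t, y t, z t} ∧
      (0 < f (e (x t)) ∧ f (e (y t)) < 0 ∧ f (e (z t)) < 0) ∧
      (g (e (x t)) < 0 ∧ 0 < g (e (y t)) ∧ g (e (z t)) < 0) ∧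
      (h (e (x t)) < 0 ∧ h (e (y t)) < 0 ∧ 0 < h (e (z t)))

/-- ranks compatible with a real function -/
def RankStmt : Prop := ∀ (ι : Type) (Ω : Finset ι) (f : ι → ℝ), ∃ rk : ι → ℕ,
  (∀ t ∈ Ω, ∀ t' ∈ Ω, rk t = rk t' → t = t') ∧ (∀ t ∈ Ω, rk t < Ω.card) ∧
  ∀ t ∈ Ω, ∀ t' ∈ Ω, f t < f t' → rk t < rk t'

def PlanStmt : Prop := ∀ D K : ℕ, ∃ K2 n0 : ℕ, ∀ (α ι : Type) (e : α → R5) (V : Finset α)
  (Ω : Finset ι) (x y z : ι → α) (f g h k : L5), n0 ≤ V.card → Mult D Ω x y →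
  V.card * V.card ≤ K * Ω.card → (∀ v ∈ V, 0 < k (e v)) →
  (∀ t ∈ Ω, (x t ∈ V ∧ y t ∈ V ∧ z t ∈ V) ∧
      (0 < f (e (x t)) ∧ f (e (y t)) < 0 ∧ f (e (z t)) < 0) ∧
      (g (e (x t)) < 0 ∧ 0 < g (e (y t)) ∧ g (e (z t)) < 0) ∧
      (h (e (x t)) < 0 ∧ h (e (y t)) < 0 ∧ 0 < h (e (z t)))) →
  ∃ Ω' ⊆ Ω, ∃ ψ : L5, V.card * V.card ≤ K2 * Ω'.card ∧ ∀ t ∈ Ω', ∀ t' ∈ Ω', ∀ t'' ∈ Ω',
    0 < br (fun v => f (e v)) (fun v => g (e v)) (fun v => ψ (e v)) (x t) (y t') (z t'')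

def GenStmt : Prop := ∀ (α : Type) (e : α → R5) (V : Finset α) (R : Finset (α × α × α))
  (f g h : L5), GP e V →
  (∀ w ∈ R, 0 < br (fun v => f (e v)) (fun v => g (e v)) (fun v => h (e v)) w.1 w.2.1 w.2.2) →
  ∃ f' g' h' : L5,
    (∀ w ∈ R, 0 < br (fun v => f' (e v)) (fun v => g' (e v)) (fun v => h' (e v)) w.1 w.2.1 w.2.2) ∧
    ∀ a ∈ V, ∀ b ∈ V, ∀ c ∈ V, a ≠ b → a ≠ c → b ≠ c →
      br (fun v => f' (e v)) (fun v => g' (e v)) (fun v => h' (e v)) a b c ≠ 0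

def TimeStmt : Prop := ∀ (α ι : Type) (e : α → R5) (V : Finset α) (Ω : Finset ι) (x y z : ι → α)
  (f g h : L5), Nb e V → (∀ t ∈ Ω, Face e V {x t, y t, z t}) → 4 ≤ V.card → GP e V →
  (∀ t ∈ Ω, ∀ t' ∈ Ω, ∀ t'' ∈ Ω,
    0 < br (fun v => f (e v)) (fun v => g (e v)) (fun v => h (e v)) (x t) (y t') (z t'')) →
  (∀ a ∈ V, ∀ b ∈ V, ∀ c ∈ V, a ≠ b → a ≠ c → b ≠ c →
      br (fun v => f (e v)) (fun v => g (e v)) (fun v => h (e v)) a b c ≠ 0) →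
  ∃ Ω' ⊆ Ω, Ω.card ≤ 4 * Ω'.card ∧ ∃ H s G G0 G1,
    Kin V Ω' x y z (fun v => f (e v)) (fun v => g (e v)) (fun v => h (e v)) H s G G0 G1

/-! ### 2b. the geometric core -/

def CoreStmt : Prop := ∀ (α ι : Type) (V : Finset α) (Ω : Finset ι) (x y z : ι → α)
  (p q r : α → ℝ) (H : ι → α → ℝ) (s : ι → ℝ) (G : α → α → α → ℝ) (G0 G1 : α → α → ℝ)
  (τ : ι → ℕ), Kin V Ω x y z p q r H s G G0 G1 →
  (∀ t ∈ Ω, ∀ t' ∈ Ω, τ t ≤ τ t' → s t ≤ s t') →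
  Core Ω x y z τ ∧ Core Ω y z x τ ∧ Core Ω z x y τ

/-! ### 2c. counting -/

def LocStmt : Prop := ∀ (α ι : Type) (Ω : Finset ι) (x y : ι → α) (β : ι → ℕ) (D h q : ℕ),
  Mult D Ω x y → (∀ k, (Ω.filter fun t => β t = k).card ≤ h) →
  q * q * (Ω.filter fun t => q < (Ω.filter fun u => x u = x t ∧ β u = β t).card ∧
    q < (Ω.filter fun u => y u = y t ∧ β u = β t).card).card ≤ D * h * Ω.card

def ClassStmt : Prop := ∀ (α ι : Type) (Ω : Finset ι) (c : ι → α) (β : ι → ℕ) (M Δ m : ℕ),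
  Ω.Nonempty → (∀ t ∈ Ω, β t < M) → (∀ p, (Ω.filter fun t => c t = p).card ≤ Δ) →
  (Ω.image c).card ≤ m →
  ∃ Ω' ⊆ Ω, Ω'.Nonempty ∧ Full Ω' c β ∧ Ω.card * (Ω'.image c).card ≤ 2 * m * Ω'.card ∧
    Ω.card ≤ 4 * 2 ^ M * Δ * (Ω'.image c).card

def FineStmt : Prop := ∀ (α ι : Type) (Ω : Finset ι) (l c r : ι → α) (τ β : ι → ℕ) (q w : ℕ),
  Rules Ω l c r τ β → Mult q Ω c β →
  ∃ Φ ⊆ Ω, ∃ η : ι → ℕ, (∀ t ∈ Ω, ∀ t' ∈ Ω, η t = η t' → c t = c t') ∧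
    (∀ t ∈ Ω, η t < (Ω.image c).card) ∧
    (w + 1) * (Ω.card - Φ.card) ≤ 8 * q * (Ω.image c).card * (Ω.image c).card ∧
    FR Φ l r η τ (2 * w)

def SuppStmt : Prop := ∀ (α ι : Type) (Φ : Finset ι) (x z : ι → α) (η : ι → ℕ) (D n d b w : ℕ),
  Mult D Φ x η → Mult D Φ z η → (∀ t ∈ Φ, η t < d) → (Φ.image x).card ≤ n →
  (Φ.image z).card ≤ n → 0 < b → b ≤ d → 4 * n * D * (b + 2 * w) ≤ Φ.card →
  ∃ Ψ ⊆ Φ, ∃ j, Φ.card * b ≤ 4 * d * Ψ.card ∧ ∀ t ∈ Ψ, η t / b = j ∧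
    2 * w < ((Φ.filter fun u => x u = x t ∧ j < η u / b).image η).card ∧
    2 * w < ((Φ.filter fun u => z u = z t ∧ η u / b < j).image η).card

def GreedyStmt : Prop := ∀ (α ι : Type) (Ψ : Finset ι) (x z : ι → α) (τ : ι → ℕ)
  (near : ℕ → ℕ → Prop) (n : ℕ), Ψ.Nonempty → (∀ a, near a a) →
  (∀ a a' b' b, a ≤ a' → a' ≤ b' → b' ≤ b → near a b → near a' b') →
  (∀ t ∈ Ψ, ∀ t' ∈ Ψ, τ t ≤ τ t' → x t = x t' ∨ z t = z t' → near (τ t) (τ t')) →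
  (Ψ.image x).card ≤ n → (Ψ.image z).card ≤ n →
  ∃ W ⊆ Ψ, W.Nonempty ∧ (∀ t ∈ W, ∀ t' ∈ W, τ t ≤ τ t' → near (τ t) (τ t')) ∧
    Ψ.card * ((W.image x).card + (W.image z).card) ≤ 4 * n * W.card

def LevStmt : Prop := ∀ (ι : Type) (W : Finset ι) (η τ : ι → ℕ) (b j w : ℕ), 0 < w →
  (∀ t ∈ W, ∀ t' ∈ W, τ t = τ t' → t = t') → (∀ t ∈ W, η t / b = j) → 0 < b →
  (∀ t ∈ W, ((W.filter fun u => τ t ≤ τ u ∧ η t < η u).image η).card ≤ w) →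
  Lev W η τ (b / w + 1) (2 * w)

def DownStmt : Prop := ∀ (α ι : Type) (Φ Ψ : Finset ι) (x z : ι → α) (η τ : ι → ℕ) (n b j w : ℕ),
  Ψ ⊆ Φ → Ψ.Nonempty → (∀ t ∈ Φ, ∀ t' ∈ Φ, τ t = τ t' → t = t') → FR Φ x z η τ w → 0 < w → 0 < b →
  (Φ.image x).card ≤ n → (Φ.image z).card ≤ n →
  (∀ t ∈ Ψ, η t / b = j ∧
    w < ((Φ.filter fun u => x u = x t ∧ j < η u / b ∧ τ u ≤ τ t).image η).card ∧
    w < ((Φ.filter fun u => z u = z t ∧ η u / b < j ∧ τ t ≤ τ u).image η).card) →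
  ∃ W ⊆ Ψ, W.Nonempty ∧ Lev W η τ (b / w + 1) (2 * w) ∧
    Ψ.card * ((W.image x).card + (W.image z).card) ≤ 4 * n * W.card

def SweepStmt : Prop := ∀ (α ι : Type) (Φ : Finset ι) (x z : ι → α) (η τ : ι → ℕ) (D n d b w : ℕ),
  Φ.Nonempty → (∀ t ∈ Φ, ∀ t' ∈ Φ, τ t = τ t' → t = t') → FR Φ x z η τ w →
  Mult D Φ x η → Mult D Φ z η → (∀ t ∈ Φ, η t < d) → (Φ.image x).card ≤ n →
  (Φ.image z).card ≤ n → 0 < w → 0 < b → b ≤ d → 4 * n * D * (b + 2 * w) ≤ Φ.card →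
  ∃ W ⊆ Φ, W.Nonempty ∧ Lev W η τ (b / w + 1) (2 * w) ∧
    Φ.card * b * ((W.image x).card + (W.image z).card) ≤ 32 * n * d * W.card

def DCStmt : Prop := ∀ (α ι : Type) (S : Finset ι) (l c r : ι → α) (τ β lev : ι → ℕ) (L k q : ℕ),
  Rules S l c r τ β → Mono S τ lev → (∀ t ∈ S, lev t < L) → Mult k S c lev → Mult k S l lev →
  Mult q S c β →
  S.card * S.card ≤ L * k * (S.card + 16 * q * (S.image c).card * (S.image c).card +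
    4 * k * (S.image l).card * (S.image c).card)

def FinalStmt : Prop := ∀ K : ℕ, ∃ L0 m0 : ℕ, ∀ (α ι : Type) (W : Finset ι) (l c r : ι → α)
  (τ lev : ι → ℕ) (L k : ℕ), Core W l c r τ → W.Nonempty → Mono W τ lev → (∀ t ∈ W, lev t < L) →
  Mult k W c lev → Mult k W l lev → L0 ≤ L → m0 ≤ (W.image c).card + (W.image l).card →
  L * k * ((W.image c).card + (W.image l).card) ≤ K * W.card → False

def CombStmt : Prop := ∀ D K : ℕ, ∃ n0 : ℕ, ∀ (α ι : Type) (Ω : Finset ι) (x y z : ι → α)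
  (τ : ι → ℕ) (n : ℕ), n0 ≤ n → (Ω.image x).card ≤ n → (Ω.image y).card ≤ n →
  (Ω.image z).card ≤ n → Mult D Ω x y → Mult D Ω y z → Mult D Ω z x →
  (∀ t ∈ Ω, ∀ t' ∈ Ω, τ t = τ t' → t = t') →
  Core Ω x y z τ → Core Ω y z x τ → Core Ω z x y τ → n * n ≤ K * Ω.card → False

/-- triangle families with bounded pair multiplicity are small -/
def LStmt : Prop := ∀ D K : ℕ, ∃ n0 : ℕ, ∀ (α : Type) (e : α → R5) (V : Finset α)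
  (Λ : Finset (Finset α)), Nb e V → n0 ≤ V.card → Λ ⊆ Tri e V → PairLe D Λ →
  K * Λ.card ≤ V.card * V.card

/-- the goal in rank five -/
def PatStmt : Prop := ∃ n0 : ℕ, ∀ (α : Type) (e : α → R5) (V : Finset α), Nb e V → n0 ≤ V.card →
  Pat (Fac e V) V

end Pool.Agent.MP_04a200_co.N4
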