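import Mathlib.Tactic.Linarith
import Mathlib.Tactic.Ring
import Mathlib.Tactic.LinearCombination
import Mathlib.Data.Fintype.EquivFin
import Pool.Agent.MP_04a200_co.N4.Spec

/-! The geometric core: natural order on a class and the two rules. -/

set_option autoImplicit false

open Classical Finset

namespace Pool.Agent.MP_04a200_co.N4

namespace CoreP

variable {α ι : Type} {V : Finset α} {Ω : Finset ι} {x y z : ι → α} {P Q R : α → ℝ}
  {H : ι → α → ℝ} {s : ι → ℝ} {G : α → α → α → ℝ} {G0 G1 : α → α → ℝ} {β : ι → ℕ}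

lemma cyc (a b c : α) : br P Q R b c a = br P Q R a b c := by unfold br; ring
lemma sw (a b c : α) : br P Q R a c b = -br P Q R a b c := by unfold br; ring
lemma sw1 (a b c : α) : br P Q R b a c = -br P Q R a b c := by unfold br; ring
lemma z12 (a b : α) : br P Q R a a b = 0 := by unfold br; ring
lemma z23 (a b : α) : br P Q R a b b = 0 := by unfold br; ring
lemma plu (o a b c d : α) : br P Q R o a c * br P Q R o b d - br P Q R o a d * br P Q R o b c =
    br P Q R o a b * br P Q R o c d := by unfold br; ring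
lemma neg_br (a b c : α) : br (fun v => -P v) Q R a b c = -br P Q R a b c := by unfold br; ring

lemma Kin.mono (K : Kin V Ω x y z P Q R H s G G0 G1) {Ω' : Finset ι} (h : Ω' ⊆ Ω) :
    Kin V Ω' x y z P Q R H s G G0 G1 :=
  ⟨fun t ht => K.mem t (h ht), fun t ht t' ht' t'' ht'' => K.pos t (h ht) t' (h ht') t'' (h ht''),
    K.gen, fun t ht => K.sup t (h ht), K.edge, fun a ha b hb c hc d hd => by
      obtain ⟨g0, g1, h1, h2⟩ := K.aff a ha b hb c hc d hd
      exact ⟨g0, g1, fun t ht => h1 t (h ht), h2⟩⟩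

lemma Kin.rot (K : Kin V Ω x y z P Q R H s G G0 G1) : Kin V Ω y z x P Q R H s G G0 G1 :=
  ⟨fun t ht => ⟨(K.mem t ht).2.1, (K.mem t ht).2.2, (K.mem t ht).1⟩,
    fun t ht t' ht' t'' ht'' => by rw [cyc]; exact K.pos _ ht'' _ ht _ ht',
    K.gen, fun t ht v hv => ⟨(K.sup t ht v hv).1, by rw [(K.sup t ht v hv).2]; tauto⟩,
    K.edge, K.aff⟩

lemma Kin.mir (K : Kin V Ω x y z P Q R H s G G0 G1) :
    Kin V Ω z y x (fun v => -P v) Q R H s G G0 G1 :=
  ⟨fun t ht => ⟨(K.mem t ht).2.2, (K.mem t ht).2.1, (K.mem t ht).1⟩,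
    fun t ht t' ht' t'' ht'' => by
      rw [neg_br, ← sw, ← cyc]; exact K.pos _ ht'' _ ht' _ ht,
    fun a ha b hb c hc h1 h2 h3 => by rw [neg_br]; exact neg_ne_zero.mpr (K.gen a ha b hb c hc h1 h2 h3),
    fun t ht v hv => ⟨(K.sup t ht v hv).1, by rw [(K.sup t ht v hv).2]; tauto⟩,
    K.edge, fun a ha b hb c hc d hd => by
      obtain ⟨g0, g1, h1, h2⟩ := K.aff a ha b hb c hc d hd
      refine ⟨-g0, -g1, fun t ht => ?_, fun u hu w hw => ?_⟩
      · have := h1 t ht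
        unfold lift at this ⊢
        simp only [neg_br]; linarith
      · have := h2 u hu w hw
        unfold lift at this ⊢
        simp only [neg_br]; linarith⟩

/-- `a` has roots before and after the time of `t` -/
def Pr (Ω : Finset ι) (y : ι → α) (s : ι → ℝ) (t : ι) (a : α) : Prop :=
  ∃ t1 ∈ Ω, ∃ t2 ∈ Ω, y t1 = a ∧ y t2 = a ∧ s t1 ≤ s t ∧ s t ≤ s t2

def lt (Ω : Finset ι) (x z : ι → α) (P Q R : α → ℝ) (a b : α) : Prop :=
  (∀ t ∈ Ω, 0 < br P Q R (z t) a b) ∨ (∀ t ∈ Ω, 0 < br P Q R (x t) a b)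

lemma lt_mir {a b : α} : lt Ω z x (fun v => -P v) Q R a b ↔ lt Ω x z P Q R b a := by
  unfold lt
  simp only [neg_br, ← sw]
  exact or_comm

section

variable (K : Kin V Ω x y z P Q R H s G G0 G1)
include K

lemma nxy {t u : ι} (ht : t ∈ Ω) (hu : u ∈ Ω) : x t ≠ y u := fun h => by
  have := K.pos t ht u hu t ht
  rw [h, z12] at this; exact lt_irrefl _ this

lemma nyz {t u : ι} (ht : t ∈ Ω) (hu : u ∈ Ω) : y u ≠ z t := fun h => by
  have := K.pos t ht u hu t ht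
  rw [h, z23] at this; exact lt_irrefl _ this

lemma hx {t : ι} (ht : t ∈ Ω) : H t (x t) = 0 := (K.sup t ht _ (K.mem t ht).1).2.2 (Or.inl rfl)
lemma hy {t : ι} (ht : t ∈ Ω) : H t (y t) = 0 :=
  (K.sup t ht _ (K.mem t ht).2.1).2.2 (Or.inr (Or.inl rfl))
lemma hz {t : ι} (ht : t ∈ Ω) : H t (z t) = 0 :=
  (K.sup t ht _ (K.mem t ht).2.2).2.2 (Or.inr (Or.inr rfl))

lemma hpos {t u : ι} (ht : t ∈ Ω) (hu : u ∈ Ω) (h : y u ≠ y t) : 0 < H t (y u) := by
  obtain ⟨h1, h2⟩ := K.sup t ht _ (K.mem u hu).2.1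
  refine lt_of_le_of_ne h1 fun e => ?_
  rcases h2.1 e.symm with h3 | h3 | h3
  · exact nxy K ht hu h3.symm
  · exact h h3
  · exact nyz K ht hu h3

lemma pres {t : ι} (ht : t ∈ Ω) {a b c d : α} (hp : Pr Ω y s t a) (hb : b ∈ V) (hc : c ∈ V)
    (hd : d ∈ V) (h1 : 0 ≤ br P Q R a c d) (h2 : br P Q R a b d ≤ 0) (h3 : 0 ≤ br P Q R a b c) :
    lift P Q R (H t) a b c d ≤ 0 := by
  obtain ⟨t1, m1, t2, m2, e1, e2, l1, l2⟩ := hp
  obtain ⟨g0, g1, hg, -⟩ := K.aff a (e1 ▸ (K.mem t1 m1).2.1) b hb c hc d hd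
  have key : ∀ u ∈ Ω, y u = a → g0 + g1 * s u ≤ 0 := by
    intro u hu e
    rw [← hg u hu]
    unfold lift
    rw [← e, hy K hu, e]
    have := mul_nonneg h1 (K.sup u hu b hb).1
    have := mul_nonneg (neg_nonneg.mpr h2) (K.sup u hu c hc).1
    have := mul_nonneg h3 (K.sup u hu d hd).1
    linarith
  rw [hg t ht]
  have k1 := key t1 m1 e1
  have k2 := key t2 m2 e2
  rcases le_total 0 g1 with h | h
  · have := mul_le_mul_of_nonneg_left l2 h; linarith
  · have := mul_le_mul_of_nonpos_left l1 h; linarith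

lemma nf {t u : ι} (ht : t ∈ Ω) (hu : u ∈ Ω) (hp : Pr Ω y s t (y u))
    (h1 : 0 < br P Q R (x t) (y t) (y u)) (h2 : 0 < br P Q R (z t) (y u) (y t)) : False := by
  have hne : y u ≠ y t := fun e => by rw [e, z23] at h1; exact lt_irrefl _ h1
  have h3 := K.pos t ht u hu t ht
  have := pres K ht hp (K.mem t ht).1 (K.mem t ht).2.1 (K.mem t ht).2.2
    (by rw [cyc]; exact h2.le) (by rw [sw1]; linarith) (by rw [← cyc]; exact h1.le)
  unfold lift at this
  rw [hx K ht, hy K ht, hz K ht] at this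
  have := mul_pos (K.pos t ht t ht t ht) (hpos K ht hu hne)
  linarith

lemma n1 {t u : ι} (ht : t ∈ Ω) (hu : u ∈ Ω) (hp : Pr Ω y s t (y u))
    (h : lt Ω x z P Q R (y u) (y t)) : 0 < br P Q R (x t) (y u) (y t) := by
  rcases h with h | h
  · have h2 := h t ht
    have hne : y u ≠ y t := fun e => by rw [e, z23] at h2; exact lt_irrefl _ h2
    rcases lt_or_gt_of_ne (K.gen _ (K.mem t ht).1 _ (K.mem u hu).2.1 _ (K.mem t ht).2.1
      (nxy K ht hu) (nxy K ht ht) hne) with h3 | h3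
    · exact (nf K ht hu hp (by rw [sw]; linarith) h2).elim
    · exact h3
  · exact h t ht

lemma n2 {t u : ι} (ht : t ∈ Ω) (hu : u ∈ Ω) (hp : Pr Ω y s t (y u))
    (h : lt Ω x z P Q R (y t) (y u)) : 0 < br P Q R (z t) (y t) (y u) := by
  have := n1 (Kin.mir K) ht hu hp (lt_mir.2 h)
  rwa [neg_br, ← sw] at this

lemma trZ {t a b c : ι} (ht : t ∈ Ω) (ha : a ∈ Ω) (hb : b ∈ Ω) (hc : c ∈ Ω)
    (h1 : 0 < br P Q R (z t) (y a) (y b)) (h2 : 0 < br P Q R (z t) (y b) (y c)) :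
    0 < br P Q R (z t) (y a) (y c) := by
  have e := plu (P := P) (Q := Q) (R := R) (z t) (x t) (y a) (y b) (y c)
  have pa := K.pos t ht a ha t ht
  have pb := K.pos t ht b hb t ht
  have pc := K.pos t ht c hc t ht
  rw [← cyc, ← cyc] at pa pb pc
  have := mul_pos pa h2
  have := mul_pos pc h1
  exact pos_of_mul_pos_of_pos_left' (by linarith) pb
where pos_of_mul_pos_of_pos_left' {a b : ℝ} (h : 0 < a * b) (ha : 0 < a) : 0 < b :=
  (pos_iff_pos_of_mul_pos h).1 ha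

lemma trX {t a b c : ι} (ht : t ∈ Ω) (ha : a ∈ Ω) (hb : b ∈ Ω) (hc : c ∈ Ω)
    (h1 : 0 < br P Q R (x t) (y a) (y b)) (h2 : 0 < br P Q R (x t) (y b) (y c)) :
    0 < br P Q R (x t) (y a) (y c) := by
  have := trZ (Kin.mir K) ht hc hb ha (by rwa [neg_br, ← sw]) (by rwa [neg_br, ← sw])
  rwa [neg_br, ← sw] at this

lemma total {a b : ι} (ha : a ∈ Ω) (hb : b ∈ Ω) (hne : y a ≠ y b) :
    lt Ω x z P Q R (y a) (y b) ∨ lt Ω x z P Q R (y b) (y a) := by
  by_contra h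
  unfold lt at h
  push Not at h
  obtain ⟨⟨⟨z1, m1, h1⟩, x1, m2, h2⟩, ⟨z2, m3, h3⟩, x2, m4, h4⟩ := h
  have gz : ∀ t ∈ Ω, br P Q R (z t) (y a) (y b) ≠ 0 := fun t ht =>
    K.gen _ (K.mem t ht).2.2 _ (K.mem a ha).2.1 _ (K.mem b hb).2.1 (nyz K ht ha).symm
      (nyz K ht hb).symm hne
  have gx : ∀ t ∈ Ω, br P Q R (x t) (y a) (y b) ≠ 0 := fun t ht =>
    K.gen _ (K.mem t ht).1 _ (K.mem a ha).2.1 _ (K.mem b hb).2.1 (nxy K ht ha) (nxy K ht hb) hne
  rw [sw] at h3 h4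
  have v1 := lt_of_le_of_ne h1 (gz z1 m1)
  have u1 := lt_of_le_of_ne h2 (gx x1 m2)
  have v2 := lt_of_le_of_ne (neg_nonpos.mp h3) (gz z2 m3).symm
  have u2 := lt_of_le_of_ne (neg_nonpos.mp h4) (gx x2 m4).symm
  rw [← cyc] at v1 u1 v2 u2
  have key : ∀ t ∈ Ω, 0 < br P Q R (y a) (y b) (z t) * br P Q R (y a) (x x2) (x x1) := by
    intro t ht
    rw [← plu]
    have p1 := K.pos x1 m2 a ha t ht
    have p2 := K.pos x2 m4 a ha t ht
    rw [← cyc] at p1 p2
    have := mul_pos u2 p1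
    have := mul_pos (neg_pos.mpr u1) p2
    linarith
  have k1 := key z1 m1
  have k2 := (pos_iff_pos_of_mul_pos (key z2 m3)).1 v2
  have := mul_pos (neg_pos.mpr v1) k2
  linarith

end

/-- some block is earlier and some block is later -/
def Mid (Ω : Finset ι) (β : ι → ℕ) (t : ι) : Prop :=
  (∃ u ∈ Ω, β u < β t) ∧ ∃ u ∈ Ω, β t < β u

def Deep (Ω : Finset ι) (β : ι → ℕ) (t : ι) : Prop :=
  (∃ u ∈ Ω, Mid Ω β u ∧ β u < β t) ∧ ∃ u ∈ Ω, Mid Ω β u ∧ β t < β u

lemma Deep.mid {t : ι} (h : Deep Ω β t) : Mid Ω β t :=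
  ⟨h.1.imp fun _ h => ⟨h.1, h.2.2⟩, h.2.imp fun _ h => ⟨h.1, h.2.2⟩⟩

lemma Mid.congr {t u : ι} (h : Mid Ω β t) (e : β u = β t) : Mid Ω β u := by
  unfold Mid at h ⊢; rwa [e]

def Good (Ω : Finset ι) (β : ι → ℕ) (s : ι → ℝ) (t : ι) (A0 A1 : ℝ) : Prop :=
  Deep Ω β t ∧ (A0 ≤ 0 ∨ ∃ u ∈ Ω, Mid Ω β u ∧
    ((∀ u' ∈ Ω, β u' = β u → s t ≤ s u' ∧ s u' * A0 ≤ A1) ∨
      ∀ u' ∈ Ω, β u' = β u → A1 ≤ s u' * A0 ∧ s u' ≤ s t))

/-- blocks are ordered in time -/
def Bl (Ω : Finset ι) (β : ι → ℕ) (s : ι → ℝ) : Prop := ∀ t ∈ Ω, ∀ u ∈ Ω, β t < β u → s t ≤ s u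

lemma pr_of_mid (hF : Full Ω y β) (hB : Bl Ω β s) {t1 t t3 a : ι} (m1 : t1 ∈ Ω) (m3 : t3 ∈ Ω)
    (ha : a ∈ Ω) (d1 : Mid Ω β t1) (d3 : Mid Ω β t3) (l1 : s t1 ≤ s t) (l3 : s t ≤ s t3) :
    Pr Ω y s t (y a) := by
  obtain ⟨u, hu, b1⟩ := d1.1
  obtain ⟨w, hw, b3⟩ := d3.2
  obtain ⟨u', hu', e1, e2⟩ := hF a ha u hu
  obtain ⟨w', hw', e3, e4⟩ := hF a ha w hw
  exact ⟨u', hu', w', hw', e1, e3, (hB u' hu' t1 m1 (by omega)).trans l1,
    l3.trans (hB t3 m3 w' hw' (by omega))⟩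

lemma shield (hF : Full Ω y β) (hB : Bl Ω β s) {t q : ι} (ht : t ∈ Ω) (hq : q ∈ Ω) {A0 A1 : ℝ}
    (hG : Good Ω β s t A0 A1) {C : Prop}
    (h : ∀ t' ∈ Ω, Mid Ω β t' → y t' = y q → ∃ g0 g1 : ℝ, g0 + g1 * s t' < 0 ∧
      0 < g0 * A0 + g1 * A1 ∧ (g0 + g1 * s t < 0 → C)) : C := by
  by_contra hC
  rcases le_or_gt A0 0 with h0 | h0
  · obtain ⟨⟨u, hu, mu, bu⟩, w, hw, mw, bw⟩ := hG.1
    obtain ⟨u', hu', e1, e2⟩ := hF q hq u hu
    obtain ⟨w', hw', e3, e4⟩ := hF q hq w hw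
    obtain ⟨a, b, h1, h2, h3⟩ := h u' hu' (mu.congr e2) e1
    obtain ⟨a', b', h1', h2', h3'⟩ := h w' hw' (mw.congr e4) e3
    have k := not_lt.mp (mt h3 hC)
    have k' := not_lt.mp (mt h3' hC)
    have l1 := hB u' hu' t ht (by omega)
    have l2 := hB t ht w' hw' (by omega)
    have hb : 0 < b := by
      by_contra hb
      have := mul_le_mul_of_nonpos_left l1 (not_lt.mp hb); linarith
    have hb' : b' < 0 := by
      by_contra hb'
      have := mul_le_mul_of_nonneg_left l2 (not_lt.mp hb'); linarith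
    have m1 := mul_nonneg k (neg_nonneg.mpr h0)
    have m2 := mul_nonneg k' (neg_nonneg.mpr h0)
    have q1 : 0 < b * (A1 - s t * A0) := by linarith
    have q2 : 0 < b' * (A1 - s t * A0) := by linarith
    have := (pos_iff_pos_of_mul_pos q1).1 hb
    have := mul_pos (neg_pos.mpr hb') this
    linarith
  · obtain ⟨u, hu, mu, hs⟩ := hG.2.resolve_left (not_le.mpr h0)
    obtain ⟨u', hu', e1, e2⟩ := hF q hq u hu
    obtain ⟨a, b, h1, h2, h3⟩ := h u' hu' (mu.congr e2) e1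
    have k := not_lt.mp (mt h3 hC)
    have m := mul_pos (neg_pos.mpr h1) h0
    rcases hs with hs | hs
    · obtain ⟨l1, l2⟩ := hs u' hu' e2
      have hb : b ≤ 0 := by
        by_contra hb
        have := mul_le_mul_of_nonneg_left l1 (not_le.mp hb).le; linarith
      have := mul_le_mul_of_nonpos_left l2 hb
      linarith
    · obtain ⟨l2, l1⟩ := hs u' hu' e2
      have hb : 0 ≤ b := by
        by_contra hb
        have := mul_le_mul_of_nonpos_left l1 (not_le.mp hb).le; linarith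
      have := mul_le_mul_of_nonneg_left l2 hb
      linarith

section

variable (K : Kin V Ω x y z P Q R H s G G0 G1) (hF : Full Ω y β) (hB : Bl Ω β s)
include K hF hB

lemma lemG {t p q : ι} (ht : t ∈ Ω) (hp : p ∈ Ω) (hq : q ∈ Ω)
    (l2 : lt Ω x z P Q R (y q) (y t)) (h1 : 0 < br P Q R (x t) (y p) (y q))
    (hG : Good Ω β s t (G0 (y p) (y t)) (G1 (y p) (y t))) :
    H t (y q) * br P Q R (x t) (y p) (y t) ≤ H t (y p) * br P Q R (x t) (y q) (y t) := by
  have pq : Pr Ω y s t (y q) := pr_of_mid hF hB ht ht hq hG.1.mid hG.1.mid le_rfl le_rfl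
  have h2 := n1 K ht hq pq l2
  have h3 := trX K ht hp hq ht h1 h2
  have npq : y p ≠ y q := fun e => by rw [e, z23] at h1; exact lt_irrefl _ h1
  have nqb : y q ≠ y t := fun e => by rw [e, z23] at h2; exact lt_irrefl _ h2
  have npb : y p ≠ y t := fun e => by rw [e, z23] at h3; exact lt_irrefl _ h3
  have mp := (K.mem p hp).2.1
  have mq := (K.mem q hq).2.1
  have mb := (K.mem t ht).2.1
  rcases lt_or_gt_of_ne (K.gen _ mp _ mq _ mb npq npb nqb) with hc | hc
  · have := pres K ht pq (K.mem t ht).1 mp mb (by rw [sw1]; linarith) (by rw [sw1]; linarith)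
      (by rw [← cyc]; exact h1.le)
    unfold lift at this
    rw [hx K ht, hy K ht, sw1 (x t) (y q)] at this
    linarith
  · refine shield hF hB ht hq hG fun t' ht' md e => ?_
    have mz := (K.mem t' ht').2.2
    have k1 : 0 < br P Q R (z t') (y q) (y t) := by
      rw [← e]
      exact n2 K ht' ht (pr_of_mid hF hB ht' ht' ht md md le_rfl le_rfl) (e ▸ l2)
    have k2 : 0 < br P Q R (z t') (y p) (y q) := by
      have e1 := plu (P := P) (Q := Q) (R := R) (y q) (y t) (z t') (x t) (y p)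
      have p1 := K.pos t ht q hq t' ht'
      rw [cyc (x t) (y q) (y t), cyc (y p) (y q) (y t), cyc (x t) (y q) (z t'),
        cyc (z t') (y q) (y t), ← cyc (y q) (z t') (y p), ← cyc (y q) (x t) (y p)] at e1
      have := mul_pos hc p1
      have := mul_pos k1 h1
      exact (pos_iff_pos_of_mul_pos (a := br P Q R (x t) (y q) (y t)) (by linarith)).1 h2
    have k3 := trZ K ht' hp hq ht k2 k1
    obtain ⟨g0, g1, a1, a2⟩ := K.aff _ mq _ mz _ mp _ mb
    have ex : ∀ h : α → ℝ, lift P Q R h (y q) (z t') (y p) (y t) =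
        br P Q R (z t') (y p) (y t) * h (y q) + br P Q R (y p) (y q) (y t) * h (z t') -
          br P Q R (z t') (y q) (y t) * h (y p) - br P Q R (z t') (y p) (y q) * h (y t) := by
      intro h; unfold lift br; ring
    refine ⟨g0, g1, ?_, ?_, fun hn => ?_⟩
    · rw [← a1 t' ht', ex, hz K ht', ← e, hy K ht', e]
      have := mul_pos k1 (hpos K ht' hp (e ▸ npq))
      have := mul_nonneg k2.le (K.sup t' ht' _ mb).1
      linarith
    · rw [← a2 _ mp _ mb, ex, (K.edge _ mp _ mb _ mp).2.2 (Or.inl rfl),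
        (K.edge _ mp _ mb _ mb).2.2 (Or.inr rfl)]
      have g1 : 0 < G (y p) (y t) (y q) := lt_of_le_of_ne (K.edge _ mp _ mb _ mq).1 fun e' =>
        ((K.edge _ mp _ mb _ mq).2.1 e'.symm).elim npq.symm nqb
      have := mul_pos k3 g1
      have := mul_nonneg hc.le (K.edge _ mp _ mb _ mz).1
      linarith
    · rw [← a1 t ht, ex, hy K ht] at hn
      have e1 := plu (P := P) (Q := Q) (R := R) (y t) (z t') (x t) (y q) (y p)
      rw [← cyc (y t) (z t') (y q), ← cyc (y t) (x t) (y p), ← cyc (y t) (z t') (y p),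
        ← cyc (y t) (x t) (y q), cyc (x t) (y t) (z t'), ← cyc (y t) (y q) (y p),
        sw1 (y p) (y q) (y t)] at e1
      have m1 := mul_pos (K.pos t ht t ht t' ht') hc
      have m2 := mul_nonneg hc.le (K.sup t ht _ mz).1
      have hp0 := (K.sup t ht _ mp).1
      have m3 : br P Q R (z t') (y p) (y t) * H t (y q) ≤
          br P Q R (z t') (y q) (y t) * H t (y p) := by linarith
      have m4 := mul_le_mul_of_nonneg_right m3 h3.le
      have m5 : br P Q R (z t') (y q) (y t) * br P Q R (x t) (y p) (y t) ≤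
          br P Q R (z t') (y p) (y t) * br P Q R (x t) (y q) (y t) := by linarith
      have m6 := mul_le_mul_of_nonneg_right m5 hp0
      exact le_of_mul_le_mul_left (by linarith) k3

lemma rule0 {a b t : ι} (ha : a ∈ Ω) (hb : b ∈ Ω) (ht : t ∈ Ω) (e : x a = x b)
    (hs : (s a ≤ s t ∧ s t ≤ s b) ∨ (s b ≤ s t ∧ s t ≤ s a))
    (l1 : lt Ω x z P Q R (y t) (y a)) (l2 : y a = y b ∨ lt Ω x z P Q R (y a) (y b))
    (ga : Good Ω β s a (G0 (y t) (y a)) (G1 (y t) (y a)))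
    (gb : Good Ω β s b (G0 (y t) (y b)) (G1 (y t) (y b))) : False := by
  have da := ga.1.mid
  have db := gb.1.mid
  have k1 := n1 K ha ht (pr_of_mid hF hB ha ha ht da da le_rfl le_rfl) l1
  have k2 := n2 K ht ha (hs.elim (fun h => pr_of_mid hF hB ha hb ha da db h.1 h.2)
    fun h => pr_of_mid hF hB hb ha ha db da h.1 h.2) l1
  have npq : y t ≠ y a := fun e => by rw [e, z23] at k1; exact lt_irrefl _ k1
  have p1 := K.pos a ha t ht t ht
  have p2 := K.pos a ha a ha t ht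
  have mz := (K.mem t ht).2.2
  obtain ⟨g0, g1, a1, -⟩ := K.aff _ (K.mem a ha).2.1 _ (K.mem a ha).1 _ (K.mem t ht).2.1 _ mz
  have ex : ∀ h : α → ℝ, lift P Q R h (y a) (x a) (y t) (z t) =
      br P Q R (x a) (y t) (z t) * h (y a) + br P Q R (z t) (y t) (y a) * h (x a) -
        br P Q R (x a) (y a) (z t) * h (y t) - br P Q R (x a) (y t) (y a) * h (z t) := by
    intro h; unfold lift br; ring
  have vt : 0 < g0 + g1 * s t := by
    rw [← a1 t ht, ex, hy K ht, hz K ht]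
    have := mul_pos p1 (hpos K ht ha npq.symm)
    have := mul_nonneg k2.le (K.sup t ht _ (K.mem a ha).1).1
    linarith
  have va : g0 + g1 * s a < 0 := by
    rw [← a1 a ha, ex, hy K ha, hx K ha]
    have := mul_pos p2 (hpos K ha ht npq)
    have := mul_nonneg k1.le (K.sup a ha _ mz).1
    linarith
  have vb : g0 + g1 * s b < 0 := by
    rw [← a1 b hb, ex, e, hx K hb]
    rw [e] at k1 p1 p2
    have m0 := mul_nonneg k1.le (K.sup b hb _ mz).1
    rcases l2 with l2 | l2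
    · have := mul_pos p2 (hpos K hb ht (l2 ▸ npq))
      have h0 : H b (y a) = 0 := by rw [l2]; exact hy K hb
      rw [h0]; linarith
    · have lg := lemG K hF hB hb ht ha l2 k1 gb
      have h2 := n1 K hb ha (pr_of_mid hF hB hb hb ha db db le_rfl le_rfl) l2
      have h3 := trX K hb ht ha hb k1 h2
      have e1 := plu (P := P) (Q := Q) (R := R) (x b) (y a) (y t) (y b) (z t)
      rw [sw (x b) (y t) (y a)] at e1
      have m1 := mul_pos k1 (K.pos b hb b hb t ht)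
      have hp0 := hpos K hb ht fun e => by rw [e, z23] at h3; exact lt_irrefl _ h3
      have m2 := mul_le_mul_of_nonneg_right lg p1.le
      have m3 : br P Q R (x b) (y a) (y b) * br P Q R (x b) (y t) (z t) <
          br P Q R (x b) (y a) (z t) * br P Q R (x b) (y t) (y b) := by linarith
      have m4 := mul_lt_mul_of_pos_right m3 hp0
      have : br P Q R (x b) (y t) (z t) * H b (y a) < br P Q R (x b) (y a) (z t) * H b (y t) :=
        lt_of_mul_lt_mul_right (a := br P Q R (x b) (y t) (y b)) (by linarith) h3.le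
      linarith
  rcases le_total 0 g1 with h | h <;> rcases hs with hs | hs
  · have := mul_le_mul_of_nonneg_left hs.2 h; linarith
  · have := mul_le_mul_of_nonneg_left hs.2 h; linarith
  · have := mul_le_mul_of_nonpos_left hs.1 h; linarith
  · have := mul_le_mul_of_nonpos_left hs.1 h; linarith

lemma ruleL {a b t : ι} (ha : a ∈ Ω) (hb : b ∈ Ω) (ht : t ∈ Ω) (e : x a = x b)
    (h1 : s a ≤ s t) (h2 : s t ≤ s b)
    (l1 : lt Ω x z P Q R (y t) (y a)) (l2 : lt Ω x z P Q R (y t) (y b))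
    (ga : Good Ω β s a (G0 (y t) (y a)) (G1 (y t) (y a)))
    (gb : Good Ω β s b (G0 (y t) (y b)) (G1 (y t) (y b))) : False := by
  by_cases h : y a = y b
  · exact rule0 K hF hB ha hb ht e (Or.inl ⟨h1, h2⟩) l1 (Or.inl h) ga gb
  · rcases total K ha hb h with h | h
    · exact rule0 K hF hB ha hb ht e (Or.inl ⟨h1, h2⟩) l1 (Or.inr h) ga gb
    · exact rule0 K hF hB hb ha ht e.symm (Or.inr ⟨h1, h2⟩) l2 (Or.inr h) gb ga

lemma asym {m a b : ι} (hm : m ∈ Ω) (md : Mid Ω β m) (ha : a ∈ Ω) (hb : b ∈ Ω)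
    (l1 : lt Ω x z P Q R (y a) (y b)) (l2 : lt Ω x z P Q R (y b) (y a)) : False := by
  obtain ⟨a', ha', e1, e2⟩ := hF a ha m hm
  obtain ⟨b', hb', e3, e4⟩ := hF b hb m hm
  have da := md.congr e2
  have db := md.congr e4
  have k1 := n2 K hb' ha (pr_of_mid hF hB hb' hb' ha db db le_rfl le_rfl) (e3 ▸ l2)
  have k2 := n1 K ha' hb (pr_of_mid hF hB ha' ha' hb da da le_rfl le_rfl) (e1 ▸ l2)
  rw [e3, sw] at k1
  rw [e1, sw] at k2
  rcases l1 with l | l
  · have := l b' hb'; linarith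
  · have := l a' ha'; linarith

lemma trans {m a b c : ι} (hm : m ∈ Ω) (md : Mid Ω β m) (ha : a ∈ Ω) (hb : b ∈ Ω) (hc : c ∈ Ω)
    (l1 : lt Ω x z P Q R (y a) (y b)) (l2 : lt Ω x z P Q R (y b) (y c)) :
    lt Ω x z P Q R (y a) (y c) := by
  by_cases h : y a = y c
  · exact (asym K hF hB hm md ha hb l1 (h ▸ l2)).elim
  rcases total K ha hc h with l3 | l3
  · exact l3
  rcases l1 with l1 | l1 <;> rcases l2 with l2 | l2
  · exact Or.inl fun t ht => trZ K ht ha hb hc (l1 t ht) (l2 t ht)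
  · rcases l3 with l3 | l3
    · exact (asym K hF hB hm md hb hc (Or.inr l2)
        (Or.inl fun t ht => trZ K ht hc ha hb (l3 t ht) (l1 t ht))).elim
    · exact (asym K hF hB hm md ha hb (Or.inl l1)
        (Or.inr fun t ht => trX K ht hb hc ha (l2 t ht) (l3 t ht))).elim
  · rcases l3 with l3 | l3
    · exact (asym K hF hB hm md ha hb (Or.inr l1)
        (Or.inl fun t ht => trZ K ht hb hc ha (l2 t ht) (l3 t ht))).elim
    · exact (asym K hF hB hm md hb hc (Or.inl l2)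
        (Or.inr fun t ht => trX K ht hc ha hb (l3 t ht) (l1 t ht))).elim
  · exact Or.inr fun t ht => trX K ht ha hb hc (l1 t ht) (l2 t ht)

end

lemma card_le_two {S : Finset ι} (h : ∀ a ∈ S, ∀ b ∈ S, ∀ c ∈ S, β a < β b → β b < β c → False) :
    (S.image β).card ≤ 2 := by
  by_contra hc
  obtain ⟨i, hi, j, hj, k, hk, n1, n2, n3⟩ := two_lt_card.mp (not_le.mp hc)
  obtain ⟨a, ha, rfl⟩ := mem_image.mp hi
  obtain ⟨b, hb, rfl⟩ := mem_image.mp hj
  obtain ⟨c, hc, rfl⟩ := mem_image.mp hk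
  have h' : ∀ a ∈ S, ∀ b ∈ S, ∀ c ∈ S, ¬ (β a < β b ∧ β b < β c) :=
    fun a ha b hb c hc k => h a ha b hb c hc k.1 k.2
  have := h' a ha b hb c hc
  have := h' a ha c hc b hb
  have := h' b hb a ha c hc
  have := h' b hb c hc a ha
  have := h' c hc a ha b hb
  have := h' c hc b hb a ha
  omega

lemma bad_card (hB : Bl Ω β s) (A0 A1 : ℝ) :
    ∃ B : Finset ℕ, B.card ≤ 8 ∧ ∀ t ∈ Ω, ¬ Good Ω β s t A0 A1 → β t ∈ B := by
  let S1 := Ω.filter fun t => ¬ ∃ u ∈ Ω, Mid Ω β u ∧ β u < β t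
  let S2 := Ω.filter fun t => ¬ ∃ u ∈ Ω, Mid Ω β u ∧ β t < β u
  let S3 := Ω.filter fun t => Deep Ω β t ∧ ¬ Good Ω β s t A0 A1 ∧ s t * A0 ≤ A1
  let S4 := Ω.filter fun t => Deep Ω β t ∧ ¬ Good Ω β s t A0 A1 ∧ A1 ≤ s t * A0
  have c1 : (S1.image β).card ≤ 2 := card_le_two fun a ha b hb c hc h1 h2 => by
    simp only [S1, mem_filter] at ha hb hc
    exact hc.2 ⟨b, hb.1, ⟨⟨a, ha.1, h1⟩, c, hc.1, h2⟩, h2⟩
  have c2 : (S2.image β).card ≤ 2 := card_le_two fun a ha b hb c hc h1 h2 => by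
    simp only [S2, mem_filter] at ha hb hc
    exact ha.2 ⟨b, hb.1, ⟨⟨a, ha.1, h1⟩, c, hc.1, h2⟩, h1⟩
  have c3 : (S3.image β).card ≤ 2 := card_le_two fun a ha b hb c hc h1 h2 => by
    simp only [S3, mem_filter] at ha hb hc
    refine ha.2.2.1 ⟨ha.2.1, (le_or_gt A0 0).imp_right fun h0 =>
      ⟨b, hb.1, hb.2.1.mid, Or.inl fun u hu e => ⟨hB a ha.1 u hu (by omega), ?_⟩⟩⟩
    exact (mul_le_mul_of_nonneg_right (hB u hu c hc.1 (by omega)) h0.le).trans hc.2.2.2
  have c4 : (S4.image β).card ≤ 2 := card_le_two fun a ha b hb c hc h1 h2 => by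
    simp only [S4, mem_filter] at ha hb hc
    refine hc.2.2.1 ⟨hc.2.1, (le_or_gt A0 0).imp_right fun h0 =>
      ⟨b, hb.1, hb.2.1.mid, Or.inr fun u hu e => ⟨?_, hB u hu c hc.1 (by omega)⟩⟩⟩
    exact ha.2.2.2.trans (mul_le_mul_of_nonneg_right (hB a ha.1 u hu (by omega)) h0.le)
  refine ⟨(S1.image β ∪ S2.image β) ∪ (S3.image β ∪ S4.image β), ?_, fun t ht hg => ?_⟩
  · have := card_union_le (S1.image β ∪ S2.image β) (S3.image β ∪ S4.image β)
    have := card_union_le (S1.image β) (S2.image β)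
    have := card_union_le (S3.image β) (S4.image β)
    omega
  · simp only [mem_union]
    by_cases hd : Deep Ω β t
    · right
      rcases le_total (s t * A0) A1 with h | h
      · exact Or.inl (mem_image_of_mem _ (mem_filter.mpr ⟨ht, hd, hg, h⟩))
      · exact Or.inr (mem_image_of_mem _ (mem_filter.mpr ⟨ht, hd, hg, h⟩))
    · left
      rcases not_and_or.mp hd with h | h
      · exact Or.inl (mem_image_of_mem _ (mem_filter.mpr ⟨ht, h⟩))
      · exact Or.inr (mem_image_of_mem _ (mem_filter.mpr ⟨ht, h⟩))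

lemma rules (K : Kin V Ω x y z P Q R H s G G0 G1) {τ : ι → ℕ}
    (hτ : ∀ t ∈ Ω, ∀ t' ∈ Ω, τ t ≤ τ t' → s t ≤ s t') (hM : Mono Ω τ β) (hF : Full Ω y β) :
    Rules Ω x y z τ β := by
  have hB : Bl Ω β s := fun t ht u hu h => hτ t ht u hu (by
    by_contra h'
    have := hM u hu t ht (by omega)
    omega)
  by_cases hm : ∃ m ∈ Ω, Mid Ω β m
  · obtain ⟨m, hm, md⟩ := hm
    let ρ : α → ℕ := fun a => ((Ω.image y).filter fun b => lt Ω x z P Q R b a).card
    have mono : ∀ a ∈ Ω, ∀ b ∈ Ω, lt Ω x z P Q R (y a) (y b) → ρ (y a) < ρ (y b) := by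
      intro a ha b hb l
      refine card_lt_card ⟨fun c hc => ?_, fun h => ?_⟩
      · obtain ⟨h1, h2⟩ := mem_filter.mp hc
        obtain ⟨c', hc', rfl⟩ := mem_image.mp h1
        exact mem_filter.mpr ⟨h1, trans K hF hB hm md hc' ha hb h2 l⟩
      · have := (mem_filter.mp (h (mem_filter.mpr ⟨mem_image_of_mem y ha, l⟩))).2
        exact asym K hF hB hm md ha ha this this
    have back : ∀ a ∈ Ω, ∀ b ∈ Ω, ρ (y a) < ρ (y b) → lt Ω x z P Q R (y a) (y b) := by
      intro a ha b hb h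
      rcases total K ha hb (fun e => by rw [e] at h; exact lt_irrefl _ h) with l | l
      · exact l
      · have := mono b hb a ha l; omega
    refine ⟨ρ, fun t p => ¬ Good Ω β s t (G0 p (y t)) (G1 p (y t)), fun a ha b hb h => ?_,
      fun a ha => ?_, fun b p => ?_, fun a ha t ht b hb h1 h2 e l1 l2 => ?_,
      fun a ha t ht b hb h1 h2 e l1 l2 => ?_⟩
    · by_contra hne
      rcases total K ha hb hne with l | l
      · have := mono a ha b hb l; omega
      · have := mono b hb a ha l; omega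
    · refine card_lt_card ⟨filter_subset _ _, fun h => ?_⟩
      have := (mem_filter.mp (h (mem_image_of_mem y ha))).2
      exact asym K hF hB hm md ha ha this this
    · obtain ⟨B, h1, h2⟩ := bad_card hB (G0 p b) (G1 p b)
      exact ⟨B, h1, fun t ht e h => h2 t ht (e ▸ h)⟩
    · by_contra h
      push Not at h
      exact ruleL K hF hB ha hb ht e (hτ a ha t ht h1) (hτ t ht b hb h2) (back t ht a ha l1)
        (back t ht b hb l2) h.1 h.2
    · by_contra h
      push Not at h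
      exact ruleL (Kin.mir K) hF hB ha hb ht e (hτ a ha t ht h1) (hτ t ht b hb h2)
        (lt_mir.2 (back a ha t ht l1)) (lt_mir.2 (back b hb t ht l2)) h.1 h.2
  · refine ⟨fun a => if h : a ∈ Ω.image y then ((Ω.image y).equivFin ⟨a, h⟩ : ℕ) else 0,
      fun _ _ => True, fun a ha b hb h => ?_, fun a ha => ?_, fun _ _ => ⟨Ω.image β, ?_,
        fun t ht _ _ => mem_image_of_mem _ ht⟩, fun _ _ _ _ _ _ _ _ _ _ _ => Or.inl trivial,
      fun _ _ _ _ _ _ _ _ _ _ _ => Or.inl trivial⟩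
    · simp only [dif_pos (mem_image_of_mem y ha), dif_pos (mem_image_of_mem y hb)] at h
      exact congrArg Subtype.val ((Ω.image y).equivFin.injective (Fin.ext h))
    · simp only [dif_pos (mem_image_of_mem y ha)]
      exact Fin.isLt _
    · exact (card_le_two fun a ha b hb c hc h1 h2 =>
        hm ⟨b, hb, ⟨a, ha, h1⟩, c, hc, h2⟩).trans (by norm_num)

lemma core1 (K : Kin V Ω x y z P Q R H s G G0 G1) {τ : ι → ℕ}
    (hτ : ∀ t ∈ Ω, ∀ t' ∈ Ω, τ t ≤ τ t' → s t ≤ s t') : Core Ω x y z τ :=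
  fun _ h _ hM hF => rules (Kin.mono K h) (fun t ht t' ht' => hτ t (h ht) t' (h ht')) hM hF

end CoreP

theorem core : CoreStmt := fun _ _ _ _ _ _ _ _ _ _ _ _ _ _ _ _ K hτ =>
  ⟨CoreP.core1 K hτ, CoreP.core1 (CoreP.Kin.rot K) hτ,
    CoreP.core1 (CoreP.Kin.rot (CoreP.Kin.rot K)) hτ⟩

end Pool.Agent.MP_04a200_co.N4
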