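import Pool.Agent.MP_04a200_co.N4.Spec
import Mathlib.Tactic.Linarith
import Mathlib.Tactic.Positivity
import Mathlib.Tactic.FieldSimp

/-! Short cycles in the link of an edge are the whole link. -/

set_option autoImplicit false

open Classical Finset

namespace Pool.Agent.MP_04a200_co.N4

namespace Cyc

variable {α : Type} {e : α → R5} {V : Finset α} {a b c d c0 c1 c2 : α}

theorem three (h : ({a, b, c} : Finset α).card = 3) : a ≠ b ∧ a ≠ c ∧ b ≠ c := by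
  have k : a ∉ ({b, c} : Finset α) := fun k => by
    rw [insert_eq_of_mem k] at h
    exact absurd (h ▸ card_le_two) (by decide)
  rw [card_insert_of_notMem k] at h
  simp only [mem_insert, mem_singleton, not_or] at k
  refine ⟨k.1, k.2, ?_⟩
  rintro rfl
  simp at h

theorem tri (h : {a, b, d} ∈ Tri e V) : a ≠ d ∧ b ≠ d ∧ d ∈ V ∧ ∃ H : L5, H (e a) = 0 ∧
    H (e b) = 0 ∧ H (e d) = 0 ∧ ∀ v ∈ V, a ≠ v → b ≠ v → d ≠ v → 0 < H (e v) := by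
  obtain ⟨h1, h2, H, h3⟩ := mem_filter.1 h
  obtain ⟨-, k2, k3⟩ := three (mem_powersetCard.1 h1).2
  have z : ∀ v ∈ ({a, b, d} : Finset α), H (e v) = 0 := fun v hv => (h3 v (h2 hv)).2.2 hv
  refine ⟨k2, k3, h2 (by simp), H, z a (by simp), z b (by simp), z d (by simp),
    fun v hv n1 n2 n3 => (h3 v hv).1.lt_of_ne' fun k => ?_⟩
  simpa [n1.symm, n2.symm, n3.symm] using (h3 v hv).2.1 k

theorem fac (h : {a, b, c, d} ∈ Fac e V) : (a ≠ b ∧ a ≠ c ∧ a ≠ d ∧ b ≠ c ∧ b ≠ d ∧ c ≠ d) ∧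
    (a ∈ V ∧ b ∈ V ∧ c ∈ V ∧ d ∈ V) ∧ ∃ H : L5, H (e a) = 0 ∧ H (e b) = 0 ∧ H (e c) = 0 ∧
    H (e d) = 0 ∧ ∀ v ∈ V, a ≠ v → b ≠ v → c ≠ v → d ≠ v → 0 < H (e v) := by
  obtain ⟨h1, h2, H, h3⟩ := mem_filter.1 h
  have h4 := (mem_powersetCard.1 h1).2
  have k : a ∉ ({b, c, d} : Finset α) := fun k => by
    rw [insert_eq_of_mem k] at h4
    exact absurd (h4 ▸ card_le_three) (by decide)
  rw [card_insert_of_notMem k] at h4
  simp only [mem_insert, mem_singleton, not_or] at k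
  have z : ∀ v ∈ ({a, b, c, d} : Finset α), H (e v) = 0 := fun v hv => (h3 v (h2 hv)).2.2 hv
  refine ⟨⟨k.1, k.2.1, k.2.2, three (by omega)⟩,
    ⟨h2 (by simp), h2 (by simp), h2 (by simp), h2 (by simp)⟩, H, z a (by simp), z b (by simp),
    z c (by simp), z d (by simp), fun v hv n1 n2 n3 n4 => (h3 v hv).1.lt_of_ne' fun k => ?_⟩
  simpa [n1.symm, n2.symm, n3.symm, n4.symm] using (h3 v hv).2.1 k

theorem five (n : a ≠ b ∧ a ≠ c0 ∧ a ≠ c1 ∧ b ≠ c0 ∧ b ≠ c1 ∧ c0 ≠ c1) (n1 : a ≠ c2) (n2 : b ≠ c2)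
    (n3 : c0 ≠ c2) (n4 : c1 ≠ c2) (m : a ∈ V ∧ b ∈ V ∧ c0 ∈ V ∧ c1 ∈ V) (m2 : c2 ∈ V) :
    {a, b, c0, c1, c2} ⊆ V ∧ ({a, b, c0, c1, c2} : Finset α).card = 5 := by
  refine ⟨by simp [insert_subset_iff, m, m2], ?_⟩
  rw [card_insert_of_notMem (by simp [n, n1]), card_insert_of_notMem (by simp [n, n2]),
    card_insert_of_notMem (by simp [n, n3]), card_pair n4]

theorem basis (hG : GP e V)
    (h5 : {a, b, c0, c1, c2} ⊆ V ∧ ({a, b, c0, c1, c2} : Finset α).card = 5) {K0 K1 K2 H : L5}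
    (a0 : K0 (e a) = 0) (b0 : K0 (e b) = 0) (p0 : K0 (e c0) ≠ 0) (q0 : K0 (e c1) = 0)
    (r0 : K0 (e c2) = 0) (a1 : K1 (e a) = 0) (b1 : K1 (e b) = 0) (p1 : K1 (e c0) = 0)
    (q1 : K1 (e c1) ≠ 0) (r1 : K1 (e c2) = 0) (a2 : K2 (e a) = 0) (b2 : K2 (e b) = 0)
    (p2 : K2 (e c0) = 0) (q2 : K2 (e c1) = 0) (r2 : K2 (e c2) ≠ 0) (ha : H (e a) = 0)
    (hb : H (e b) = 0) (v : R5) : H v = H (e c0) / K0 (e c0) * K0 v +
      H (e c1) / K1 (e c1) * K1 v + H (e c2) / K2 (e c2) * K2 v := by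
  have := hG.2 _ h5.1 h5.2 (H - ((H (e c0) / K0 (e c0)) • K0 + (H (e c1) / K1 (e c1)) • K1 +
    (H (e c2) / K2 (e c2)) • K2)) (by simp [*])
  exact LinearMap.congr_fun (sub_eq_zero.1 this) v

end Cyc

open Cyc in
theorem cyc : CycStmt := by
  intro α e V hG
  refine ⟨fun a b c0 c1 c2 d f01 f12 f20 t => ?_,
    fun a b c0 c1 c2 c3 d n02 n13 f01 f12 f23 f30 t => ?_⟩
  · by_contra k
    simp only [not_or, ← ne_eq] at k
    obtain ⟨k0, k1, k2⟩ := k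
    obtain ⟨ad, bd, hd, H, ha, hb, h0, hH⟩ := tri t
    obtain ⟨n, m, K2, a2, b2, p2, q2, s2⟩ := fac f01
    obtain ⟨⟨-, -, n1, -, n2, n4⟩, ⟨-, -, -, m2⟩, K0, a0, b0, q0, r0, s0⟩ := fac f12
    obtain ⟨⟨-, -, -, -, -, n3⟩, -, K1, a1, b1, r1, p1, s1⟩ := fac f20
    have p0 := s0 c0 m.2.2.1 n.2.1 n.2.2.2.1 n.2.2.2.2.2.symm n3
    have q1 := s1 c1 m.2.2.2 n.2.2.1 n.2.2.2.2.1 n4.symm n.2.2.2.2.2
    have r2 := s2 c2 m2 n1 n2 n3.symm n4
    have := basis hG (five n n1 n2 n3.symm n4 m m2) a0 b0 p0.ne' q0 r0 a1 b1 p1 q1.ne' r1 a2 b2 p2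
      q2 r2.ne' ha hb (e d)
    have u0 := hH c0 m.2.2.1 n.2.1 n.2.2.2.1 k0
    have u1 := hH c1 m.2.2.2 n.2.2.1 n.2.2.2.2.1 k1
    have u2 := hH c2 m2 n1 n2 k2
    have w0 := s0 d hd ad bd k1.symm k2.symm
    have w1 := s1 d hd ad bd k2.symm k0.symm
    have w2 := s2 d hd ad bd k0.symm k1.symm
    exact absurd (h0.symm.trans this) (ne_of_lt (by positivity))
  · by_contra k
    simp only [not_or, ← ne_eq] at k
    obtain ⟨k0, k1, k2, k3⟩ := k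
    obtain ⟨ad, bd, hd, H, ha, hb, h0, hH⟩ := tri t
    obtain ⟨n, m, K2, a2, b2, p2, q2, s2⟩ := fac f01
    obtain ⟨⟨-, -, n1, -, n2, n4⟩, ⟨-, -, -, m2⟩, K0, a0, b0, q0, r0, s0⟩ := fac f12
    obtain ⟨⟨-, -, n5, -, n6, n7⟩, ⟨-, -, -, m3⟩, L0, a3, b3, r3, q3, s3⟩ := fac f23
    obtain ⟨⟨-, -, -, -, -, n8⟩, -, L2, a4, b4, q4, p4, s4⟩ := fac f30
    have h5 := five n n1 n2 n02 n4 m m2
    obtain ⟨nab, na0, na1, nb0, nb1, n01⟩ := n
    obtain ⟨ma, mb, m0, m1⟩ := m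
    obtain ⟨J, hJ⟩ := hG.1 _ h5.1 h5.2.le fun v => if v = c1 then 1 else 0
    have a1 : J (e a) = 0 := (hJ a (by simp)).trans (if_neg na1)
    have b1 : J (e b) = 0 := (hJ b (by simp)).trans (if_neg nb1)
    have p1 : J (e c0) = 0 := (hJ c0 (by simp)).trans (if_neg n01)
    have r1 : J (e c2) = 0 := (hJ c2 (by simp)).trans (if_neg n4.symm)
    have q1 : 0 < J (e c1) := by rw [hJ c1 (by simp), if_pos rfl]; exact one_pos
    have p0 := s0 c0 m0 na0 nb0 n01.symm n02.symm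
    have r2 := s2 c2 m2 n1 n2 n02 n4
    have p3 := s3 c0 m0 na0 nb0 n02.symm n8
    have r4 := s4 c2 m2 n1 n2 n7.symm n02
    have B := fun (H : L5) => basis (H := H) hG h5 a0 b0 p0.ne' q0 r0 a1 b1 p1 q1.ne' r1 a2 b2 p2
      q2 r2.ne'
    have j3 : J (e c3) < 0 := by
      have := B L0 a3 b3 (e c3)
      have v1 := div_pos (s3 c1 m1 na1 nb1 n4.symm n13.symm) q1
      have v2 := mul_pos (div_pos p3 p0) (s0 c3 m3 n5 n6 n13 n7)
      rw [q3, r3, zero_div, zero_mul, add_zero] at this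
      exact neg_of_mul_neg_left (by linarith) v1.le
    have u0 := hH c0 m0 na0 nb0 k0
    have u2 := hH c2 m2 n1 n2 k2
    rcases le_or_gt 0 (J (e d)) with j | j
    · have u1 := hH c1 m1 na1 nb1 k1
      have w0 := s0 d hd ad bd k1.symm k2.symm
      have w2 := s2 d hd ad bd k0.symm k1.symm
      exact absurd (h0.symm.trans (B H ha hb (e d))) (ne_of_lt (by positivity))
    · have := basis hG (five ⟨nab, na0, n5, nb0, n6, n8.symm⟩ n1 n2 n02 n7.symm ⟨ma, mb, m0, m3⟩ m2)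
        a3 b3 p3.ne' q3 r3 a1 b1 p1 j3.ne r1 a4 b4 p4 q4 r4.ne' ha hb (e d)
      have w0 := s3 d hd ad bd k2.symm k3.symm
      have w2 := s4 d hd ad bd k3.symm k0.symm
      have w1 := mul_pos_of_neg_of_neg (div_neg_of_pos_of_neg (hH c3 m3 n5 n6 k3) j3) j
      exact absurd (h0.symm.trans this) (ne_of_lt (add_pos (add_pos (by positivity) w1)
        (by positivity)))

end Pool.Agent.MP_04a200_co.N4
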