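import Pool.Agent.MP_04a200_co.N4.Spec
import Mathlib.Algebra.Order.Chebyshev
import Mathlib.Combinatorics.Pigeonhole
import Mathlib.Tactic.Linarith

/-! The double counting inside the levels. -/

set_option autoImplicit false

open Classical Finset

namespace Pool.Agent.MP_04a200_co.N4

namespace DC

variable {ι γ δ ε : Type}

theorem inj_le {s : Finset γ} {t : Finset δ} (f : γ → δ) {n : ℕ} (hn : t.card ≤ n)
    (h1 : ∀ a ∈ s, f a ∈ t) (h2 : ∀ a ∈ s, ∀ b ∈ s, f a = f b → a = b) : s.card ≤ n :=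
  (card_le_card_of_injOn f h1 h2).trans hn

theorem cs (S : Finset ι) (lev : ι → ℕ) (L : ℕ) (h : ∀ t ∈ S, lev t < L) :
    S.card * S.card ≤ L * ((S ×ˢ S).filter fun p => lev p.1 = lev p.2).card := by
  have h1 : S.card = ∑ j ∈ range L, (S.filter fun t => lev t = j).card :=
    card_eq_sum_card_fiberwise fun t ht => mem_range.2 (h t ht)
  have h2 : ((S ×ˢ S).filter fun p => lev p.1 = lev p.2).card =
      ∑ j ∈ range L, (S.filter fun t => lev t = j).card ^ 2 := by
    rw [card_eq_sum_card_fiberwise (f := fun p : ι × ι => lev p.1) (t := range L) fun p hp =>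
      mem_range.2 (h _ (mem_product.1 (mem_filter.1 hp).1).1)]
    refine sum_congr rfl fun j _ => ?_
    rw [sq, ← card_product]
    congr 1
    ext p
    simp only [mem_filter, mem_product]
    exact ⟨fun ⟨⟨⟨a, b⟩, c⟩, d⟩ => ⟨⟨a, d⟩, b, c ▸ d⟩, fun ⟨⟨a, d⟩, b, c⟩ =>
      ⟨⟨⟨a, b⟩, d.trans c.symm⟩, d⟩⟩
  have := sq_sum_le_card_mul_sum_sq (s := range L) (f := fun j => (S.filter fun t => lev t = j).card)
  rwa [← h1, ← h2, card_range, sq] at this

theorem few {S F : Finset ι} {f : ι → γ} {g : ι → δ} {k : ℕ} (h : Mult k S f g) (a : γ)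
    (B : Finset δ) (hF : ∀ t ∈ F, t ∈ S ∧ f t = a ∧ g t ∈ B) : F.card ≤ k * B.card :=
  card_le_mul_card_image_of_maps_to (f := g) (fun t ht => (hF t ht).2.2) k fun b _ =>
    (card_le_card fun t ht => by
      obtain ⟨h1, h2⟩ := mem_filter.1 ht
      exact mem_filter.2 ⟨(hF t h1).1, (hF t h1).2.1, h2⟩).trans (h a b)

/-- pairs whose first entries are few for each key -/
theorem pairs {P : Finset (ι × γ)} (f : ι → δ) (A : Finset δ) (B : Finset γ) (n : ℕ)
    (h1 : ∀ p ∈ P, f p.1 ∈ A ∧ p.2 ∈ B)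
    (h2 : ∀ a b, ∀ F : Finset ι, (∀ t ∈ F, (t, b) ∈ P ∧ f t = a) → F.card ≤ n) :
    P.card ≤ n * (A.card * B.card) := by
  rw [← card_product]
  refine card_le_mul_card_image_of_maps_to (f := fun p => (f p.1, p.2))
    (fun p hp => mem_product.2 (h1 p hp)) n fun ⟨a, b⟩ _ => ?_
  refine inj_le Prod.fst (h2 a b _ fun t ht => ?_) (fun p hp => mem_image_of_mem _ hp)
    fun p hp p' hp' e => Prod.ext e ?_
  · obtain ⟨p, hp, rfl⟩ := mem_image.1 ht
    obtain ⟨k1, k2⟩ := mem_filter.1 hp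
    obtain ⟨k3, rfl⟩ := Prod.ext_iff.1 k2
    exact ⟨k1, k3⟩
  · exact (Prod.ext_iff.1 ((mem_filter.1 hp).2.trans (mem_filter.1 hp').2.symm)).2

end DC

open DC in
theorem dc : DCStmt := by
  rintro α ι S l c r τ β lev L k q ⟨ρ, Bad, h1, -, h3, h4, -⟩ hM hL m1 m2 m3
  set P := (S ×ˢ S.image c).filter fun p => ∃ u ∈ S, c u = p.2 ∧ lev u = lev p.1 ∧
    ρ p.2 < ρ (c p.1) with hP
  have mP : ∀ {p}, p ∈ P → p.1 ∈ S ∧ p.2 ∈ S.image c ∧ ∃ u ∈ S, c u = p.2 ∧ lev u = lev p.1 ∧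
      ρ p.2 < ρ (c p.1) := fun hp =>
    ⟨(mem_product.1 (mem_filter.1 hp).1).1, (mem_product.1 (mem_filter.1 hp).1).2,
      (mem_filter.1 hp).2⟩
  have b1 : (P.filter fun p => Bad p.1 p.2).card ≤ q * 8 * ((S.image c).card * (S.image c).card) :=
    pairs c _ _ _ (fun p hp => ⟨mem_image_of_mem _ (mP (mem_filter.1 hp).1).1,
      (mP (mem_filter.1 hp).1).2.1⟩) fun a b F hF => by
      obtain ⟨B, B1, B2⟩ := h3 a b
      refine (few m3 a B fun t ht => ?_).trans (Nat.mul_le_mul_left q B1)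
      obtain ⟨k1, k2⟩ := mem_filter.1 (hF t ht).1
      exact ⟨(mP k1).1, (hF t ht).2, B2 t (mP k1).1 (hF t ht).2 k2⟩
  have b2 : (P.filter fun p => ¬ Bad p.1 p.2).card ≤
      k * 2 * ((S.image l).card * (S.image c).card) :=
    pairs l _ _ _ (fun p hp => ⟨mem_image_of_mem _ (mP (mem_filter.1 hp).1).1,
      (mP (mem_filter.1 hp).1).2.1⟩) fun a b F hF => by
      rcases F.eq_empty_or_nonempty with rfl | hn
      · simp
      obtain ⟨t1, k1, n1⟩ := exists_min_image F lev hn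
      obtain ⟨t3, k3, n3⟩ := exists_max_image F lev hn
      refine (few m2 a {lev t1, lev t3} fun t ht => ?_).trans (Nat.mul_le_mul_left k card_le_two)
      obtain ⟨j0, -, u, u1, u2, u3, -⟩ := mP (mem_filter.1 (hF t ht).1).1
      refine ⟨j0, (hF t ht).2, ?_⟩
      by_contra hc
      simp only [mem_insert, mem_singleton, not_or] at hc
      obtain ⟨i1, i2⟩ := mem_filter.1 (hF t1 k1).1
      obtain ⟨i3, i4⟩ := mem_filter.1 (hF t3 k3).1
      obtain ⟨j1, -, -, -, -, -, j2⟩ := mP i1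
      obtain ⟨j3, -, -, -, -, -, j4⟩ := mP i3
      have a1 := n1 t ht
      have a3 := n3 t ht
      dsimp only at u2 u3 j1 j2 j3 j4 i2 i4
      subst u2
      refine (h4 t1 j1 u u1 t3 j3 (le_of_not_ge fun e => ?_) (le_of_not_ge fun e => ?_)
        ((hF t1 k1).2.trans (hF t3 k3).2.symm) j2 j4).elim i2 i4
      · have := hM u u1 t1 j1 e
        omega
      · have := hM t3 j3 u u1 e
        omega
  have b3 := card_filter_add_card_filter_not (s := P) fun p => Bad p.1 p.2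
  set Q := (S ×ˢ S).filter fun p => lev p.1 = lev p.2 with hQ
  have mQ : ∀ {p}, p ∈ Q → p.1 ∈ S ∧ p.2 ∈ S ∧ lev p.1 = lev p.2 := fun hp =>
    ⟨(mem_product.1 (mem_filter.1 hp).1).1, (mem_product.1 (mem_filter.1 hp).1).2,
      (mem_filter.1 hp).2⟩
  have key : ∀ (R : Finset (ι × ι)) (T : Finset (ι × α)), R ⊆ Q → (∀ p ∈ R, (p.1, c p.2) ∈ T) →
      R.card ≤ k * T.card := fun R T hR hT =>
    card_le_mul_card_image_of_maps_to (f := fun p => (p.1, c p.2)) hT k fun ⟨t, b⟩ _ =>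
      inj_le Prod.snd (m1 b (lev t)) (fun p hp => by
        obtain ⟨k1, k2⟩ := mem_filter.1 hp
        obtain ⟨rfl, rfl⟩ := Prod.ext_iff.1 k2
        simpa only [mem_filter, true_and] using ⟨(mQ (hR k1)).2.1, (mQ (hR k1)).2.2.symm⟩)
        fun p hp p' hp' e => Prod.ext
          (Prod.ext_iff.1 ((mem_filter.1 hp).2.trans (mem_filter.1 hp').2.symm)).1 e
  have c0 := (key (Q.filter fun p => c p.1 = c p.2) (S.image fun t => (t, c t))
    (filter_subset _ _) fun p hp => mem_image.2 ⟨p.1, (mQ (mem_filter.1 hp).1).1, by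
      rw [(mem_filter.1 hp).2]⟩).trans (Nat.mul_le_mul_left k card_image_le)
  have c1 := key (Q.filter fun p => ρ (c p.2) < ρ (c p.1)) P (filter_subset _ _) fun p hp => by
    obtain ⟨k1, k2, k3⟩ := mQ (mem_filter.1 hp).1
    exact mem_filter.2 ⟨mem_product.2 ⟨k1, mem_image_of_mem _ k2⟩, p.2, k2, rfl, k3.symm,
      (mem_filter.1 hp).2⟩
  have c2 : (Q.filter fun p => ρ (c p.1) < ρ (c p.2)).card ≤ k * P.card :=
    inj_le Prod.swap c1 (fun p hp => by
      obtain ⟨k1, k2, k3⟩ := mQ (mem_filter.1 hp).1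
      exact mem_filter.2 ⟨mem_filter.2 ⟨mem_product.2 ⟨k2, k1⟩, k3.symm⟩, (mem_filter.1 hp).2⟩)
      fun _ _ _ _ e => Prod.swap_injective e
  have c3 : Q.card ≤ _ := (card_le_card (t := (Q.filter fun p => c p.1 = c p.2) ∪
    ((Q.filter fun p => ρ (c p.2) < ρ (c p.1)) ∪ Q.filter fun p => ρ (c p.1) < ρ (c p.2)))
    fun p hp => by
      simp only [mem_union, mem_filter.trans (and_iff_right hp)]
      rcases lt_trichotomy (ρ (c p.1)) (ρ (c p.2)) with e | e | e
      · exact .inr (.inr e)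
      · exact .inl (h1 _ (mQ hp).1 _ (mQ hp).2.1 e)
      · exact .inr (.inl e)).trans ((card_union_le _ _).trans
        (add_le_add c0 ((card_union_le _ _).trans (add_le_add c1 c2))))
  refine (cs S lev L hL).trans ?_
  rw [mul_assoc L]
  refine Nat.mul_le_mul_left L (c3.trans ?_)
  rw [← mul_add, ← mul_add]
  refine Nat.mul_le_mul_left k ?_
  nlinarith

end Pool.Agent.MP_04a200_co.N4
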