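import Pool.Agent.MP_04a200_co.N4.Spec
import Mathlib.Data.Finset.Max

/-! The downward sweep. -/

set_option autoImplicit false

open Classical Finset

namespace Pool.Agent.MP_04a200_co.N4

theorem down (greedy : GreedyStmt) (lev : LevStmt) : DownStmt := by
  intro α ι Φ Ψ x z η τ n b j w hΨ hne hτ hF hw hb hx hz h
  have lt : ∀ {u v : ι}, η u / b < η v / b → η u < η v := fun e => Nat.lt_of_div_lt_div e
  have le : ∀ {S T : Finset ι}, S ⊆ T → (S.image η).card ≤ (T.image η).card := fun e =>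
    card_le_card (image_subset_image e)
  have ne : ∀ {S : Finset ι}, w < (S.image η).card → S.Nonempty := fun e =>
    image_nonempty.mp (card_pos.mp (hw.trans e))
  obtain ⟨W, hW, hWn, hn, hc⟩ := greedy α ι Ψ x z τ (fun a c =>
    ((Φ.filter fun u => a ≤ τ u ∧ τ u ≤ c ∧ η u / b < j).image η).card ≤ w) n hne
    (fun a => card_image_le.trans ((card_le_one.mpr fun u hu v hv => by
      rw [mem_filter] at hu hv
      exact hτ u hu.1 v hv.1 (by omega)).trans hw))
    (fun a a' c' c h1 _ h2 h3 => (le fun u hu => by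
      rw [mem_filter] at hu ⊢
      exact ⟨hu.1, h1.trans hu.2.1, hu.2.2.1.trans h2, hu.2.2.2⟩).trans h3)
    (by
      intro t ht t' ht' htt e
      obtain ⟨j1, -, -⟩ := h t ht
      obtain ⟨j2, top, -⟩ := h t' ht'
      rcases e with e | e
      · refine (le fun u hu => ?_).trans (hF.1 t (hΨ ht) t' (hΨ ht') e)
        rw [mem_filter] at hu ⊢
        exact ⟨hu.1, hu.2.1, hu.2.2.1, lt (j1 ▸ hu.2.2.2), lt (j2 ▸ hu.2.2.2)⟩
      · obtain ⟨v, hv, hm⟩ := exists_min_image _ τ (ne top)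
        rw [mem_filter] at hv
        by_cases hc : τ t ≤ τ v
        · refine absurd ((le fun u hu => ?_).trans (hF.2 t (hΨ ht) t' (hΨ ht') e)) (not_le.mpr top)
          have := hm u hu
          rw [mem_filter] at hu ⊢
          exact ⟨hu.1, hc.trans this, hu.2.2.2, lt (j1.symm ▸ hu.2.2.1), lt (j2.symm ▸ hu.2.2.1)⟩
        · refine (le fun u hu => ?_).trans (hF.1 v hv.1 t' (hΨ ht') hv.2.1)
          rw [mem_filter] at hu ⊢
          exact ⟨hu.1, (not_le.mp hc).le.trans hu.2.1, hu.2.2.1, lt (hu.2.2.2.trans hv.2.2.1),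
            lt (j2 ▸ hu.2.2.2)⟩)
    ((card_le_card (image_subset_image hΨ)).trans hx)
    ((card_le_card (image_subset_image hΨ)).trans hz)
  refine ⟨W, hW, hWn, lev ι W η τ b j w hw (fun t ht t' ht' => hτ t (hΨ (hW ht)) t' (hΨ (hW ht')))
    (fun t ht => (h t (hW ht)).1) hb fun t ht => ?_, hc⟩
  obtain ⟨j1, -, bot⟩ := h t (hW ht)
  obtain ⟨v, hv, hm⟩ := exists_max_image _ τ (ne bot)
  obtain ⟨u0, hu0, hm0⟩ := exists_max_image _ τ hWn
  rw [mem_filter] at hv
  by_cases hc : τ v ≤ τ u0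
  · refine absurd ((le fun u hu => ?_).trans (hn t ht u0 hu0 (hm0 t ht))) (not_le.mpr bot)
    have := hm u hu
    rw [mem_filter] at hu ⊢
    exact ⟨hu.1, hu.2.2.2, this.trans hc, hu.2.2.1⟩
  · refine (le fun u hu => ?_).trans (hF.2 t (hΨ (hW ht)) v hv.1 hv.2.1.symm)
    rw [mem_filter] at hu ⊢
    exact ⟨hΨ (hW hu.1), hu.2.1, (hm0 u hu.1).trans (not_le.mp hc).le, hu.2.2,
      (lt (j1 ▸ hv.2.2.1)).trans hu.2.2⟩

end Pool.Agent.MP_04a200_co.N4
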