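import Pool.Agent.MP_04a200_co.N4.Spec
import Mathlib.Tactic.Linarith
import Mathlib.Tactic.Ring
import Mathlib.Tactic.Positivity
import Mathlib.Order.Interval.Finset.Nat

/-! Row FINAL: the last counting step. -/

set_option autoImplicit false

open Classical Finset

namespace Pool.Agent.MP_04a200_co.N4

namespace Final

lemma mult_mono {ι γ δ : Type} {D : ℕ} {Ω Ω' : Finset ι} {f : ι → γ} {g : ι → δ}
    (h : Mult D Ω f g) (hs : Ω' ⊆ Ω) : Mult D Ω' f g := fun a b =>
  le_trans (card_le_card (filter_subset_filter _ hs)) (h a b)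

lemma card_le {ι α : Type} {k : ℕ} {W : Finset ι} {c : ι → α} {lev : ι → ℕ}
    (h : Mult k W c lev) (T : Finset ι) (hT : T ⊆ W) (p : α) (J : Finset ℕ)
    (hp : ∀ t ∈ T, c t = p ∧ lev t ∈ J) : T.card ≤ J.card * k := by
  have h1 : T ⊆ J.biUnion fun j => W.filter fun t => c t = p ∧ lev t = j := by
    intro t ht
    simp only [mem_biUnion, mem_filter]
    exact ⟨lev t, (hp t ht).2, hT ht, (hp t ht).1, rfl⟩
  refine le_trans (card_le_card h1) (le_trans card_biUnion_le ?_)
  have h2 : ∀ j ∈ J, (W.filter fun t => c t = p ∧ lev t = j).card ≤ k := by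
    intro j _
    have := h p j
    convert this
  refine le_trans (sum_le_sum h2) (le_of_eq (by rw [sum_const, smul_eq_mul]))

lemma arith (K M P L k h d s u : ℕ) (hM : M = 256 * K ^ 2) (hK : 0 < K) (hs : 0 < s)
    (hd : 4 * K ≤ d) (hX : L * k * d ≤ 2 * K * s) (hh : M * h ≤ L + M) (hu : u ≤ 4 * P * K * d)
    (hL : M + 256 * P * K ^ 3 + 1 ≤ L)
    (main : s * s ≤ L * k * (s + 16 * (h * k) * d * d + 4 * k * u * d)) : False := by
  have hA : 2 * (L * k) ≤ s := by
    have h1 : 2 * K * (2 * (L * k)) ≤ 2 * K * s := by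
      calc 2 * K * (2 * (L * k)) = L * k * (4 * K) := by ring
        _ ≤ L * k * d := Nat.mul_le_mul_left _ hd
        _ ≤ 2 * K * s := hX
    exact Nat.le_of_mul_le_mul_left h1 (by omega)
  have hB : (L * k * d) * (L * k * d) ≤ (2 * K * s) * (2 * K * s) := Nat.mul_le_mul hX hX
  have hM0 : 0 < M := by
    rw [hM]
    positivity
  have h2 : 4 * (16 * h * ((L * k * d) * (L * k * d))) ≤ (L + M) * (s * s) := by
    refine Nat.le_of_mul_le_mul_left ?_ hM0
    calc M * (4 * (16 * h * ((L * k * d) * (L * k * d))))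
        = 64 * (M * h) * ((L * k * d) * (L * k * d)) := by ring
      _ ≤ 64 * (L + M) * ((2 * K * s) * (2 * K * s)) :=
          Nat.mul_le_mul (Nat.mul_le_mul_left _ hh) hB
      _ = (256 * K ^ 2) * ((L + M) * (s * s)) := by ring
      _ = M * ((L + M) * (s * s)) := by rw [← hM]
  have h3 : 4 * (L * (L * k * (4 * k * u * d))) ≤ 256 * P * K ^ 3 * (s * s) := by
    calc 4 * (L * (L * k * (4 * k * u * d))) = 16 * (L * k) * (L * k * d) * u := by ring
      _ ≤ 16 * (L * k) * (L * k * d) * (4 * P * K * d) := Nat.mul_le_mul_left _ hu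
      _ = 64 * P * K * ((L * k * d) * (L * k * d)) := by ring
      _ ≤ 64 * P * K * ((2 * K * s) * (2 * K * s)) := Nat.mul_le_mul_left _ hB
      _ = 256 * P * K ^ 3 * (s * s) := by ring
  have h1 : 4 * (L * (L * k * s)) ≤ 2 * L * (s * s) := by
    calc 4 * (L * (L * k * s)) = 2 * L * s * (2 * (L * k)) := by ring
      _ ≤ 2 * L * s * s := Nat.mul_le_mul_left _ hA
      _ = 2 * L * (s * s) := by ring
  have h4 : 4 * L * (s * s) ≤ 4 * (L * (L * k * s)) + 4 * (16 * h * ((L * k * d) * (L * k * d))) +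
      4 * (L * (L * k * (4 * k * u * d))) := by
    calc 4 * L * (s * s) ≤ 4 * L * (L * k * (s + 16 * (h * k) * d * d + 4 * k * u * d)) :=
          Nat.mul_le_mul_left _ main
      _ = _ := by ring
  have h5 : (M + 256 * P * K ^ 3 + 1) * (s * s) ≤ L * (s * s) := Nat.mul_le_mul_right _ hL
  have h6 : 0 < s * s := Nat.mul_pos hs hs
  nlinarith

end Final

theorem final (cls : ClassStmt) (dc : DCStmt) : FinalStmt := by
  intro K
  obtain ⟨M, hM⟩ : ∃ M, M = 256 * K ^ 2 := ⟨_, rfl⟩
  obtain ⟨P, hP⟩ : ∃ P, P = 2 ^ M := ⟨_, rfl⟩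
  refine ⟨M + 256 * P * K ^ 3 + 1, 16 * P * K ^ 2, ?_⟩
  intro α ι W l c r τ lev L k hcore hne hmono hlev hc hl hL hm hK
  obtain ⟨m, hmdef⟩ : ∃ m, m = (W.image c).card + (W.image l).card := ⟨_, rfl⟩
  rw [← hmdef] at hm hK
  obtain ⟨t0, ht0⟩ := hne
  have hk : 0 < k := by
    refine lt_of_lt_of_le (card_pos.2 ⟨t0, ?_⟩) (hc (c t0) (lev t0))
    simp [ht0]
  have hL0 : 0 < L := by omega
  have hm0 : 0 < m := by
    have : 0 < (W.image c).card := card_pos.2 ⟨c t0, mem_image_of_mem _ ht0⟩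
    omega
  have hK0 : 0 < K := by
    rcases Nat.eq_zero_or_pos K with h0 | h0
    · have : 0 < L * k * m := by positivity
      rw [h0] at hK
      omega
    · exact h0
  have hM0 : 0 < M := by
    rw [hM]
    positivity
  have hP0 : 0 < P := by
    rw [hP]
    positivity
  obtain ⟨h, hh⟩ : ∃ h, h = L / M + 1 := ⟨_, rfl⟩
  have hh0 : 0 < h := by
    rw [hh]
    exact Nat.succ_pos _
  have hLh : L < M * h := by
    rw [hh]
    exact Nat.lt_mul_div_succ L hM0
  have hMh : M * h ≤ L + M := by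
    rw [hh, mul_add, mul_one]
    exact Nat.add_le_add_right (Nat.mul_div_le L M) M
  have hβ : ∀ t ∈ W, lev t / h < M := fun t ht =>
    (Nat.div_lt_iff_lt_mul hh0).2 (lt_trans (hlev t ht) hLh)
  have hdeg : ∀ p, (W.filter fun t => c t = p).card ≤ L * k := by
    intro p
    have := Final.card_le hc (W.filter fun t => c t = p) (filter_subset _ _) p (range L)
      (fun t ht => ⟨(mem_filter.1 ht).2, mem_range.2 (hlev t (mem_filter.1 ht).1)⟩)
    rwa [card_range] at this
  have hmult : Mult (h * k) W c fun t => lev t / h := by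
    intro a b
    have := Final.card_le hc (W.filter fun t => c t = a ∧ lev t / h = b) (filter_subset _ _) a
      (Ico (b * h) (b * h + h)) (fun t ht => by
        obtain ⟨-, h1, h2⟩ := mem_filter.1 ht
        refine ⟨h1, mem_Ico.2 ⟨?_, ?_⟩⟩
        · rw [← h2]
          exact Nat.div_mul_le_self _ _
        · rw [← h2]
          exact Nat.lt_div_mul_add hh0)
    rw [Nat.card_Ico, Nat.add_sub_cancel_left] at this
    convert this
  obtain ⟨S, hSW, hSne, hfull, h1, h2⟩ := cls α ι W c (fun t => lev t / h) M (L * k) m ⟨t0, ht0⟩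
    hβ hdeg (by omega)
  have hmonoS : Mono S τ lev := fun t ht t' ht' => hmono t (hSW ht) t' (hSW ht')
  have hmonoβ : Mono S τ fun t => lev t / h := fun t ht t' ht' htt =>
    Nat.div_le_div_right (hmonoS t ht t' ht' htt)
  have hrules := hcore S hSW _ hmonoβ hfull
  have main := dc α ι S l c r τ _ lev L k (h * k) hrules hmonoS (fun t ht => hlev t (hSW ht))
    (Final.mult_mono hc hSW) (Final.mult_mono hl hSW) (Final.mult_mono hmult hSW)
  rw [← hP] at h2
  obtain ⟨d, hd⟩ : ∃ d, d = (S.image c).card := ⟨_, rfl⟩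
  rw [← hd] at h1 h2 main
  have hX : L * k * d ≤ 2 * K * S.card := by
    refine Nat.le_of_mul_le_mul_left ?_ hm0
    calc m * (L * k * d) = L * k * m * d := by ring
      _ ≤ K * W.card * d := Nat.mul_le_mul_right _ hK
      _ = K * (W.card * d) := by ring
      _ ≤ K * (2 * m * S.card) := Nat.mul_le_mul_left _ h1
      _ = m * (2 * K * S.card) := by ring
  have hmd : m ≤ 4 * P * K * d := by
    refine Nat.le_of_mul_le_mul_left ?_ (Nat.mul_pos hL0 hk)
    calc L * k * m ≤ K * W.card := hK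
      _ ≤ K * (4 * P * (L * k) * d) := Nat.mul_le_mul_left _ h2
      _ = L * k * (4 * P * K * d) := by ring
  have hd4 : 4 * K ≤ d := by
    refine Nat.le_of_mul_le_mul_left ?_ (show 0 < 4 * P * K by positivity)
    calc 4 * P * K * (4 * K) = 16 * P * K ^ 2 := by ring
      _ ≤ m := hm
      _ ≤ 4 * P * K * d := hmd
  have hu : (S.image l).card ≤ 4 * P * K * d := by
    have : (S.image l).card ≤ (W.image l).card := card_le_card (image_subset_image hSW)
    omega
  exact Final.arith K M P L k h d S.card _ hM hK0 (card_pos.2 hSne) hd4 hX hMh hu hL main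

end Pool.Agent.MP_04a200_co.N4
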