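import Pool.Agent.MP_04a200_co.N4.Spec
import Mathlib.Data.Finset.Max
import Mathlib.Data.Finset.Prod
import Mathlib.Algebra.Order.BigOperators.Group.Finset
import Mathlib.Tactic.Ring
import Mathlib.Tactic.Linarith

/-! Fine roots, ranks and local multiplicities. -/

set_option autoImplicit false

open Classical Finset

namespace Pool.Agent.MP_04a200_co.N4

namespace Fine

variable {α ι γ δ : Type}

theorem mult_le {D : ℕ} {Ω : Finset ι} {f : ι → γ} {g : ι → δ} (h : Mult D Ω f g) (a : γ) (b : δ)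
    (T : Finset ι) (hT : ∀ t ∈ T, t ∈ Ω ∧ f t = a ∧ g t = b) : T.card ≤ D := by
  refine le_trans (card_le_card ?_) (h a b)
  intro t ht
  exact mem_filter.2 (hT t ht)

theorem mult_prod {D : ℕ} {Ω : Finset ι} {f : ι → γ} {g : ι → δ} (h : Mult D Ω f g)
    (A : Finset γ) (B : Finset δ) (T : Finset ι) (hT : ∀ t ∈ T, t ∈ Ω ∧ f t ∈ A ∧ g t ∈ B) :
    T.card ≤ D * (A.card * B.card) := by
  rw [← card_product]
  refine card_le_mul_card_image_of_maps_to (f := fun t => (f t, g t)) ?_ D ?_
  · intro t ht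
    exact mem_product.2 (hT t ht).2
  · intro p _
    refine mult_le h p.1 p.2 _ ?_
    intro t ht
    obtain ⟨h1, h2⟩ := mem_filter.1 ht
    exact ⟨(hT t h1).1, congrArg Prod.fst h2, congrArg Prod.snd h2⟩

/-- few values have many preimages -/
theorem heavy (S : Finset ι) (f : ι → γ) (q : ℕ) (A : Finset γ)
    (hA : ∀ a ∈ A, q ≤ (S.filter fun u => f u = a).card) : q * A.card ≤ S.card := by
  have h1 : ∑ a ∈ A, (S.filter fun u => f u = a).card = (S.filter fun u => f u ∈ A).card := by
    rw [card_eq_sum_card_fiberwise (f := f) (s := S.filter fun u => f u ∈ A) (t := A)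
      (fun u hu => (mem_filter.1 hu).2)]
    refine sum_congr rfl fun a ha => congrArg card ?_
    ext u
    simp only [mem_filter]
    constructor
    · rintro ⟨h1, h2⟩
      exact ⟨⟨h1, h2 ▸ ha⟩, h2⟩
    · rintro ⟨⟨h1, _⟩, h2⟩
      exact ⟨h1, h2⟩
  calc q * A.card = ∑ _a ∈ A, q := by rw [sum_const, smul_eq_mul, mul_comm]
    _ ≤ ∑ a ∈ A, (S.filter fun u => f u = a).card := sum_le_sum hA
    _ = (S.filter fun u => f u ∈ A).card := h1
    _ ≤ S.card := card_filter_le _ _

theorem block {D h q : ℕ} {Ω : Finset ι} {x y : ι → α} (hm : Mult D Ω x y) (S T : Finset ι)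
    (hS : S.card ≤ h)
    (hT : ∀ t ∈ T, t ∈ Ω ∧ q ≤ (S.filter fun u => x u = x t).card ∧
      q ≤ (S.filter fun u => y u = y t).card) : q * q * T.card ≤ D * h * S.card := by
  have hA : q * (T.image x).card ≤ S.card := by
    refine heavy S x q _ ?_
    intro a ha
    obtain ⟨t, ht, rfl⟩ := mem_image.1 ha
    exact (hT t ht).2.1
  have hB : q * (T.image y).card ≤ S.card := by
    refine heavy S y q _ ?_
    intro a ha
    obtain ⟨t, ht, rfl⟩ := mem_image.1 ha
    exact (hT t ht).2.2
  have hC : T.card ≤ D * ((T.image x).card * (T.image y).card) :=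
    mult_prod hm _ _ T fun t ht => ⟨(hT t ht).1, mem_image_of_mem _ ht, mem_image_of_mem _ ht⟩
  calc q * q * T.card ≤ q * q * (D * ((T.image x).card * (T.image y).card)) :=
        Nat.mul_le_mul_left _ hC
    _ = D * (q * (T.image x).card) * (q * (T.image y).card) := by ring
    _ ≤ D * h * S.card :=
        Nat.mul_le_mul (Nat.mul_le_mul_left _ (hA.trans hS)) hB

/-- heights covered by two small sets of centres -/
theorem cover (ρ : α → ℕ) (c : ι → α) (T : Finset ι) (P Q : Finset α) (w : ℕ) (hP : P.card ≤ w)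
    (hQ : Q.card ≤ w) (hT : ∀ t ∈ T, c t ∈ P ∨ c t ∈ Q) :
    (T.image fun t => ρ (c t)).card ≤ 2 * w := by
  have h1 : (T.image fun t => ρ (c t)) ⊆ (P ∪ Q).image ρ := by
    intro k hk
    obtain ⟨t, ht, rfl⟩ := mem_image.1 hk
    exact mem_image_of_mem _ (mem_union.2 (hT t ht))
  calc (T.image fun t => ρ (c t)).card ≤ ((P ∪ Q).image ρ).card := card_le_card h1
    _ ≤ (P ∪ Q).card := card_image_le
    _ ≤ P.card + Q.card := card_union_le _ _
    _ ≤ 2 * w := by omega

end Fine

open Fine

theorem rank : RankStmt := by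
  intro ι Ω f
  induction Ω using Finset.induction_on_max_value f with
  | empty => exact ⟨fun _ => 0, by simp, by simp, by simp⟩
  | insert a s ha hmax ih =>
    obtain ⟨rk, h1, h2, h3⟩ := ih
    have hne : ∀ t ∈ s, t ≠ a := fun t ht h => ha (h ▸ ht)
    refine ⟨fun t => if t = a then s.card else rk t, ?_, ?_, ?_⟩
    · intro t ht t' ht' h
      rcases mem_insert.1 ht with e | m <;> rcases mem_insert.1 ht' with e' | m'
      · rw [e, e']
      · simp only [if_pos e, if_neg (hne _ m')] at h
        have := h2 _ m'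
        omega
      · simp only [if_pos e', if_neg (hne _ m)] at h
        have := h2 _ m
        omega
      · simp only [if_neg (hne _ m), if_neg (hne _ m')] at h
        exact h1 _ m _ m' h
    · intro t ht
      rw [card_insert_of_notMem ha]
      rcases mem_insert.1 ht with e | m
      · simp [e]
      · simp only [if_neg (hne _ m)]
        have := h2 _ m
        omega
    · intro t ht t' ht' h
      rcases mem_insert.1 ht with e | m <;> rcases mem_insert.1 ht' with e' | m'
      · rw [e, e'] at h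
        exact absurd h (lt_irrefl _)
      · rw [e] at h
        exact absurd (hmax _ m') (not_le.2 h)
      · simp only [if_pos e', if_neg (hne _ m)]
        exact h2 _ m
      · simp only [if_neg (hne _ m), if_neg (hne _ m')]
        exact h3 _ m _ m' h

theorem loc : LocStmt := by
  intro α ι Ω x y β D h q hm hb
  set T := Ω.filter fun t => q < (Ω.filter fun u => x u = x t ∧ β u = β t).card ∧
    q < (Ω.filter fun u => y u = y t ∧ β u = β t).card with hT
  have e1 : T.card = ∑ k ∈ Ω.image β, (T.filter fun t => β t = k).card :=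
    card_eq_sum_card_fiberwise fun t ht => mem_image_of_mem _ (mem_filter.1 ht).1
  have e2 : Ω.card = ∑ k ∈ Ω.image β, (Ω.filter fun t => β t = k).card :=
    card_eq_sum_card_fiberwise fun t ht => mem_image_of_mem _ ht
  rw [e1, e2, mul_sum, mul_sum]
  refine sum_le_sum fun k _ => block hm _ _ (hb k) ?_
  intro t ht
  obtain ⟨ht1, hk⟩ := mem_filter.1 ht
  obtain ⟨h0, h1, h2⟩ := mem_filter.1 ht1
  refine ⟨h0, h1.le.trans (card_le_card ?_), h2.le.trans (card_le_card ?_)⟩
  · intro u hu
    obtain ⟨u0, u1, u2⟩ := mem_filter.1 hu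
    exact mem_filter.2 ⟨mem_filter.2 ⟨u0, u2.trans hk⟩, u1⟩
  · intro u hu
    obtain ⟨u0, u1, u2⟩ := mem_filter.1 hu
    exact mem_filter.2 ⟨mem_filter.2 ⟨u0, u2.trans hk⟩, u1⟩

theorem fine : FineStmt := by
  intro α ι Ω l c r τ β q w hR hm
  obtain ⟨ρ, Bad, r1, r2, r3, r4, r5⟩ := hR
  set C := Ω.image c with hC
  set Φ := Ω.filter fun t => (C.filter fun p => Bad t p).card ≤ w with hΦ
  have hsub : Φ ⊆ Ω := filter_subset _ _
  refine ⟨Φ, hsub, fun t => ρ (c t), r1, r2, ?_, ?_, ?_⟩
  · have hp : ∀ p, (Ω.filter fun t => Bad t p).card ≤ 8 * q * C.card := by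
      intro p
      refine card_le_mul_card_image_of_maps_to (f := c) ?_ (8 * q) ?_
      · intro t ht
        exact mem_image_of_mem _ (mem_filter.1 ht).1
      · intro b _
        obtain ⟨B, hB, hB'⟩ := r3 b p
        have := mult_prod hm {b} B (((Ω.filter fun t => Bad t p)).filter fun t => c t = b) (by
          intro t ht
          obtain ⟨h1, h2⟩ := mem_filter.1 ht
          obtain ⟨h3, h4⟩ := mem_filter.1 h1
          exact ⟨h3, mem_singleton.2 h2, hB' t h3 h2 h4⟩)
        rw [card_singleton, one_mul] at this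
        calc _ ≤ q * B.card := this
          _ ≤ q * 8 := Nat.mul_le_mul_left _ hB
          _ = 8 * q := mul_comm _ _
    have hsw : ∑ t ∈ Ω, (C.filter fun p => Bad t p).card =
        ∑ p ∈ C, (Ω.filter fun t => Bad t p).card := by
      simp only [card_filter]
      exact sum_comm
    calc (w + 1) * (Ω.card - Φ.card) = ∑ _t ∈ Ω \ Φ, (w + 1) := by
          rw [sum_const, smul_eq_mul, card_sdiff_of_subset hsub, mul_comm]
      _ ≤ ∑ t ∈ Ω \ Φ, (C.filter fun p => Bad t p).card := by
          refine sum_le_sum fun t ht => ?_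
          obtain ⟨h1, h2⟩ := mem_sdiff.1 ht
          by_contra h3
          exact h2 (mem_filter.2 ⟨h1, by omega⟩)
      _ ≤ ∑ t ∈ Ω, (C.filter fun p => Bad t p).card := sum_le_sum_of_subset sdiff_subset
      _ = ∑ p ∈ C, (Ω.filter fun t => Bad t p).card := hsw
      _ ≤ ∑ _p ∈ C, 8 * q * C.card := sum_le_sum fun p _ => hp p
      _ = 8 * q * C.card * C.card := by rw [sum_const, smul_eq_mul, mul_comm]
  · intro t1 h1 t3 h3 hl
    refine cover ρ c _ _ _ w (mem_filter.1 h1).2 (mem_filter.1 h3).2 ?_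
    intro t ht
    obtain ⟨h0, a1, a2, a3, a4⟩ := mem_filter.1 ht
    have hc : c t ∈ C := mem_image_of_mem _ (hsub h0)
    rcases r4 t1 (hsub h1) t (hsub h0) t3 (hsub h3) a1 a2 hl a3 a4 with h | h
    · exact Or.inl (mem_filter.2 ⟨hc, h⟩)
    · exact Or.inr (mem_filter.2 ⟨hc, h⟩)
  · intro t1 h1 t3 h3 hl
    refine cover ρ c _ _ _ w (mem_filter.1 h1).2 (mem_filter.1 h3).2 ?_
    intro t ht
    obtain ⟨h0, a1, a2, a3, a4⟩ := mem_filter.1 ht
    have hc : c t ∈ C := mem_image_of_mem _ (hsub h0)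
    rcases r5 t1 (hsub h1) t (hsub h0) t3 (hsub h3) a1 a2 hl a3 a4 with h | h
    · exact Or.inl (mem_filter.2 ⟨hc, h⟩)
    · exact Or.inr (mem_filter.2 ⟨hc, h⟩)

end Pool.Agent.MP_04a200_co.N4
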