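import Pool.Agent.MP_04a200_co.N4.Spec
import Mathlib.LinearAlgebra.Basis.VectorSpace
import Mathlib.LinearAlgebra.FiniteDimensional.Lemmas
import Mathlib.LinearAlgebra.Dimension.Constructions
import Mathlib.Algebra.Order.Field.Basic
import Mathlib.Data.Finset.Max

/-! General position of neighborly configurations, and extension of a face functional. -/

set_option autoImplicit false

open Classical Finset

namespace Pool.Agent.MP_04a200_co.N4

namespace GPl

variable {α : Type}

theorem nonpos (e : α → R5) (V S : Finset α) (hN : Nb e V) (hS : S ⊆ V) (g : α → ℝ)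
    (hs : ∑ i ∈ S, g i • e i = 0) (h2 : (S.filter fun i => g i < 0).card ≤ 2) :
    ∀ i ∈ S, g i ≤ 0 := by
  obtain ⟨-, H, hH⟩ := hN _ ((filter_subset _ S).trans hS) h2
  have h0 : ∑ i ∈ S, g i * H (e i) = 0 := by
    have h := congrArg H hs
    rw [map_sum, map_zero] at h
    simpa using h
  have hn : ∀ i ∈ S, 0 ≤ g i * H (e i) := by
    intro i hi
    rcases lt_or_ge (g i) 0 with h | h
    · rw [(hH i (hS hi)).2.2 (mem_filter.2 ⟨hi, h⟩), mul_zero]
    · exact mul_nonneg h (hH i (hS hi)).1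
  intro i hi
  rcases mul_eq_zero.1 ((sum_eq_zero_iff_of_nonneg hn).1 h0 i hi) with h | h
  · exact h.le
  · exact (mem_filter.1 ((hH i (hS hi)).2.1 h)).2.le

theorem zero (e : α → R5) (V S : Finset α) (hN : Nb e V) (hS : S ⊆ V) (g : α → ℝ)
    (hs : ∑ i ∈ S, g i • e i = 0) (h2 : (S.filter fun i => g i < 0).card ≤ 2) :
    ∀ i ∈ S, g i = 0 := by
  have h1 := nonpos e V S hN hS g hs h2
  have h3 := nonpos e V S hN hS (fun i => -g i) (by simp [hs]) (by
    rw [filter_eq_empty_iff.2 fun i hi => not_lt.2 (neg_nonneg.2 (h1 i hi))]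
    simp)
  exact fun i hi => le_antisymm (h1 i hi) (neg_nonpos.1 (h3 i hi))

theorem indep (e : α → R5) (V S : Finset α) (hN : Nb e V) (hS : S ⊆ V) (h5 : S.card ≤ 5) :
    LinearIndependent ℝ fun i : S => e i := by
  have h : LinearIndepOn ℝ e (S : Set α) := by
    refine linearIndepOn_finset_iff.2 fun g hs => ?_
    by_cases h2 : (S.filter fun i => g i < 0).card ≤ 2
    · exact zero e V S hN hS g hs h2
    · have h3 := card_filter_add_card_filter_not (s := S) fun i => g i < 0
      have h4 : (S.filter fun i => -g i < 0).card ≤ (S.filter fun i => ¬ g i < 0).card :=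
        card_le_card fun i hi => mem_filter.2 ⟨(mem_filter.1 hi).1,
          not_lt.2 (neg_lt_zero.1 (mem_filter.1 hi).2).le⟩
      have h6 := zero e V S hN hS (fun i => -g i) (by simp [hs]) (by omega)
      exact fun i hi => neg_eq_zero.1 (h6 i hi)
  exact h

theorem step (e : α → R5) (V U : Finset α) (x : α) (F : L5) (hG : GP e V) (hU : U ⊆ V)
    (h4 : 4 ≤ U.card) (hx : x ∈ V) (hxU : x ∉ U) (hF : ∀ u ∈ U, 0 ≤ F (e u))
    (h3 : (U.filter fun u => F (e u) = 0).card ≤ 3) :
    ∃ F' : L5, (∀ u ∈ U, 0 ≤ F' (e u)) ∧ F' (e x) = F (e x) ∧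
      (∀ u ∈ U, F (e u) = 0 → F' (e u) = 0) ∧
      (U.filter fun u => F (e u) = 0).card + 1 ≤ (U.filter fun u => F' (e u) = 0).card := by
  obtain ⟨u, hu, hu0⟩ := exists_mem_notMem_of_card_lt_card
    (show (U.filter fun u => F (e u) = 0).card < U.card by omega)
  obtain ⟨K, hK⟩ := hG.1 (insert x (insert u (U.filter fun u => F (e u) = 0)))
    (insert_subset hx (insert_subset (hU hu) ((filter_subset _ U).trans hU)))
    (by
      have a := card_insert_le x (insert u (U.filter fun u => F (e u) = 0))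
      have b := card_insert_le u (U.filter fun u => F (e u) = 0)
      omega)
    fun v => if v = u then -1 else 0
  have Kx : K (e x) = 0 := by
    rw [hK x (mem_insert_self _ _), if_neg fun h : x = u => hxU (h ▸ hu)]
  have Ku : K (e u) = -1 := by
    rw [hK u (mem_insert_of_mem (mem_insert_self _ _)), if_pos rfl]
  have Kz : ∀ v ∈ U, F (e v) = 0 → K (e v) = 0 := by
    intro v hv h
    have hm : v ∈ U.filter fun u => F (e u) = 0 := mem_filter.2 ⟨hv, h⟩
    rw [hK v (mem_insert_of_mem (mem_insert_of_mem hm)), if_neg fun h : v = u => hu0 (h ▸ hm)]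
  obtain ⟨w, hw, hmin⟩ := exists_min_image (U.filter fun v => K (e v) < 0)
    (fun v => F (e v) / -K (e v)) ⟨u, mem_filter.2 ⟨hu, by rw [Ku]; exact neg_one_lt_zero⟩⟩
  obtain ⟨hwU, hwK⟩ := mem_filter.1 hw
  have hl : 0 ≤ F (e w) / -K (e w) := div_nonneg (hF w hwU) (neg_pos.2 hwK).le
  have hz : ∀ v ∈ U, F (e v) = 0 → (F + (F (e w) / -K (e w)) • K) (e v) = 0 := by
    intro v hv h
    rw [LinearMap.add_apply, LinearMap.smul_apply, h, Kz v hv h, smul_zero, add_zero]
  refine ⟨F + (F (e w) / -K (e w)) • K, fun v hv => ?_, ?_, hz, ?_⟩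
  · rw [LinearMap.add_apply, LinearMap.smul_apply, smul_eq_mul]
    rcases lt_or_ge (K (e v)) 0 with h | h
    · have h1 := (le_div_iff₀ (neg_pos.2 h)).1 (hmin v (mem_filter.2 ⟨hv, h⟩))
      rw [mul_neg] at h1
      exact neg_le_iff_add_nonneg.1 h1
    · exact add_nonneg (hF v hv) (mul_nonneg hl h)
  · rw [LinearMap.add_apply, LinearMap.smul_apply, Kx, smul_zero, add_zero]
  · have hn : w ∉ U.filter fun u => F (e u) = 0 :=
      fun h => hwK.ne (Kz w hwU (mem_filter.1 h).2)
    rw [← card_insert_of_notMem hn]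
    refine card_le_card (insert_subset (mem_filter.2 ⟨hwU, ?_⟩) fun v hv =>
      mem_filter.2 ⟨(mem_filter.1 hv).1, hz v (mem_filter.1 hv).1 (mem_filter.1 hv).2⟩)
    rw [LinearMap.add_apply, LinearMap.smul_apply, smul_eq_mul, div_neg, neg_mul,
      div_mul_cancel₀ _ hwK.ne, add_neg_cancel]

theorem iter (e : α → R5) (V U : Finset α) (x : α) (hG : GP e V) (hU : U ⊆ V)
    (h4 : 4 ≤ U.card) (hx : x ∈ V) (hxU : x ∉ U) (n : ℕ) : ∀ F : L5, (∀ u ∈ U, 0 ≤ F (e u)) →
    4 ≤ (U.filter fun u => F (e u) = 0).card + n →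
    ∃ F' : L5, (∀ u ∈ U, 0 ≤ F' (e u)) ∧ F' (e x) = F (e x) ∧
      (∀ u ∈ U, F (e u) = 0 → F' (e u) = 0) ∧ 4 ≤ (U.filter fun u => F' (e u) = 0).card := by
  induction n with
  | zero => exact fun F hF h => ⟨F, hF, rfl, fun _ _ h => h, h⟩
  | succ n ih =>
    intro F hF h
    by_cases h3 : (U.filter fun u => F (e u) = 0).card ≤ 3
    · obtain ⟨F1, a1, a2, a3, a4⟩ := step e V U x F hG hU h4 hx hxU hF h3
      obtain ⟨F2, b1, b2, b3, b4⟩ := ih F1 a1 (by omega)
      exact ⟨F2, b1, b2.trans a2, fun u hu h => b3 u hu (a3 u hu h), b4⟩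
    · exact ⟨F, hF, rfl, fun _ _ h => h, by omega⟩

end GPl

theorem gp : GPStmt := by
  intro α e V hN
  refine ⟨fun S hS h5 f => ?_, fun S hS h5 H hH => ?_⟩
  · have hi := GPl.indep e V S hN hS h5
    obtain ⟨K, hK⟩ := LinearMap.exists_extend
      ((Module.Basis.span hi).constr ℝ fun i : S => f i)
    refine ⟨K, fun v hv => ?_⟩
    have h := LinearMap.congr_fun hK (Module.Basis.span hi ⟨v, hv⟩)
    rw [Module.Basis.constr_basis, LinearMap.comp_apply, Submodule.subtype_apply,
      Module.Basis.span_apply] at h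
    exact h
  · have hi := GPl.indep e V S hN hS h5.le
    have ht := hi.span_eq_top_of_card_eq_finrank' (by simp [h5])
    exact LinearMap.ext_on_range ht fun i => hH i i.2

theorem ext : ExtStmt := by
  intro α e V U x F hG hU h4 hx hxU hF h0
  obtain ⟨F', a1, a2, a3, a4⟩ := GPl.iter e V U x hG hU h4 hx hxU 4 F hF (by omega)
  refine ⟨F', a1, a2, a3, le_antisymm ?_ a4⟩
  by_contra hc
  obtain ⟨S, hS, h5⟩ := exists_subset_card_eq
    (show 5 ≤ (U.filter fun u => F' (e u) = 0).card by omega)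
  have hz := hG.2 S (hS.trans ((filter_subset _ U).trans hU)) h5 F'
    fun v hv => (mem_filter.1 (hS hv)).2
  rw [hz] at a2
  exact h0 a2.symm

end Pool.Agent.MP_04a200_co.N4
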