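import Pool.Agent.MP_04a200_co.N4.Spec
import Mathlib.Algebra.Polynomial.Roots
import Mathlib.Analysis.Normed.Field.Lemmas
import Mathlib.Tactic.ComputeDegree

/-! Perturbation of the three coordinate functions into general position. -/

set_option autoImplicit false

open Classical Finset

namespace Pool.Agent.MP_04a200_co.N4

namespace Gen

open Filter Topology Polynomial

theorem cubic (c2 c1 c0 : ℝ) : ∀ᶠ x in 𝓝[≠] (0 : ℝ), x ^ 3 + c2 * x ^ 2 + c1 * x + c0 ≠ 0 := by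
  have hm : (X ^ 3 + C c2 * X ^ 2 + C c1 * X + C c0 : ℝ[X]).Monic := by monicity!
  have hf := finite_setOfPred_isRoot hm.ne_zero
  refine (nhdsNE_le_cofinite (0 : ℝ)) (Filter.mem_cofinite.2 (hf.subset fun x hx => ?_))
  simpa using hx

theorem step {α : Type} (e : α → R5) (V : Finset α) (hV : GP e V) (R T : Finset (α × α × α))
    (f g h : L5) {a b c : α} (ha : a ∈ V) (hb : b ∈ V) (hc : c ∈ V) (hab : a ≠ b) (hac : a ≠ c)
    (hbc : b ≠ c)
    (hR : ∀ w ∈ R, 0 < br (fun v => f (e v)) (fun v => g (e v)) (fun v => h (e v)) w.1 w.2.1 w.2.2)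
    (hT : ∀ w ∈ T, br (fun v => f (e v)) (fun v => g (e v)) (fun v => h (e v)) w.1 w.2.1 w.2.2 ≠ 0) :
    ∃ f' g' h' : L5,
      (∀ w ∈ R,
        0 < br (fun v => f' (e v)) (fun v => g' (e v)) (fun v => h' (e v)) w.1 w.2.1 w.2.2) ∧
      (∀ w ∈ T,
        br (fun v => f' (e v)) (fun v => g' (e v)) (fun v => h' (e v)) w.1 w.2.1 w.2.2 ≠ 0) ∧
      br (fun v => f' (e v)) (fun v => g' (e v)) (fun v => h' (e v)) a b c ≠ 0 := by
  have hs : ({a, b, c} : Finset α) ⊆ V := by simp [insert_subset_iff, ha, hb, hc]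
  have hk : ({a, b, c} : Finset α).card ≤ 5 := card_le_three.trans (by norm_num)
  obtain ⟨f1, hf⟩ := hV.1 _ hs hk fun v => if v = a then 1 else 0
  obtain ⟨g1, hg⟩ := hV.1 _ hs hk fun v => if v = b then 1 else 0
  obtain ⟨h1, hh⟩ := hV.1 _ hs hk fun v => if v = c then 1 else 0
  let φ : α × α × α → ℝ → ℝ := fun w x => br (fun v => (f + x • f1) (e v))
    (fun v => (g + x • g1) (e v)) (fun v => (h + x • h1) (e v)) w.1 w.2.1 w.2.2
  have hc' : ∀ w, Continuous (φ w) := fun w => by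
    simp only [φ, br, LinearMap.add_apply, LinearMap.smul_apply, smul_eq_mul]
    fun_prop
  have h0 : ∀ w, φ w 0 =
      br (fun v => f (e v)) (fun v => g (e v)) (fun v => h (e v)) w.1 w.2.1 w.2.2 := fun w => by
    simp [φ]
  have e1 : ∀ᶠ x in 𝓝 (0 : ℝ), ∀ w ∈ R, 0 < φ w x := (eventually_all_finset R).2 fun w hw =>
    (hc' w).continuousAt.eventually (lt_mem_nhds (by rw [h0]; exact hR w hw))
  have e2 : ∀ᶠ x in 𝓝 (0 : ℝ), ∀ w ∈ T, φ w x ≠ 0 := (eventually_all_finset T).2 fun w hw =>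
    (hc' w).continuousAt.eventually_ne (by rw [h0]; exact hT w hw)
  have e3 := cubic (f (e a) + g (e b) + h (e c))
    (f (e a) * g (e b) + f (e a) * h (e c) + g (e b) * h (e c) - g (e c) * h (e b) -
      f (e b) * g (e a) - f (e c) * h (e a)) (φ (a, b, c) 0)
  obtain ⟨x, x1, x2, x3⟩ :=
    ((e1.filter_mono nhdsWithin_le_nhds).and ((e2.filter_mono nhdsWithin_le_nhds).and e3)).exists
  refine ⟨f + x • f1, g + x • g1, h + x • h1, x1, x2, fun hx => x3 ?_⟩
  refine Eq.trans ?_ hx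
  simp only [φ, br, LinearMap.add_apply, LinearMap.smul_apply, smul_eq_mul, hf a (by simp),
    hf b (by simp), hf c (by simp), hg a (by simp), hg b (by simp), hg c (by simp), hh a (by simp),
    hh b (by simp), hh c (by simp), hab, hac, hbc, hab.symm, hac.symm, hbc.symm, if_true, if_false]
  ring

end Gen

theorem gen : GenStmt := by
  intro α e V R f g h hV hR
  have key : ∀ T : Finset (α × α × α),
      (∀ w ∈ T, w.1 ∈ V ∧ w.2.1 ∈ V ∧ w.2.2 ∈ V ∧ w.1 ≠ w.2.1 ∧ w.1 ≠ w.2.2 ∧ w.2.1 ≠ w.2.2) →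
      ∃ f' g' h' : L5, (∀ w ∈ R,
        0 < br (fun v => f' (e v)) (fun v => g' (e v)) (fun v => h' (e v)) w.1 w.2.1 w.2.2) ∧
      ∀ w ∈ T,
        br (fun v => f' (e v)) (fun v => g' (e v)) (fun v => h' (e v)) w.1 w.2.1 w.2.2 ≠ 0 := by
    intro T
    induction T using Finset.induction_on with
    | empty => exact fun _ => ⟨f, g, h, hR, by simp⟩
    | insert w T _ ih =>
      intro hT
      obtain ⟨f1, g1, h1, a1, a2⟩ := ih fun u hu => hT u (mem_insert_of_mem hu)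
      obtain ⟨b1, b2, b3, b4, b5, b6⟩ := hT w (mem_insert_self _ _)
      obtain ⟨f2, g2, h2, c1, c2, c3⟩ := Gen.step e V hV R T f1 g1 h1 b1 b2 b3 b4 b5 b6 a1 a2
      exact ⟨f2, g2, h2, c1, forall_mem_insert _ _ _ |>.2 ⟨c3, c2⟩⟩
  obtain ⟨f', g', h', a1, a2⟩ := key ((V ×ˢ V ×ˢ V).filter fun w =>
    w.1 ≠ w.2.1 ∧ w.1 ≠ w.2.2 ∧ w.2.1 ≠ w.2.2) fun w hw => by
      simp only [mem_filter, mem_product] at hw
      tauto
  exact ⟨f', g', h', a1, fun a ha b hb c hc h1 h2 h3 =>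
    a2 (a, b, c) (by simp [ha, hb, hc, h1, h2, h3])⟩

end Pool.Agent.MP_04a200_co.N4
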