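import Pool.Agent.MP_04a200_co.N4.Spec
import Mathlib.Data.Finset.Max
import Mathlib.Tactic.Linarith
import Mathlib.Tactic.Ring

/-! Row GREEDY: a window of pairwise near times with few partners. -/

set_option autoImplicit false

open Classical Finset

namespace Pool.Agent.MP_04a200_co.N4

namespace Greedy

variable {α ι : Type}

/-- the first window of `S` -/
noncomputable def win (τ : ι → ℕ) (near : ℕ → ℕ → Prop) (S : Finset ι) : Finset ι :=
  S.filter fun t => ∀ u ∈ S, τ u ≤ τ t → near (τ u) (τ t)

theorem win_ne {τ : ι → ℕ} {near : ℕ → ℕ → Prop} (hr : ∀ a, near a a) {S : Finset ι}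
    (hS : S.Nonempty) : (win τ near S).Nonempty := by
  obtain ⟨t, ht, hm⟩ := exists_min_image S τ hS
  refine ⟨t, mem_filter.2 ⟨ht, fun u hu h => ?_⟩⟩
  rw [le_antisymm h (hm u hu)]
  exact hr _

theorem key {τ : ι → ℕ} {near : ℕ → ℕ → Prop}
    (hm : ∀ a a' b' b, a ≤ a' → a' ≤ b' → b' ≤ b → near a b → near a' b') {S : Finset ι}
    (x : ι → α) (hx : ∀ t ∈ S, ∀ t' ∈ S, τ t ≤ τ t' → x t = x t' → near (τ t) (τ t')) :
    ((win τ near S).image x).card +
      (((S \ win τ near S) \ win τ near (S \ win τ near S)).image x).card ≤ (S.image x).card := by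
  rw [← card_union_of_disjoint]
  · refine card_le_card (union_subset (image_subset_image (filter_subset _ _))
      (image_subset_image (sdiff_subset.trans sdiff_subset)))
  · rw [disjoint_left]
    intro a ha ha'
    obtain ⟨t, ht, rfl⟩ := mem_image.1 ha
    obtain ⟨t', ht', e⟩ := mem_image.1 ha'
    obtain ⟨h1, h2⟩ := mem_sdiff.1 ht'
    refine h2 (mem_filter.2 ⟨h1, fun u hu huv => ?_⟩)
    obtain ⟨hu1, hu2⟩ := mem_sdiff.1 hu
    obtain ⟨ht1, ht2⟩ := mem_filter.1 ht
    have h3 : τ t ≤ τ u := by
      by_contra hc
      have hc' : τ u ≤ τ t := (not_le.1 hc).le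
      exact hu2 (mem_filter.2 ⟨hu1, fun v hv hvu =>
        hm _ _ _ _ le_rfl hvu hc' (ht2 v hv (hvu.trans hc'))⟩)
    exact hm _ _ _ _ h3 huv le_rfl (hx t ht1 t' (mem_sdiff.1 h1).1 (h3.trans huv) e.symm)

end Greedy

open Greedy

theorem greedy : GreedyStmt := by
  intro α ι Ψ x z τ near n hne hr hm hxz hx hz
  by_contra hc
  have fail : ∀ S ⊆ Ψ, S.Nonempty → 4 * n * (win τ near S).card <
      Ψ.card * (((win τ near S).image x).card + ((win τ near S).image z).card) := by
    intro S hS hS'
    by_contra h
    refine hc ⟨win τ near S, (filter_subset _ _).trans hS, win_ne hr hS', ?_, not_lt.1 h⟩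
    intro t ht t' ht' htt
    exact (mem_filter.1 ht').2 t (mem_filter.1 ht).1 htt
  have main : ∀ (N : ℕ) (S : Finset ι), S.card = N → S ⊆ Ψ → S.Nonempty → 4 * n * S.card <
      Ψ.card * ((S.image x).card + ((S \ win τ near S).image x).card + (S.image z).card +
        ((S \ win τ near S).image z).card) := by
    intro N
    induction N using Nat.strong_induction_on with
    | _ N ih =>
      intro S hN hS hS'
      have f1 := fail S hS hS'
      have k1 := key hm (S := S) x fun t ht t' ht' h e => hxz t (hS ht) t' (hS ht') h (Or.inl e)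
      have k2 := key hm (S := S) z fun t ht t' ht' h e => hxz t (hS ht) t' (hS ht') h (Or.inr e)
      have c1 : (S \ win τ near S).card + (win τ near S).card = S.card :=
        card_sdiff_add_card_eq_card (filter_subset _ S)
      have c2 := (win_ne (τ := τ) hr hS').card_pos
      have r : 4 * n * (S \ win τ near S).card ≤ Ψ.card * (((S \ win τ near S).image x).card +
          (((S \ win τ near S) \ win τ near (S \ win τ near S)).image x).card +
          ((S \ win τ near S).image z).card +
          (((S \ win τ near S) \ win τ near (S \ win τ near S)).image z).card) := by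
        rcases (S \ win τ near S).eq_empty_or_nonempty with h | h
        · rw [h]
          simp
        · exact (ih _ (by omega) _ rfl (sdiff_subset.trans hS) h).le
      have c3 : 4 * n * S.card = 4 * n * (S \ win τ near S).card + 4 * n * (win τ near S).card := by
        rw [← mul_add, c1]
      have m1 := Nat.mul_le_mul_left Ψ.card k1
      have m2 := Nat.mul_le_mul_left Ψ.card k2
      simp only [mul_add] at *
      omega
  have h := main _ Ψ rfl subset_rfl hne
  have a1 : ((Ψ \ win τ near Ψ).image x).card ≤ n :=
    (card_le_card (image_subset_image sdiff_subset)).trans hx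
  have a2 : ((Ψ \ win τ near Ψ).image z).card ≤ n :=
    (card_le_card (image_subset_image sdiff_subset)).trans hz
  have h' : Ψ.card * ((Ψ.image x).card + ((Ψ \ win τ near Ψ).image x).card + (Ψ.image z).card +
      ((Ψ \ win τ near Ψ).image z).card) ≤ Ψ.card * (4 * n) :=
    Nat.mul_le_mul_left _ (by omega)
  rw [mul_comm Ψ.card (4 * n)] at h'
  omega

end Pool.Agent.MP_04a200_co.N4
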