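import Pool.Agent.MP_04a200_co.N4.Spec

/-! Triangle families with bounded pair multiplicity are small. -/

set_option autoImplicit false

open Classical Finset

namespace Pool.Agent.MP_04a200_co.N4

namespace LL

theorem mult {α : Type} {D : ℕ} {Λ Ω : Finset (Finset α)} (hP : PairLe D Λ) (h : Ω ⊆ Λ)
    (u v : Finset α → α) (huv : ∀ t ∈ Ω, u t ∈ t ∧ v t ∈ t ∧ u t ≠ v t) : Mult D Ω u v := by
  intro a b
  by_cases e : a = b
  · rw [filter_false_of_mem, card_empty]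
    · exact Nat.zero_le _
    · rintro t ht ⟨h1, h2⟩
      exact (huv t ht).2.2 (h1.trans (e.trans h2.symm))
  · refine le_trans (card_le_card fun t ht => ?_) (hP a b e)
    rw [mem_filter] at ht ⊢
    obtain ⟨h1, rfl, rfl⟩ := ht
    exact ⟨h h1, (huv t h1).1, (huv t h1).2.1⟩

end LL

theorem ll (gp : GPStmt) (sep : SepStmt) (plan : PlanStmt) (gen : GenStmt) (time : TimeStmt)
    (rank : RankStmt) (core : CoreStmt) (comb : CombStmt) : LStmt := by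
  intro D K
  obtain ⟨K1, n1, hsep⟩ := sep D K
  obtain ⟨K2, n2, hplan⟩ := plan D K1
  obtain ⟨n3, hcomb⟩ := comb D (K2 * 4)
  refine ⟨n1 + n2 + n3 + 4, fun α e V Λ hNb hn hΛ hP => ?_⟩
  by_contra hc
  have hGP := gp α e V hNb
  obtain ⟨Ω, hΩ, x, y, z, f, g, h, hcard, hs⟩ := hsep α e V Λ hNb hGP (by omega)
    (hΛ.trans (filter_subset _ _)) hP (not_le.1 hc).le
  have hF : ∀ t ∈ Ω, Face e V t := fun t ht => (mem_filter.1 (hΛ (hΩ ht))).2
  have hm : ∀ t ∈ Ω, x t ∈ t ∧ y t ∈ t ∧ z t ∈ t := by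
    intro t ht
    have h1 := (hs t ht).1
    generalize x t = a, y t = b, z t = c at h1
    subst h1
    simp
  have hV : ∀ t ∈ Ω, x t ∈ V ∧ y t ∈ V ∧ z t ∈ V := fun t ht =>
    ⟨(hF t ht).1 (hm t ht).1, (hF t ht).1 (hm t ht).2.1, (hF t ht).1 (hm t ht).2.2⟩
  have hxy : ∀ t ∈ Ω, x t ∈ t ∧ y t ∈ t ∧ x t ≠ y t := fun t ht =>
    ⟨(hm t ht).1, (hm t ht).2.1, fun h1 => by
      obtain ⟨-, ⟨a, b, -⟩, -⟩ := hs t ht
      rw [h1] at a
      exact lt_asymm a b⟩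
  have hyz : ∀ t ∈ Ω, y t ∈ t ∧ z t ∈ t ∧ y t ≠ z t := fun t ht =>
    ⟨(hm t ht).2.1, (hm t ht).2.2, fun h1 => by
      obtain ⟨-, -, ⟨-, a, b⟩, -⟩ := hs t ht
      rw [h1] at a
      exact lt_asymm a b⟩
  have hzx : ∀ t ∈ Ω, z t ∈ t ∧ x t ∈ t ∧ z t ≠ x t := fun t ht =>
    ⟨(hm t ht).2.2, (hm t ht).1, fun h1 => by
      obtain ⟨-, -, -, b, -, a⟩ := hs t ht
      rw [h1] at a
      exact lt_asymm a b⟩
  obtain ⟨-, k, hk⟩ := hNb ∅ (empty_subset _) (by simp)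
  obtain ⟨Ω', hΩ', ψ, hcard', hpos⟩ := hplan α _ e V Ω x y z f g h k (by omega)
    (LL.mult hP hΩ x y hxy) hcard
    (fun v hv => lt_of_le_of_ne (hk v hv).1 fun h1 => notMem_empty v ((hk v hv).2.1 h1.symm))
    fun t ht => ⟨hV t ht, (hs t ht).2⟩
  obtain ⟨f', g', h', hpos', hgen⟩ := gen α e V
    ((Ω' ×ˢ Ω' ×ˢ Ω').image fun w => (x w.1, y w.2.1, z w.2.2)) f g ψ hGP (by
      intro w hw
      obtain ⟨⟨a, b, c⟩, hv, rfl⟩ := mem_image.1 hw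
      simp only [mem_product] at hv
      exact hpos a hv.1 b hv.2.1 c hv.2.2)
  obtain ⟨Ω'', hΩ'', hc4, H, s, G, G0, G1, hK⟩ := time α _ e V Ω' x y z f' g' h' hNb
    (fun t ht => (hs t (hΩ' ht)).1 ▸ hF t (hΩ' ht)) (by omega) hGP
    (fun a ha b hb c hc => hpos' (x a, y b, z c) (mem_image.2 ⟨(a, b, c),
      mem_product.2 ⟨ha, mem_product.2 ⟨hb, hc⟩⟩, rfl⟩)) hgen
  obtain ⟨rk, r1, -, r3⟩ := rank _ Ω'' s
  obtain ⟨c1, c2, c3⟩ := core α _ V Ω'' x y z _ _ _ H s G G0 G1 rk hK fun t ht t' ht' h1 =>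
    not_lt.1 fun h2 => absurd (r3 t' ht' t ht h2) (not_lt.2 h1)
  have hsub : Ω'' ⊆ Ω := hΩ''.trans hΩ'
  refine hcomb α _ Ω'' x y z rk V.card (by omega)
    (card_le_card (image_subset_iff.2 fun t ht => (hV t (hsub ht)).1))
    (card_le_card (image_subset_iff.2 fun t ht => (hV t (hsub ht)).2.1))
    (card_le_card (image_subset_iff.2 fun t ht => (hV t (hsub ht)).2.2))
    (LL.mult hP (hsub.trans hΩ) x y fun t ht => hxy t (hsub ht))
    (LL.mult hP (hsub.trans hΩ) y z fun t ht => hyz t (hsub ht))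
    (LL.mult hP (hsub.trans hΩ) z x fun t ht => hzx t (hsub ht)) r1 c1 c2 c3 ?_
  rw [Nat.mul_assoc]
  exact hcard'.trans (Nat.mul_le_mul_left _ hc4)

end Pool.Agent.MP_04a200_co.N4
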