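import Pool.Agent.MP_04a200_co.N4.Spec
import Mathlib.Order.Lattice.Nat
import Mathlib.Order.Interval.Finset.Nat
import Mathlib.Data.Finset.Max

/-! Row LEV: levels from the running minimum. -/

set_option autoImplicit false

open Classical Finset

namespace Pool.Agent.MP_04a200_co.N4

namespace Lev

theorem close {w a c : ℕ} (hw : 0 < w) (h : a / w = c / w) : a < c + w := by
  have h1 := Nat.div_add_mod a w
  have h2 := Nat.div_add_mod c w
  have h3 := Nat.mod_lt a hw
  rw [h] at h1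
  omega

end Lev

theorem lev : LevStmt := by
  intro ι W η τ b j w hw _ hj hb hup
  obtain ⟨f, hf1, hf2⟩ : ∃ f : ι → ℕ, (∀ t ∈ W, ∃ u ∈ W, τ u ≤ τ t ∧ η u = f t) ∧
      ∀ t, ∀ u ∈ W, τ u ≤ τ t → f t ≤ η u := by
    refine ⟨fun t => sInf {m | ∃ u ∈ W, τ u ≤ τ t ∧ η u = m}, fun t ht => ?_, fun t u hu h => ?_⟩
    · exact Nat.sInf_mem (s := {m | ∃ u ∈ W, τ u ≤ τ t ∧ η u = m}) ⟨η t, t, ht, le_rfl, rfl⟩
    · exact Nat.sInf_le ⟨u, hu, h, rfl⟩
  have hband : ∀ t ∈ W, b * j ≤ η t ∧ η t < b * j + b := by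
    intro t ht
    have h1 := Nat.div_add_mod (η t) b
    have h2 := Nat.mod_lt (η t) hb
    rw [hj t ht] at h1
    omega
  have hfb : ∀ t ∈ W, b * j ≤ f t ∧ f t < b * j + b := by
    intro t ht
    obtain ⟨u, hu, -, h⟩ := hf1 t ht
    exact h ▸ hband u hu
  have hmono : ∀ t ∈ W, ∀ t', τ t ≤ τ t' → f t' ≤ f t := by
    intro t ht t' h
    obtain ⟨u, hu, h1, h2⟩ := hf1 t ht
    exact h2 ▸ hf2 t' u hu (h1.trans h)
  refine ⟨fun t => (b * j + b - f t) / w, ?_, ?_, ?_⟩
  · intro t ht t' _ h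
    have := hmono t ht t' h
    exact Nat.div_le_div_right (by omega)
  · intro t ht
    have := hfb t ht
    exact Nat.lt_succ_of_le (Nat.div_le_div_right (by omega))
  · intro i
    rcases (W.filter fun t => (b * j + b - f t) / w = i).eq_empty_or_nonempty with he | hn
    · rw [he]; simp
    obtain ⟨t0, ht0, hmin⟩ := Finset.exists_min_image _ τ hn
    obtain ⟨ht0W, ht0l⟩ := Finset.mem_filter.1 ht0
    obtain ⟨u0, hu0, hu1, hu2⟩ := hf1 t0 ht0W
    have hsub : (W.filter fun t => (b * j + b - f t) / w = i).image η ⊆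
        (W.filter fun u => τ u0 ≤ τ u ∧ η u0 < η u).image η ∪ Finset.Ico (f t0 + 1 - w) (f t0 + 1) := by
      intro m hm
      obtain ⟨t, ht, rfl⟩ := Finset.mem_image.1 hm
      obtain ⟨htW, htl⟩ := Finset.mem_filter.1 ht
      have h0 := hmin t ht
      by_cases hlt : η u0 < η t
      · exact Finset.mem_union_left _
          (Finset.mem_image_of_mem _ (Finset.mem_filter.2 ⟨htW, hu1.trans h0, hlt⟩))
      · refine Finset.mem_union_right _ (Finset.mem_Ico.2 ⟨?_, by omega⟩)
        have h1 := Lev.close hw (htl.trans ht0l.symm)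
        have h2 := hf2 t t htW le_rfl
        have h3 := hfb t htW
        have h4 := hfb t0 ht0W
        omega
    have h1 := (Finset.card_le_card hsub).trans (Finset.card_union_le _ _)
    have h2 := hup u0 hu0
    rw [Nat.card_Ico] at h1
    exact h1.trans (by omega)

end Pool.Agent.MP_04a200_co.N4
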