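import Pool.Agent.MP_04a200_co.N4.Spec
import Mathlib.Tactic.Linarith
import Mathlib.Tactic.Positivity
import Mathlib.Tactic.FieldSimp
import Mathlib.Tactic.Ring
import Mathlib.Data.Finset.Max

/-! The planar model: a class of roots with a common orientation. -/

set_option autoImplicit false

open Classical Finset

namespace Pool.Agent.MP_04a200_co.N4

namespace Plan

/-- the largest fibre -/
theorem fib {ι γ : Type} [DecidableEq γ] (s : Finset ι) (S : Finset γ) (F : ι → γ)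
    (hS : S.Nonempty)
    (hF : ∀ t ∈ s, F t ∈ S) : ∃ j ∈ S, s.card ≤ S.card * (s.filter fun t => F t = j).card := by
  obtain ⟨j, hj, hm⟩ := exists_max_image S (fun j => (s.filter fun t => F t = j).card) hS
  refine ⟨j, hj, ?_⟩
  rw [mul_comm]
  exact card_le_mul_card_image_of_maps_to hF _ hm

/-- the groups are small -/
theorem grp {α : Type} (V : Finset α) (rk : α → ℕ) (hi : ∀ a ∈ V, ∀ b ∈ V, rk a = rk b → a = b)
    (h : ℕ) (hh : 0 < h) :
    ((V ×ˢ V).filter fun ab => rk ab.1 / h = rk ab.2 / h).card ≤ h * V.card := by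
  refine card_le_mul_card_image_of_maps_to (f := Prod.fst) (fun ab hab => ?_) _ fun a _ => ?_
  · exact (mem_product.1 (mem_filter.1 hab).1).1
  · refine (card_le_card_of_injOn (t := range h) (fun ab => rk ab.2 % h) ?_ ?_).trans_eq
      (card_range h)
    · intro ab _
      exact mem_coe.2 (mem_range.2 (Nat.mod_lt _ hh))
    · intro ab hab cd hcd e
      simp only [coe_filter, mem_filter, mem_product, Set.mem_ofPred_eq] at hab hcd e
      obtain ⟨⟨⟨-, h1⟩, h2⟩, h3⟩ := hab
      obtain ⟨⟨⟨-, h4⟩, h5⟩, h6⟩ := hcd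
      refine Prod.ext (h3.trans h6.symm) (hi _ h1 _ h4 ?_)
      rw [← Nat.div_add_mod (rk ab.2) h, ← Nat.div_add_mod (rk cd.2) h, e, ← h2, ← h5, h3, h6]

theorem sgn {α : Type} (p q r : α → ℝ) (a b c : α) (pa : 0 < p a) (pb : p b < 0) (pc : p c < 0)
    (qa : q a < 0) (qb : 0 < q b) (qc : q c < 0) (ra : 0 < r a) (rb : 0 < r b)
    (h : 0 ≤ r c * (p a * q b - p b * q a)) : 0 < br p q r a b c := by
  have h1 : 0 < p b * q c - p c * q b := by
    nlinarith [mul_pos_of_neg_of_neg pb qc, mul_neg_of_neg_of_pos pc qb]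
  have h2 : 0 < p c * q a - p a * q c := by
    nlinarith [mul_pos_of_neg_of_neg pc qa, mul_neg_of_pos_of_neg pa qc]
  have h3 := mul_pos ra h1
  have h4 := mul_pos rb h2
  unfold br
  linarith

theorem key {pa pb qa qb : ℝ} (qa0 : qa < 0) (qb0 : 0 < qb) :
    pa * qb - pb * qa = -qa * qb * (-pa / qa - -pb / qb) := by
  have := qa0.ne
  have := qb0.ne'
  field_simp
  ring

end Plan

theorem plan (rank : RankStmt) : PlanStmt := by
  intro D K
  refine ⟨2 * K * ((4 * K * D + 1) * (4 * K * D + 1)), 4 * K * D + 1, ?_⟩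
  intro α ι e V Ω x y z f g h k hn hM hK hk hΩ
  obtain ⟨rk, r1, r2, r3⟩ := rank α V fun v => -f (e v) / g (e v)
  set K1 := 4 * K * D + 1 with hK1
  set n := V.card with hnd
  set s := n / K1 + 1 with hs
  have hs0 : 0 < s := Nat.succ_pos _
  have hK10 : 0 < K1 := Nat.succ_pos _
  have hlt : ∀ v ∈ V, rk v / s < K1 := by
    intro v hv
    rw [Nat.div_lt_iff_lt_mul hs0]
    exact (r2 v hv).trans (Nat.lt_mul_div_succ n hK10)
  have hbad : (Ω.filter fun t => rk (x t) / s = rk (y t) / s).card ≤ D * (s * n) := by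
    refine le_trans ?_ (Nat.mul_le_mul_left D (Plan.grp V rk r1 s hs0))
    refine card_le_mul_card_image_of_maps_to (f := fun t => (x t, y t)) (fun t ht => ?_) _
      fun ab _ => ?_
    · obtain ⟨h1, h2⟩ := mem_filter.1 ht
      exact mem_filter.2 ⟨mem_product.2 ⟨(hΩ t h1).1.1, (hΩ t h1).1.2.1⟩, h2⟩
    · refine le_trans (card_le_card fun t ht => ?_) (hM ab.1 ab.2)
      obtain ⟨h1, h2⟩ := mem_filter.1 ht
      exact mem_filter.2 ⟨(mem_filter.1 h1).1, congrArg Prod.fst h2, congrArg Prod.snd h2⟩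
  have hsplit := card_filter_add_card_filter_not (s := Ω) fun t => rk (x t) / s = rk (y t) / s
  set good := Ω.filter fun t => ¬ rk (x t) / s = rk (y t) / s with hgood
  have h1 : 2 * K * D * s ≤ n := by
    have h2 : K1 * (n / K1) ≤ n := Nat.mul_div_le n K1
    rw [hs]
    generalize n / K1 = m at h2 ⊢
    rw [hK1] at h2 hn
    nlinarith
  have hg : n * n ≤ 2 * K * good.card := by
    have h2 := Nat.mul_le_mul_left (2 * K) hbad
    have h3 := Nat.mul_le_mul_right n h1
    rw [← hsplit] at hK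
    nlinarith
  obtain ⟨j, -, hj⟩ := Plan.fib good (range K1 ×ˢ range K1) (fun t => (rk (x t) / s, rk (y t) / s))
    ⟨(0, 0), mem_product.2 ⟨mem_range.2 hK10, mem_range.2 hK10⟩⟩ fun t ht =>
      mem_product.2 ⟨mem_range.2 (hlt _ (hΩ t (mem_filter.1 ht).1).1.1),
        mem_range.2 (hlt _ (hΩ t (mem_filter.1 ht).1).1.2.1)⟩
  rw [card_product, card_range] at hj
  refine ⟨good.filter fun t => (rk (x t) / s, rk (y t) / s) = j,
    (filter_subset _ _).trans (filter_subset _ _), if j.1 < j.2 then -h else k, ?_, ?_⟩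
  · rw [mul_assoc (2 * K)]
    exact hg.trans (Nat.mul_le_mul_left _ hj)
  · intro t ht t' ht' t'' ht''
    obtain ⟨a1, a2⟩ := mem_filter.1 ht
    obtain ⟨b1, b2⟩ := mem_filter.1 ht'
    obtain ⟨a3, a4⟩ := mem_filter.1 a1
    obtain ⟨⟨xa, -, -⟩, ⟨fa, -, -⟩, ⟨ga, -, -⟩, ha, -, -⟩ := hΩ t a3
    obtain ⟨⟨-, yb, -⟩, ⟨-, fb, -⟩, ⟨-, gb, -⟩, -, hb, -⟩ := hΩ t' (mem_filter.1 b1).1
    obtain ⟨⟨-, -, zc⟩, ⟨-, -, fc⟩, ⟨-, -, gc⟩, -, -, hc⟩ :=
      hΩ t'' (mem_filter.1 (mem_filter.1 ht'').1).1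
    have e1 : rk (x t) / s = j.1 := congrArg Prod.fst a2
    have e2 : rk (y t) / s = j.2 := congrArg Prod.snd a2
    have e3 : rk (y t') / s = j.2 := congrArg Prod.snd b2
    have hp : 0 < -g (e (x t)) * g (e (y t')) := mul_pos (neg_pos.2 ga) gb
    have ek := Plan.key (pa := f (e (x t))) (pb := f (e (y t'))) ga gb
    by_cases hj' : j.1 < j.2
    · rw [if_pos hj']
      have h2 : rk (x t) < rk (y t') := Nat.lt_of_div_lt_div (by rw [e1, e3]; exact hj')
      have h3 : -f (e (x t)) / g (e (x t)) ≤ -f (e (y t')) / g (e (y t')) :=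
        not_lt.1 fun h => absurd (r3 _ yb _ xa h) (by omega)
      refine Plan.sgn _ _ _ _ _ _ fa fb fc ga gb gc (by simpa using ha) (by simpa using hb) ?_
      rw [ek]
      exact mul_nonneg_of_nonpos_of_nonpos (by simpa using hc.le)
        (mul_nonpos_of_nonneg_of_nonpos hp.le (by linarith))
    · rw [if_neg hj']
      have h2 : rk (y t') < rk (x t) := Nat.lt_of_div_lt_div (by rw [e1, e3]; omega)
      have h3 : -f (e (y t')) / g (e (y t')) ≤ -f (e (x t)) / g (e (x t)) :=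
        not_lt.1 fun h => absurd (r3 _ xa _ yb h) (by omega)
      refine Plan.sgn _ _ _ _ _ _ fa fb fc ga gb gc (hk _ xa) (hk _ yb) ?_
      rw [ek]
      exact mul_nonneg (hk _ zc).le (mul_nonneg hp.le (by linarith))

end Pool.Agent.MP_04a200_co.N4
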