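import Pool.Agent.MP_04a200_co.N4.Spec
import Mathlib.Tactic.Linarith
import Mathlib.Tactic.FieldSimp
import Mathlib.Tactic.Positivity

/-! Separation of many light triangles by three fixed functionals. -/

set_option autoImplicit false

open Classical Finset

namespace Pool.Agent.MP_04a200_co.N4

namespace Sep

variable {α : Type}

/-- finitely many functionals realise all sign patterns -/
theorem exists_funs (e : α → R5) (V S : Finset α) (gp : GP e V) (hS : S ⊆ V) :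
    ∃ P : Finset L5, P.Nonempty ∧ P.card ≤ 2 * 2 ^ S.card ∧ ∀ a ∈ V, a ∉ S → ∀ b c : α,
      (∃ T ⊆ S, T.card = 4 ∧ ∃ F : L5, (∀ v ∈ T, F (e v) = 0) ∧ F (e a) < 0 ∧ 0 < F (e b) ∧
        0 < F (e c)) → ∃ f ∈ P, 0 < f (e a) ∧ f (e b) < 0 ∧ f (e c) < 0 := by
  have : ∀ T : Finset α, ∃ Φ : L5, (∃ F : L5, F ≠ 0 ∧ ∀ v ∈ T, F (e v) = 0) →
      Φ ≠ 0 ∧ ∀ v ∈ T, Φ (e v) = 0 := fun T => by
    by_cases h : ∃ F : L5, F ≠ 0 ∧ ∀ v ∈ T, F (e v) = 0
    · obtain ⟨F, hF⟩ := h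
      exact ⟨F, fun _ => hF⟩
    · exact ⟨0, fun h' => absurd h' h⟩
  choose Φ hΦ using this
  refine ⟨S.powerset.image Φ ∪ S.powerset.image fun T => -Φ T,
    ⟨Φ ∅, mem_union_left _ (mem_image_of_mem _ (empty_mem_powerset S))⟩, ?_, ?_⟩
  · have h1 := card_image_le (s := S.powerset) (f := Φ)
    have h2 := card_image_le (s := S.powerset) (f := fun T => -Φ T)
    have h3 := card_union_le (S.powerset.image Φ) (S.powerset.image fun T => -Φ T)
    rw [card_powerset] at h1 h2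
    omega
  · rintro a ha haS b c ⟨T, hT, h4, F, hF, h1, h2, h3⟩
    obtain ⟨p0, pz⟩ := hΦ T ⟨F, by rintro rfl; simp at h1, hF⟩
    have haT : a ∉ T := fun h => haS (hT h)
    have g5 := gp.2 (insert a T) (insert_subset ha (hT.trans hS))
      (by rw [card_insert_of_notMem haT, h4])
    have pa : Φ T (e a) ≠ 0 := fun h => p0 (g5 _ fun v hv => by
      rcases mem_insert.1 hv with rfl | hv
      exacts [h, pz v hv])
    have key := g5 (F (e a) • Φ T - Φ T (e a) • F) fun v hv => by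
      rcases mem_insert.1 hv with rfl | hv
      · simp [mul_comm]
      · simp [pz v hv, hF v hv]
    have k : ∀ w, F (e a) * Φ T w = Φ T (e a) * F w := fun w => by
      simpa [sub_eq_zero] using LinearMap.congr_fun key w
    rcases lt_or_gt_of_ne pa with h | h
    · refine ⟨-Φ T, mem_union_right _ (mem_image_of_mem _ (mem_powerset.2 hT)), by simpa using h,
        ?_, ?_⟩
      · have := k (e b)
        simp only [LinearMap.neg_apply]
        nlinarith [mul_neg_of_neg_of_pos h h2]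
      · have := k (e c)
        simp only [LinearMap.neg_apply]
        nlinarith [mul_neg_of_neg_of_pos h h3]
    · refine ⟨Φ T, mem_union_left _ (mem_image_of_mem _ (mem_powerset.2 hT)), h, ?_, ?_⟩
      · nlinarith [k (e b), mul_pos h h2]
      · nlinarith [k (e c), mul_pos h h3]

theorem pigeon {ι β : Type} (G : Finset ι) (P : Finset β) (hP : P.Nonempty) (R : ι → β → Prop)
    (h : ∀ t ∈ G, ∃ p ∈ P, R t p) :
    ∃ p, ∃ Ω ⊆ G, G.card ≤ P.card * Ω.card ∧ ∀ t ∈ Ω, R t p := by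
  obtain ⟨p, -, hp⟩ := exists_max_image P (fun p => (G.filter fun t => R t p).card) hP
  refine ⟨p, G.filter fun t => R t p, filter_subset _ _,
    le_trans (card_le_card (t := P.biUnion fun p => G.filter fun t => R t p) ?_)
      (card_biUnion_le_card_mul _ _ _ hp), fun t ht => (mem_filter.1 ht).2⟩
  intro t ht
  obtain ⟨q, hq, hR⟩ := h t ht
  exact mem_biUnion.2 ⟨q, hq, mem_filter.2 ⟨ht, hR⟩⟩

theorem pairs_le {D : ℕ} {Λ : Finset (Finset α)} (hD : PairLe D Λ) (B : Finset (α × α))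
    (hB : ∀ p ∈ B, p.1 ≠ p.2) :
    (Λ.filter fun t => ∃ p ∈ B, p.1 ∈ t ∧ p.2 ∈ t).card ≤ B.card * D := by
  refine le_trans (card_le_card (t := B.biUnion fun p => Λ.filter fun t => p.1 ∈ t ∧ p.2 ∈ t) ?_)
    (card_biUnion_le_card_mul _ _ _ fun p hp => hD _ _ (hB p hp))
  intro t ht
  obtain ⟨ht, p, hp, h⟩ := mem_filter.1 ht
  exact mem_biUnion.2 ⟨p, hp, mem_filter.2 ⟨ht, h⟩⟩

end Sep

theorem sep (s1 : Sep1Stmt) (s2 : Sep2Stmt) : SepStmt := by
  intro D K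
  obtain ⟨r, hr⟩ : ∃ r, r = 192 * K * D + 4 := ⟨_, rfl⟩
  refine ⟨2 * K * (2 * 2 ^ r) ^ 3, 4 * K * r * D + r + 1, ?_⟩
  intro α e V Λ nb gp hn hΛ hD hK
  obtain ⟨S, hS, cS, hbad⟩ := s2 α e V r gp (by omega) (by omega)
  generalize hBd : ((V ×ˢ V).filter fun ab => ab.1 ≠ ab.2 ∧ ab.1 ∉ S ∧
    ab.2 ∉ S ∧ r ≤ 2 * (S.filter fun s =>
      Face e (insert ab.1 (insert ab.2 S)) {ab.1, ab.2, s}).card) = Bd at hbad
  obtain ⟨P, hP, cP, hsign⟩ := Sep.exists_funs e V S gp hS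
  rw [cS] at cP
  obtain ⟨B, hB⟩ : ∃ B : Finset (α × α), B = ((S ×ˢ V).filter fun p => p.1 ≠ p.2) ∪ Bd := ⟨_, rfl⟩
  have cB : B.card ≤ r * V.card + Bd.card := by
    rw [hB]
    refine (card_union_le _ _).trans (Nat.add_le_add_right ((card_filter_le _ _).trans ?_) _)
    rw [card_product, cS]
  have nB : ∀ p ∈ B, p.1 ≠ p.2 := fun p hp => by
    rw [hB] at hp
    rcases mem_union.1 hp with h | h
    · exact (mem_filter.1 h).2
    · rw [← hBd] at h
      exact (mem_filter.1 h).2.1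
  have c1 := Sep.pairs_le hD B nB
  have c2 := card_filter_add_card_filter_not (s := Λ) fun t => ∃ p ∈ B, p.1 ∈ t ∧ p.2 ∈ t
  generalize hG : (Λ.filter fun t => ¬∃ p ∈ B, p.1 ∈ t ∧ p.2 ∈ t) = G at c2
  have cG : V.card * V.card ≤ 2 * K * G.card := by
    generalize V.card = n at *
    generalize (Λ.filter fun t => ∃ p ∈ B, p.1 ∈ t ∧ p.2 ∈ t).card = m at *
    have h1 : m ≤ (r * n + Bd.card) * D := c1.trans (Nat.mul_le_mul_right _ cB)
    have h2 : 4 * K * r * D * n ≤ n * n := Nat.mul_le_mul_right _ (by omega)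
    have h3 : 48 * (4 * K * D * Bd.card) ≤ 48 * (n * n) :=
      le_trans (by rw [hr]; nlinarith) hbad
    have h4 : K * m ≤ K * ((r * n + Bd.card) * D) := Nat.mul_le_mul_left _ h1
    rw [← c2] at hK
    nlinarith
  have one : ∀ t ∈ G, ∀ a ∈ t, ∀ b ∈ t, ∀ c ∈ t, a ≠ b → a ≠ c → b ≠ c →
      ∃ f ∈ P, 0 < f (e a) ∧ f (e b) < 0 ∧ f (e c) < 0 := by
    intro t ht
    rw [← hG] at ht
    obtain ⟨ht, hg⟩ := mem_filter.1 ht
    have tV := (mem_powersetCard.1 (hΛ ht)).1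
    have nS : ∀ a ∈ t, ∀ b ∈ t, a ≠ b → a ∉ S := fun a ha b hb ab h =>
      hg ⟨(a, b), hB ▸ mem_union_left _ (mem_filter.2 ⟨mem_product.2 ⟨h, tV hb⟩, ab⟩), ha, hb⟩
    have dg : ∀ a ∈ t, ∀ b ∈ t, a ≠ b → 2 * (S.filter fun s =>
        Face e (insert a (insert b S)) {a, b, s}).card < r := fun a ha b hb ab => by
      by_contra h
      refine hg ⟨(a, b), hB ▸ mem_union_right _ ?_, ha, hb⟩
      rw [← hBd]
      exact mem_filter.2 ⟨mem_product.2 ⟨tV ha, tV hb⟩, ab, nS a ha b hb ab,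
        nS b hb a ha ab.symm, not_lt.1 h⟩
    intro a ha b hb c hc ab ac bc
    refine hsign a (tV ha) (nS a ha b hb ab) b c ((s1 α e V S a b c nb gp hS (by omega) (tV ha)
      (tV hb) (tV hc) (nS a ha b hb ab) (nS b hb a ha ab.symm) (nS c hc a ha ac.symm)
      ab ac bc).resolve_right fun h => ?_)
    have h1 := dg a ha b hb ab
    have h2 := dg a ha c hc ac
    have h3 := (card_le_card (s := S) fun s hs => mem_union.2 ((h s hs).imp
      (fun h => mem_filter.2 ⟨hs, h⟩) fun h => mem_filter.2 ⟨hs, h⟩)).trans (card_union_le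
        (S.filter fun s => Face e (insert a (insert b S)) {a, b, s})
        (S.filter fun s => Face e (insert a (insert c S)) {a, c, s}))
    omega
  have GΛ : G ⊆ Λ := hG ▸ filter_subset _ _
  obtain ⟨⟨f, g, h⟩, Ω, hΩ, hp, hx⟩ := Sep.pigeon G (P ×ˢ P ×ˢ P) (hP.product (hP.product hP))
    (fun t p => ∃ x y z : α, t = {x, y, z} ∧
      (0 < p.1 (e x) ∧ p.1 (e y) < 0 ∧ p.1 (e z) < 0) ∧
      (p.2.1 (e x) < 0 ∧ 0 < p.2.1 (e y) ∧ p.2.1 (e z) < 0) ∧
      (p.2.2 (e x) < 0 ∧ p.2.2 (e y) < 0 ∧ 0 < p.2.2 (e z))) fun t ht => by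
    obtain ⟨x, y, z, xy, xz, yz, rfl⟩ := card_eq_three.1 (mem_powersetCard.1 (hΛ (GΛ ht))).2
    obtain ⟨f, hf, f1⟩ := one _ ht x (by simp) y (by simp) z (by simp) xy xz yz
    obtain ⟨g, hg, g1, g2, g3⟩ := one _ ht y (by simp) x (by simp) z (by simp) xy.symm yz xz
    obtain ⟨h, hh, h1, h2, h3⟩ := one _ ht z (by simp) x (by simp) y (by simp) xz.symm yz.symm xy
    exact ⟨(f, g, h), mem_product.2 ⟨hf, mem_product.2 ⟨hg, hh⟩⟩, x, y, z, rfl, f1, ⟨g2, g1, g3⟩,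
      h2, h3, h1⟩
  obtain ⟨v0, -⟩ : V.Nonempty := card_pos.1 (by omega)
  have : Nonempty α := ⟨v0⟩
  choose! x y z hxyz using hx
  refine ⟨Ω, hΩ.trans GΛ, x, y, z, f, g, h, cG.trans ?_, hxyz⟩
  rw [mul_assoc (2 * K)]
  refine Nat.mul_le_mul_left _ (hp.trans (Nat.mul_le_mul_right _ ?_))
  rw [card_product, card_product, pow_succ _ 2, sq, mul_assoc]
  exact Nat.mul_le_mul cP (Nat.mul_le_mul cP cP)

end Pool.Agent.MP_04a200_co.N4
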