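import Pool.Agent.MP_04a200_co.N4.Spec
import Mathlib.Algebra.Order.Field.Basic

/-! A separating functional through four points, or a triangle face for every centre. -/

set_option autoImplicit false

open Classical Finset

namespace Pool.Agent.MP_04a200_co.N4

namespace Sep1

variable {α : Type}

lemma big (U : Finset α) (g k : α → ℝ) (hg : ∀ u ∈ U, 0 ≤ g u)
    (hk : ∀ u ∈ U, g u = 0 → k u = 0) : ∃ l : ℝ, ∀ u ∈ U, k u ≤ l * g u := by
  refine ⟨∑ u ∈ U, |k u| / g u, fun u hu => ?_⟩
  rcases (hg u hu).eq_or_lt with h | h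
  · rw [← h, hk u hu h.symm, mul_zero]
  · have h1 : |k u| / g u ≤ ∑ v ∈ U, |k v| / g v :=
      single_le_sum (f := fun v => |k v| / g v)
        (fun v hv => div_nonneg (abs_nonneg _) (hg v hv)) hu
    have h2 : |k u| ≤ (∑ v ∈ U, |k v| / g v) * g u := (div_le_iff₀ h).1 h1
    exact (le_abs_self _).trans h2

lemma side (e : α → R5) (V S : Finset α) (a b s : α) (F : L5) (hN : Nb e V) (hS : S ⊆ V)
    (ha : a ∈ V) (hb : b ∈ V) (hs : s ∈ S) (haS : a ∉ S) (hab : a ≠ b)
    (h0 : ∀ v ∈ S, 0 ≤ F (e v)) (hFa : F (e a) = -1) (hFs : F (e s) = 0) (hFb : F (e b) = 0) :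
    Face e (insert a (insert b S)) {a, b, s} := by
  have hsub : ({b, s} : Finset α) ⊆ V := by
    intro v hv
    rcases mem_insert.1 hv with rfl | hv
    · exact hb
    · rw [mem_singleton.1 hv]; exact hS hs
  obtain ⟨-, G, hG⟩ := hN {b, s} hsub card_le_two
  have has : a ≠ s := fun h => haS (h ▸ hs)
  have hGa : 0 < G (e a) := by
    refine (hG a ha).1.lt_of_ne fun h => ?_
    have := (hG a ha).2.1 h.symm
    simp [hab, has] at this
  have hGb : G (e b) = 0 := (hG b hb).2.2 (by simp)
  have hGs : G (e s) = 0 := (hG s (hS hs)).2.2 (by simp)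
  refine ⟨?_, F + (G (e a))⁻¹ • G, ?_⟩
  · intro v hv
    simp only [mem_insert, mem_singleton] at hv ⊢
    rcases hv with rfl | rfl | rfl
    · exact Or.inl rfl
    · exact Or.inr (Or.inl rfl)
    · exact Or.inr (Or.inr hs)
  · intro v hv
    have hval : (F + (G (e a))⁻¹ • G : L5) (e v) = F (e v) + (G (e a))⁻¹ * G (e v) := by
      simp
    rw [hval]
    by_cases hva : v = a
    · subst hva
      rw [hFa, inv_mul_cancel₀ hGa.ne']
      simp
    by_cases hvb : v = b
    · subst hvb
      rw [hFb, hGb]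
      simp
    by_cases hvs : v = s
    · subst hvs
      rw [hFs, hGs]
      simp
    have hvS : v ∈ S := by
      simp only [mem_insert] at hv
      rcases hv with h | h | h
      · exact absurd h hva
      · exact absurd h hvb
      · exact h
    have hGv : 0 < G (e v) := by
      refine (hG v (hS hvS)).1.lt_of_ne fun h => ?_
      have := (hG v (hS hvS)).2.1 h.symm
      simp [hvb, hvs] at this
    have hpos : 0 < F (e v) + (G (e a))⁻¹ * G (e v) :=
      add_pos_of_nonneg_of_pos (h0 v hvS) (mul_pos (inv_pos.2 hGa) hGv)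
    refine ⟨hpos.le, ⟨fun h => absurd h hpos.ne', fun h => ?_⟩⟩
    simp [hva, hvb, hvs] at h

end Sep1

theorem sep1 (ext : ExtStmt) : Sep1Stmt := by
  intro α e V S a b c hN hGP hS hcard ha hb hc haS hbS hcS hab hac hbc
  by_cases hleft : ∃ T ⊆ S, T.card = 4 ∧ ∃ F : L5, (∀ v ∈ T, F (e v) = 0) ∧ F (e a) < 0 ∧
      0 < F (e b) ∧ 0 < F (e c)
  · exact Or.inl hleft
  refine Or.inr fun s hs => ?_
  have has : a ≠ s := fun h => haS (h ▸ hs)
  have hsub : ({a, s} : Finset α) ⊆ V := by
    intro v hv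
    rcases mem_insert.1 hv with rfl | hv
    · exact ha
    · rw [mem_singleton.1 hv]; exact hS hs
  obtain ⟨-, G, hG⟩ := hN {a, s} hsub card_le_two
  obtain ⟨K, hK⟩ := hGP.1 {a, s} hsub (card_le_two.trans (by omega))
    (fun v => if v = a then 1 else 0)
  have hKa : K (e a) = 1 := by simpa using hK a (by simp)
  have hKs : K (e s) = 0 := by simpa [has.symm] using hK s (by simp)
  have hGa : G (e a) = 0 := (hG a ha).2.2 (by simp)
  have hGs : G (e s) = 0 := (hG s (hS hs)).2.2 (by simp)
  have hU : insert b (insert c S) ⊆ V := insert_subset hb (insert_subset hc hS)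
  have haU : a ∉ insert b (insert c S) := by simp [hab, hac, haS]
  have hUc : 4 ≤ (insert b (insert c S)).card := by
    rw [card_insert_of_notMem (by simp [hbc, hbS]), card_insert_of_notMem hcS]
    omega
  obtain ⟨l, hl⟩ := Sep1.big (insert b (insert c S)) (fun v => G (e v)) (fun v => K (e v))
    (fun u hu => (hG u (hU hu)).1) (fun u hu h => by
      have h1 := (hG u (hU hu)).2.1 h
      simp only [mem_insert, mem_singleton] at h1
      rcases h1 with rfl | rfl
      · exact absurd hu haU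
      · exact hKs)
  have hval : ∀ v, (l • G - K : L5) (e v) = l * G (e v) - K (e v) := fun v => by simp
  have hFa : (l • G - K : L5) (e a) = -1 := by rw [hval, hGa, hKa]; simp
  obtain ⟨F, hF0, hFa', hFz, hF4⟩ := ext α e V (insert b (insert c S)) a (l • G - K) hGP hU hUc ha
    haU (fun u hu => by rw [hval]; exact sub_nonneg.2 (hl u hu)) (by rw [hFa]; norm_num)
  rw [hFa] at hFa'
  have hSU : ∀ v ∈ S, v ∈ insert b (insert c S) := fun v hv => by simp [hv]
  have hFs : F (e s) = 0 := hFz s (hSU s hs) (by rw [hval, hGs, hKs]; simp)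
  have hFS : ∀ v ∈ S, 0 ≤ F (e v) := fun v hv => hF0 v (hSU v hv)
  by_cases hFb : F (e b) = 0
  · exact Or.inl (Sep1.side e V S a b s F hN hS ha hb hs haS hab hFS hFa' hFs hFb)
  by_cases hFc : F (e c) = 0
  · exact Or.inr (Sep1.side e V S a c s F hN hS ha hc hs haS hac hFS hFa' hFs hFc)
  refine absurd ⟨_, ?_, hF4, F, fun v hv => (mem_filter.1 hv).2, by rw [hFa']; norm_num,
    (hF0 b (by simp)).lt_of_ne (Ne.symm hFb), (hF0 c (by simp)).lt_of_ne (Ne.symm hFc)⟩ hleft
  intro v hv
  obtain ⟨hv1, hv2⟩ := mem_filter.1 hv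
  simp only [mem_insert] at hv1
  rcases hv1 with rfl | rfl | h
  · exact absurd hv2 hFb
  · exact absurd hv2 hFc
  · exact h

end Pool.Agent.MP_04a200_co.N4
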