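import Pool.Agent.MP_04a200_co.N4.Spec
import Mathlib.Algebra.BigOperators.Ring.Finset
import Mathlib.Data.Finset.Sigma
import Mathlib.Data.Nat.Choose.Basic
import Mathlib.Tactic.Ring
import Mathlib.Tactic.Linarith

/-! A sample with few pairs that form many triangles with it. -/

set_option autoImplicit false

open Classical Finset

namespace Pool.Agent.MP_04a200_co.N4

namespace Sep2

variable {α : Type} (e : α → R5)

/-- triangles formed by two points outside `S` and one point of `S` -/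
noncomputable def Q (V S : Finset α) : Finset ((α × α) × α) :=
  ((V ×ˢ V) ×ˢ S).filter fun w => w.1.1 ≠ w.1.2 ∧ w.1.1 ∉ S ∧ w.1.2 ∉ S ∧
    Face e (insert w.1.1 (insert w.1.2 S)) {w.1.1, w.1.2, w.2}

/-- ordered triangles of `U` -/
noncomputable def R (U : Finset α) : Finset ((α × α) × α) :=
  ((U ×ˢ U) ×ˢ U).filter fun w => w.1.1 ≠ w.1.2 ∧ w.1.1 ≠ w.2 ∧ w.1.2 ≠ w.2 ∧
    Face e U {w.1.1, w.1.2, w.2}

lemma R_card (U : Finset α)
    (h : ∀ v, ((Tri e U).filter fun t => v ∈ t).card ≤ 6 * (U.card + 1)) :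
    (R e U).card ≤ 2 * (6 * (U.card + 1)) * U.card := by
  refine card_le_mul_card_image_of_maps_to (f := fun w => w.1.1) (fun w hw => ?_) _ fun a _ => ?_
  · exact (mem_product.mp (mem_product.mp (mem_filter.mp hw).1).1).1
  refine le_trans ?_ (Nat.mul_le_mul_left 2 (h a))
  refine card_le_mul_card_image_of_maps_to (f := fun w => ({w.1.1, w.1.2, w.2} : Finset α))
    (fun w hw => ?_) _ fun t ht => ?_
  · obtain ⟨hw1, hw2⟩ := mem_filter.mp hw
    obtain ⟨-, h1, h2, h3, h4⟩ := mem_filter.mp hw1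
    refine mem_filter.mpr ⟨mem_filter.mpr ⟨mem_powersetCard.mpr ⟨h4.1, ?_⟩, h4⟩,
      hw2 ▸ mem_insert_self _ _⟩
    exact card_eq_three.mpr ⟨_, _, _, h1, h2, h3, rfl⟩
  · obtain ⟨ht, hat⟩ := mem_filter.mp ht
    have h3 : t.card = 3 := (mem_powersetCard.mp (mem_filter.mp ht).1).2
    have h2 : (t.erase a).offDiag.card = 2 := by
      rw [offDiag_card, card_erase_of_mem hat, h3]
    rw [← h2]
    refine card_le_card_of_injOn (fun w => (w.1.2, w.2)) (fun w hw => ?_) fun w hw w' hw' hh => ?_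
    · obtain ⟨hw1, hw2⟩ := mem_filter.mp (mem_coe.mp hw)
      obtain ⟨hw3, hw4⟩ := mem_filter.mp hw1
      obtain ⟨-, h1, h2', h3', -⟩ := mem_filter.mp hw3
      refine mem_coe.mpr (mem_offDiag.mpr ⟨mem_erase.mpr ⟨hw4 ▸ h1.symm, ?_⟩,
        mem_erase.mpr ⟨hw4 ▸ h2'.symm, ?_⟩, h3'⟩)
      · exact hw2 ▸ mem_insert_of_mem (mem_insert_self _ _)
      · exact hw2 ▸ mem_insert_of_mem (mem_insert_of_mem (mem_singleton_self _))
    · have e1 := (mem_filter.mp (mem_filter.mp (mem_coe.mp hw)).1).2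
      have e2 := (mem_filter.mp (mem_filter.mp (mem_coe.mp hw')).1).2
      obtain ⟨e3, e4⟩ := Prod.mk.inj hh
      exact Prod.ext (Prod.ext (e1.trans e2.symm) e3) e4

lemma Q_sum (V : Finset α) (r : ℕ) :
    ∑ S ∈ V.powersetCard r, (Q e V S).card ≤ ∑ U ∈ V.powersetCard (r + 2), (R e U).card := by
  rw [← card_sigma, ← card_sigma]
  refine card_le_card_of_injOn (fun x => ⟨insert x.2.1.1 (insert x.2.1.2 x.1), x.2⟩)
    (fun x hx => ?_) fun x hx x' hx' hh => ?_
  · obtain ⟨hS, hw⟩ := mem_sigma.mp (mem_coe.mp hx)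
    obtain ⟨hSV, hr⟩ := mem_powersetCard.mp hS
    obtain ⟨hm, h1, h2, h3, h4⟩ := mem_filter.mp hw
    obtain ⟨hab, hs⟩ := mem_product.mp hm
    obtain ⟨ha, hb⟩ := mem_product.mp hab
    refine mem_coe.mpr (mem_sigma.mpr ⟨mem_powersetCard.mpr
      ⟨insert_subset ha (insert_subset hb hSV), ?_⟩, mem_filter.mpr ⟨mem_product.mpr
      ⟨mem_product.mpr ⟨mem_insert_self _ _, mem_insert_of_mem (mem_insert_self _ _)⟩,
        mem_insert_of_mem (mem_insert_of_mem hs)⟩, h1, fun h => h2 (h ▸ hs),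
        fun h => h3 (h ▸ hs), h4⟩⟩)
    rw [card_insert_of_notMem (by simp [h1, h2]), card_insert_of_notMem h3, hr]
  · obtain ⟨S, w⟩ := x
    obtain ⟨S', w'⟩ := x'
    obtain ⟨e1, e2⟩ := Sigma.mk.inj_iff.mp hh
    obtain rfl : w = w' := eq_of_heq e2
    obtain ⟨-, -, h2, h3, -⟩ := mem_filter.mp (mem_sigma.mp (mem_coe.mp hx)).2
    obtain ⟨-, -, h2', h3', -⟩ := mem_filter.mp (mem_sigma.mp (mem_coe.mp hx')).2
    have key : ∀ A B : Finset α, w.1.1 ∉ A → w.1.2 ∉ A →
        insert w.1.1 (insert w.1.2 A) = insert w.1.1 (insert w.1.2 B) → A ⊆ B := by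
      intro A B a1 a2 h s hs
      have : s ∈ insert w.1.1 (insert w.1.2 B) := h ▸ mem_insert_of_mem (mem_insert_of_mem hs)
      rcases mem_insert.mp this with rfl | this
      · exact absurd hs a1
      rcases mem_insert.mp this with rfl | this
      · exact absurd hs a2
      exact this
    obtain rfl : S = S' := Subset.antisymm (key S S' h2 h3 e1) (key S' S h2' h3' e1.symm)
    rfl

lemma bad_le (V S : Finset α) (r : ℕ) :
    r * ((V ×ˢ V).filter fun ab => ab.1 ≠ ab.2 ∧ ab.1 ∉ S ∧ ab.2 ∉ S ∧ r ≤ 2 * (S.filter fun s =>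
      Face e (insert ab.1 (insert ab.2 S)) {ab.1, ab.2, s}).card).card ≤ 2 * (Q e V S).card := by
  rw [mul_comm r, ← smul_eq_mul]
  refine (card_nsmul_le_sum _ (fun ab : α × α => 2 * (S.filter fun s =>
      Face e (insert ab.1 (insert ab.2 S)) {ab.1, ab.2, s}).card) r
      fun ab hab => (mem_filter.mp hab).2.2.2.2).trans ?_
  rw [← mul_sum, ← card_sigma]
  refine Nat.mul_le_mul_left 2 ?_
  refine card_le_card_of_injOn (fun x => (x.1, x.2)) (fun x hx => ?_) fun x _ x' _ hh => ?_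
  · obtain ⟨hab, hs⟩ := mem_sigma.mp (mem_coe.mp hx)
    obtain ⟨hm, h1, h2, h3, -⟩ := mem_filter.mp hab
    obtain ⟨hs, hf⟩ := mem_filter.mp hs
    exact mem_coe.mpr (mem_filter.mpr ⟨mem_product.mpr ⟨hm, hs⟩, h1, h2, h3, hf⟩)
  · exact Sigma.ext (congrArg Prod.fst hh) (heq_of_eq (congrArg Prod.snd hh))

lemma choose_le (n r : ℕ) : n.choose (r + 2) * ((r + 2) * (r + 1)) ≤ n.choose r * (n * n) := by
  have h1 := Nat.choose_succ_right_eq n r
  have h2 := Nat.choose_succ_right_eq n (r + 1)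
  calc n.choose (r + 2) * ((r + 2) * (r + 1)) = n.choose (r + 1 + 1) * (r + 1 + 1) * (r + 1) := by
        ring
    _ = n.choose (r + 1) * (r + 1) * (n - (r + 1)) := by rw [h2]; ring
    _ = n.choose r * ((n - r) * (n - (r + 1))) := by rw [h1]; ring
    _ ≤ _ := Nat.mul_le_mul_left _ (Nat.mul_le_mul (Nat.sub_le _ _) (Nat.sub_le _ _))

end Sep2

theorem sep2 (cnt : CntStmt) : Sep2Stmt := by
  intro α e V r gp h1 hr
  have hc := (cnt α e V gp).2
  have h2 : ∑ U ∈ V.powersetCard (r + 2), (Sep2.R e U).card ≤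
      V.card.choose (r + 2) * (2 * (6 * (r + 2 + 1)) * (r + 2)) := by
    rw [← card_powersetCard, ← smul_eq_mul]
    refine sum_le_card_nsmul _ _ _ fun U hU => ?_
    obtain ⟨hUV, hU⟩ := mem_powersetCard.mp hU
    have := Sep2.R_card e U fun v => hc v U hUV
    rwa [hU] at this
  have h3 : V.card.choose (r + 2) * (2 * (6 * (r + 2 + 1)) * (r + 2)) ≤
      24 * (V.card.choose r * (V.card * V.card)) := by
    refine le_trans ?_ (Nat.mul_le_mul_left 24 (Sep2.choose_le V.card r))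
    rw [mul_left_comm 24]
    exact Nat.mul_le_mul_left _ (by nlinarith)
  have h4 : ∑ S ∈ V.powersetCard r, 2 * (Sep2.Q e V S).card ≤
      ∑ _S ∈ V.powersetCard r, 48 * (V.card * V.card) := by
    rw [← mul_sum, sum_const, card_powersetCard, smul_eq_mul]
    have := ((Sep2.Q_sum e V r).trans h2).trans h3
    nlinarith
  obtain ⟨S, hS, h5⟩ := exists_le_of_sum_le (powersetCard_nonempty.mpr hr) h4
  obtain ⟨hSV, hS⟩ := mem_powersetCard.mp hS
  exact ⟨S, hSV, hS, (Sep2.bad_le e V S r).trans h5⟩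

end Pool.Agent.MP_04a200_co.N4
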