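import Pool.Agent.MP_04a200_co.N4.Spec
import Mathlib.Order.Interval.Finset.Nat
import Mathlib.Tactic.Linarith
import Mathlib.Tactic.Ring

/-! Many roots in one band are supported from above and from below. -/

set_option autoImplicit false

open Classical Finset

namespace Pool.Agent.MP_04a200_co.N4

namespace Supp

variable {α ι : Type} {Φ : Finset ι} {c : ι → α} {η : ι → ℕ} {D n b m : ℕ}

/-- few heights for each value of `c` -/
theorem few (hD : Mult D Φ c η) (hn : (Φ.image c).card ≤ n) {U : Finset ι} (hU : U ⊆ Φ)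
    (h : ∀ a, ((U.filter fun t => c t = a).image η).card ≤ m) : U.card ≤ n * D * m := by
  have h1 : ∀ a ∈ Φ.image c, (U.filter fun t => c t = a).card ≤ D * m := fun a _ => by
    refine (card_le_mul_card_image (f := η) _ D fun e _ => ?_).trans (Nat.mul_le_mul_left _ (h a))
    have h2 := hD a e
    refine le_trans (card_le_card fun t ht => ?_) h2
    simp only [mem_filter] at ht ⊢
    exact ⟨hU ht.1.1, ht.1.2, ht.2⟩
  have h2 := card_le_mul_card_image_of_maps_to (f := c) (s := U) (t := Φ.image c)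
    (fun t ht => mem_image_of_mem c (hU ht)) (D * m) h1
  calc U.card ≤ D * m * n := h2.trans (Nat.mul_le_mul_left _ hn)
    _ = n * D * m := by ring

/-- heights in one band or in a given set -/
theorem band (hb : 0 < b) (A : Finset ι) (j : ℕ) (T : Finset ℕ)
    (h : ∀ t ∈ A, η t / b = j ∨ η t ∈ T) : (A.image η).card ≤ b + T.card := by
  have h1 : A.image η ⊆ Ico (j * b) (j * b + b) ∪ T := by
    intro e he
    obtain ⟨t, ht, rfl⟩ := mem_image.1 he
    rcases h t ht with rfl | h'
    · exact mem_union_left _ (mem_Ico.2 ⟨Nat.div_mul_le_self _ _, Nat.lt_div_mul_add hb⟩)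
    · exact mem_union_right _ h'
  refine (card_le_card h1).trans ((card_union_le _ _).trans (le_of_eq ?_))
  rw [Nat.card_Ico, Nat.add_sub_cancel_left]

end Supp

open Supp in
theorem supp : SuppStmt := by
  intro α ι Φ x z η D n d b w m1 m2 hd hx hz hb hbd hbig
  let top : ι → ℕ → Finset ℕ := fun t j => (Φ.filter fun u => x u = x t ∧ j < η u / b).image η
  let bot : ι → ℕ → Finset ℕ := fun t j => (Φ.filter fun u => z u = z t ∧ η u / b < j).image η
  let Ux := Φ.filter fun t => (top t (η t / b)).card ≤ 2 * w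
  let Uz := Φ.filter fun t => (bot t (η t / b)).card ≤ 2 * w
  have hUx : Ux.card ≤ n * D * (b + 2 * w) := by
    refine few m1 hx (filter_subset _ _) fun a => ?_
    rcases (Ux.filter fun t => x t = a).eq_empty_or_nonempty with h | h
    · rw [h]
      simp
    obtain ⟨t0, h0, hm⟩ := exists_min_image _ (fun t => η t / b) h
    obtain ⟨h1, h2⟩ := mem_filter.1 h0
    refine (band hb _ (η t0 / b) (top t0 (η t0 / b)) fun t ht => ?_).trans
      (Nat.add_le_add_left (mem_filter.1 h1).2 _)
    obtain ⟨h3, h4⟩ := mem_filter.1 ht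
    exact (hm t ht).eq_or_lt.imp Eq.symm fun h5 =>
      mem_image_of_mem η (mem_filter.2 ⟨(mem_filter.1 h3).1, h4.trans h2.symm, h5⟩)
  have hUz : Uz.card ≤ n * D * (b + 2 * w) := by
    refine few m2 hz (filter_subset _ _) fun a => ?_
    rcases (Uz.filter fun t => z t = a).eq_empty_or_nonempty with h | h
    · rw [h]
      simp
    obtain ⟨t0, h0, hm⟩ := exists_max_image _ (fun t => η t / b) h
    obtain ⟨h1, h2⟩ := mem_filter.1 h0
    refine (band hb _ (η t0 / b) (bot t0 (η t0 / b)) fun t ht => ?_).trans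
      (Nat.add_le_add_left (mem_filter.1 h1).2 _)
    obtain ⟨h3, h4⟩ := mem_filter.1 ht
    exact (hm t ht).eq_or_lt.imp id fun h5 =>
      mem_image_of_mem η (mem_filter.2 ⟨(mem_filter.1 h3).1, h4.trans h2.symm, h5⟩)
  let Gd := Φ \ (Ux ∪ Uz)
  have hG : Φ.card ≤ 2 * Gd.card := by
    have h1 : Φ.card ≤ Gd.card + (Ux ∪ Uz).card := card_le_card_sdiff_add_card
    have h2 := card_union_le Ux Uz
    have h3 : 4 * n * D * (b + 2 * w) = 4 * (n * D * (b + 2 * w)) := by ring
    omega
  obtain ⟨j, -, hj⟩ := exists_max_image (range (d / b + 1))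
    (fun j => (Gd.filter fun t => η t / b = j).card) ⟨0, mem_range.2 (Nat.succ_pos _)⟩
  have hP := card_le_mul_card_image_of_maps_to (f := fun t => η t / b) (s := Gd)
    (t := range (d / b + 1)) (fun t ht => mem_range.2 (Nat.lt_succ_of_le
      (Nat.div_le_div_right (hd t (mem_sdiff.1 ht).1).le))) _ hj
  rw [card_range] at hP
  refine ⟨Gd.filter fun t => η t / b = j, (filter_subset _ _).trans sdiff_subset, j, ?_,
    fun t ht => ?_⟩
  · have h1 : (d / b + 1) * b ≤ 2 * d := by
      have := Nat.div_mul_le_self d b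
      rw [add_mul]
      omega
    calc Φ.card * b ≤ 2 * ((Gd.filter fun t => η t / b = j).card * (d / b + 1)) * b :=
          Nat.mul_le_mul_right _ (hG.trans (Nat.mul_le_mul_left _ hP))
      _ = 2 * (Gd.filter fun t => η t / b = j).card * ((d / b + 1) * b) := by ring
      _ ≤ 2 * (Gd.filter fun t => η t / b = j).card * (2 * d) := Nat.mul_le_mul_left _ h1
      _ = _ := by ring
  · obtain ⟨h1, rfl⟩ := mem_filter.1 ht
    obtain ⟨h2, h3⟩ := mem_sdiff.1 h1
    exact ⟨rfl, lt_of_not_ge fun h => h3 (mem_union_left _ (mem_filter.2 ⟨h2, h⟩)),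
      lt_of_not_ge fun h => h3 (mem_union_right _ (mem_filter.2 ⟨h2, h⟩))⟩

end Pool.Agent.MP_04a200_co.N4
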