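import Pool.Agent.MP_04a200_co.N4.Spec
import Mathlib.Tactic.Linarith
import Mathlib.Tactic.Ring

/-! A large family of fine roots contains a sweep. -/

set_option autoImplicit false

open Classical Finset

namespace Pool.Agent.MP_04a200_co.N4

namespace Sweep

variable {α ι : Type} {Φ : Finset ι} {x z : ι → α} {η τ τ' : ι → ℕ} {b j w : ℕ} {t : ι}

theorem card_im {A B : Finset ι} (h : A ⊆ B) : (A.image η).card ≤ (B.image η).card :=
  card_le_card (image_subset_image h)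

theorem split {A B C : Finset ι} (h : A ⊆ B ∪ C) (hw : 2 * w < (A.image η).card) :
    w < (B.image η).card ∨ w < (C.image η).card := by
  have h1 := card_im (η := η) h
  rw [image_union] at h1
  have h2 := card_union_le (B.image η) (C.image η)
  omega

theorem lt_of_div {p q : ℕ} (h : p / b < q / b) : p < q :=
  lt_of_not_ge fun h' => absurd (Nat.div_le_div_right h') (not_le.2 h)

theorem fr_rev (h : FR Φ x z η τ w) (hτ : ∀ t ∈ Φ, ∀ t' ∈ Φ, τ' t ≤ τ' t' → τ t' ≤ τ t) :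
    FR Φ x z η τ' w := by
  refine ⟨fun t1 h1 t3 h3 e => le_trans (card_im fun u hu => ?_) (h.1 t3 h3 t1 h1 e.symm),
    fun t1 h1 t3 h3 e => le_trans (card_im fun u hu => ?_) (h.2 t3 h3 t1 h1 e.symm)⟩
  all_goals
    obtain ⟨a0, a1, a2, a3, a4⟩ := mem_filter.1 hu
    exact mem_filter.2 ⟨a0, hτ _ a0 _ h3 a2, hτ _ h1 _ a0 a1, a4, a3⟩

/-- not many tops and many bottoms later -/
theorem not_after (h : FR Φ x z η τ w) (ht : t ∈ Φ) (hj : η t / b = j) {A B : Finset ι}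
    (hA : ∀ u ∈ A, u ∈ Φ ∧ x u = x t ∧ j < η u / b ∧ τ t ≤ τ u)
    (hB : ∀ u ∈ B, u ∈ Φ ∧ z u = z t ∧ η u / b < j ∧ τ t ≤ τ u)
    (h1 : w < (A.image η).card) (h2 : w < (B.image η).card) : False := by
  have hne : (A ∪ B).Nonempty :=
    (image_nonempty.1 (card_pos.1 (Nat.zero_lt_of_lt h1))).mono subset_union_left
  obtain ⟨u, hu, hm⟩ := exists_max_image (A ∪ B) τ hne
  rcases mem_union.1 hu with hu | hu
  · obtain ⟨a0, a1, a2, -⟩ := hA u hu
    refine absurd (le_trans (card_im fun v hv => ?_) (h.1 t ht u a0 a1.symm)) (not_le.2 h2)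
    obtain ⟨b0, -, b2, b3⟩ := hB v hv
    exact mem_filter.2 ⟨b0, b3, hm v (mem_union_right _ hv), lt_of_div (hj ▸ b2),
      lt_of_div (b2.trans a2)⟩
  · obtain ⟨a0, a1, a2, -⟩ := hB u hu
    refine absurd (le_trans (card_im fun v hv => ?_) (h.2 t ht u a0 a1.symm)) (not_le.2 h1)
    obtain ⟨b0, -, b2, b3⟩ := hA v hv
    exact mem_filter.2 ⟨b0, b3, hm v (mem_union_left _ hv), lt_of_div (hj ▸ b2),
      lt_of_div (a2.trans b2)⟩

theorem lev_rev {W : Finset ι} {L k : ℕ} (h : Lev W η τ' L k)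
    (hτ : ∀ t ∈ W, ∀ t' ∈ W, τ t ≤ τ t' → τ' t' ≤ τ' t) : Lev W η τ L k := by
  obtain ⟨lev, h1, h2, h3⟩ := h
  refine ⟨fun t => L - 1 - lev t, fun t ht t' ht' hh => ?_, fun t ht => ?_,
    fun i => le_trans (card_im fun u hu => ?_) (h3 (L - 1 - i))⟩
  · exact Nat.sub_le_sub_left (h1 t' ht' t ht (hτ t ht t' ht' hh)) _
  · have := h2 t ht
    dsimp only
    omega
  · obtain ⟨a0, a1⟩ := mem_filter.1 hu
    have := h2 u a0
    have a2 : L - 1 - lev u = i := a1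
    exact mem_filter.2 ⟨a0, by omega⟩

theorem count {P Q R W s n d : ℕ} (h1 : P ≤ 4 * d * Q) (h2 : Q ≤ 2 * R) (h3 : R * s ≤ 4 * n * W) :
    P * s ≤ 32 * n * d * W :=
  calc P * s ≤ 4 * d * (2 * R) * s :=
        Nat.mul_le_mul_right _ (h1.trans (Nat.mul_le_mul_left _ h2))
    _ = 8 * d * (R * s) := by ring
    _ ≤ 8 * d * (4 * n * W) := Nat.mul_le_mul_left _ h3
    _ = 32 * n * d * W := by ring

end Sweep

open Sweep in
theorem sweep (supp : SuppStmt) (down : DownStmt) : SweepStmt := by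
  intro α ι Φ x z η τ D n d b w hne hinj hFR m1 m2 hd hx hz hw hb hbd hbig
  obtain ⟨Ψ, hΨ, j, hc, hP⟩ := supp α ι Φ x z η D n d b w m1 m2 hd hx hz hb hbd hbig
  obtain ⟨τ', hτ⟩ : ∃ τ' : ι → ℕ, ∀ t ∈ Φ, ∀ t' ∈ Φ, τ' t ≤ τ' t' ↔ τ t' ≤ τ t := by
    refine ⟨fun t => Φ.sup τ - τ t, fun t ht t' ht' => ?_⟩
    have h1 : τ t ≤ Φ.sup τ := le_sup ht
    have h2 : τ t' ≤ Φ.sup τ := le_sup ht'
    dsimp only
    omega
  have hFR' : FR Φ x z η τ' w := fr_rev hFR fun t ht t' ht' => (hτ t ht t' ht').1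
  have hinj' : ∀ t ∈ Φ, ∀ t' ∈ Φ, τ' t = τ' t' → t = t' := fun t ht t' ht' e =>
    hinj t ht t' ht' (le_antisymm ((hτ t' ht' t ht).1 e.ge) ((hτ t ht t' ht').1 e.le))
  let Dn : (ι → ℕ) → Finset ι := fun σ => Ψ.filter fun t =>
    w < ((Φ.filter fun u => x u = x t ∧ j < η u / b ∧ σ u ≤ σ t).image η).card ∧
    w < ((Φ.filter fun u => z u = z t ∧ η u / b < j ∧ σ t ≤ σ u).image η).card
  have hcov : Ψ ⊆ Dn τ ∪ Dn τ' := by
    intro t ht
    have ht' := hΨ ht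
    obtain ⟨hj, h1, h2⟩ := hP t ht
    have a := split (B := Φ.filter fun u => x u = x t ∧ j < η u / b ∧ τ u ≤ τ t)
      (C := Φ.filter fun u => x u = x t ∧ j < η u / b ∧ τ' u ≤ τ' t) (fun u hu => by
        obtain ⟨a0, a1, a2⟩ := mem_filter.1 hu
        rcases le_total (τ u) (τ t) with h | h
        · exact mem_union_left _ (mem_filter.2 ⟨a0, a1, a2, h⟩)
        · exact mem_union_right _ (mem_filter.2 ⟨a0, a1, a2, (hτ u a0 t ht').2 h⟩)) h1
    have a' := split (B := Φ.filter fun u => z u = z t ∧ η u / b < j ∧ τ t ≤ τ u)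
      (C := Φ.filter fun u => z u = z t ∧ η u / b < j ∧ τ' t ≤ τ' u) (fun u hu => by
        obtain ⟨a0, a1, a2⟩ := mem_filter.1 hu
        rcases le_total (τ t) (τ u) with h | h
        · exact mem_union_left _ (mem_filter.2 ⟨a0, a1, a2, h⟩)
        · exact mem_union_right _ (mem_filter.2 ⟨a0, a1, a2, (hτ t ht' u a0).2 h⟩)) h2
    rcases a with a | a <;> rcases a' with a' | a'
    · exact mem_union_left _ (mem_filter.2 ⟨ht, a, a'⟩)
    · refine (not_after hFR' ht' hj (fun u hu => ?_) (fun u hu => ?_) a a').elim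
      · obtain ⟨a0, a1, a2, a3⟩ := mem_filter.1 hu
        exact ⟨a0, a1, a2, (hτ t ht' u a0).2 a3⟩
      · exact mem_filter.1 hu
    · refine (not_after hFR ht' hj (fun u hu => ?_) (fun u hu => ?_) a a').elim
      · obtain ⟨a0, a1, a2, a3⟩ := mem_filter.1 hu
        exact ⟨a0, a1, a2, (hτ u a0 t ht').1 a3⟩
      · exact mem_filter.1 hu
    · exact mem_union_right _ (mem_filter.2 ⟨ht, a, a'⟩)
  have hpos : 0 < Ψ.card := by
    have h1 : 0 < Φ.card * b := Nat.mul_pos (card_pos.2 hne) hb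
    exact Nat.pos_of_mul_pos_left (h1.trans_le hc)
  have hsum : Ψ.card ≤ (Dn τ).card + (Dn τ').card := (card_le_card hcov).trans (card_union_le _ _)
  have hsub : ∀ σ, Dn σ ⊆ Φ := fun σ => (filter_subset _ _).trans hΨ
  have hD : ∀ σ, ∀ t ∈ Dn σ, η t / b = j ∧
      w < ((Φ.filter fun u => x u = x t ∧ j < η u / b ∧ σ u ≤ σ t).image η).card ∧
      w < ((Φ.filter fun u => z u = z t ∧ η u / b < j ∧ σ t ≤ σ u).image η).card :=
    fun σ t ht => ⟨(hP t (mem_filter.1 ht).1).1, (mem_filter.1 ht).2⟩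
  rcases le_total (Dn τ').card (Dn τ).card with h | h
  · obtain ⟨W, w1, w2, w3, w4⟩ := down α ι Φ (Dn τ) x z η τ n b j w (hsub τ)
      (card_pos.1 (by omega)) hinj hFR hw hb hx hz (hD τ)
    exact ⟨W, w1.trans (hsub τ), w2, w3, count hc (by omega) w4⟩
  · obtain ⟨W, w1, w2, w3, w4⟩ := down α ι Φ (Dn τ') x z η τ' n b j w (hsub τ')
      (card_pos.1 (by omega)) hinj' hFR' hw hb hx hz (hD τ')
    have hW := w1.trans (hsub τ')
    exact ⟨W, hW, w2, lev_rev w3 fun t ht t' ht' hh => (hτ t' (hW ht') t (hW ht)).2 hh,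
      count hc (by omega) w4⟩

end Pool.Agent.MP_04a200_co.N4
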