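import Pool.Agent.MP_04a200_co.N4.Spec
import Mathlib.LinearAlgebra.FiniteDimensional.Lemmas
import Mathlib.LinearAlgebra.Dimension.Constructions
import Mathlib.LinearAlgebra.Dimension.Free
import Mathlib.Analysis.Normed.Field.Basic

/-! The planar model with affine time. -/

set_option autoImplicit false

open Classical Finset

namespace Pool.Agent.MP_04a200_co.N4

namespace Time

variable {α ι : Type}

/-- the relation vector of four points -/
noncomputable def wv (e : α → R5) (f g h : L5) (a b c d : α) : R5 :=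
  br (fun v => f (e v)) (fun v => g (e v)) (fun v => h (e v)) b c d • e a -
  br (fun v => f (e v)) (fun v => g (e v)) (fun v => h (e v)) a c d • e b +
  br (fun v => f (e v)) (fun v => g (e v)) (fun v => h (e v)) a b d • e c -
  br (fun v => f (e v)) (fun v => g (e v)) (fun v => h (e v)) a b c • e d

theorem lift_eq (e : α → R5) (f g h J : L5) (a b c d : α) :
    lift (fun v => f (e v)) (fun v => g (e v)) (fun v => h (e v)) (fun v => J (e v)) a b c d =
      J (wv e f g h a b c d) := by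
  simp only [lift, wv, map_add, map_sub, map_smul, smul_eq_mul]

theorem wv_ker (e : α → R5) (f g h : L5) (a b c d : α) :
    f (wv e f g h a b c d) = 0 ∧ g (wv e f g h a b c d) = 0 ∧ h (wv e f g h a b c d) = 0 := by
  refine ⟨?_, ?_, ?_⟩ <;>
  · simp only [wv, br, map_add, map_sub, map_smul, smul_eq_mul]
    ring

/-- two vectors span the common kernel -/
def Span2 (f g h : L5) (u0 u1 : R5) : Prop :=
  ∀ w : R5, f w = 0 → g w = 0 → h w = 0 → ∃ g0 g1 : ℝ, w = g0 • u0 + g1 • u1

theorem exists_span2 (e : α → R5) (f g h : L5) (a b c : α)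
    (hbr : br (fun v => f (e v)) (fun v => g (e v)) (fun v => h (e v)) a b c ≠ 0) :
    ∃ u0 u1, Span2 f g h u0 u1 := by
  let Φ : R5 →ₗ[ℝ] (Fin 3 → ℝ) := LinearMap.pi ![f, g, h]
  have hr : LinearMap.range Φ = ⊤ := by
    rw [LinearMap.range_eq_top]
    intro t
    set D := br (fun v => f (e v)) (fun v => g (e v)) (fun v => h (e v)) a b c with hD
    refine ⟨((t 0 * (g (e b) * h (e c) - g (e c) * h (e b)) -
        f (e b) * (t 1 * h (e c) - g (e c) * t 2) +
        f (e c) * (t 1 * h (e b) - g (e b) * t 2)) / D) • e a +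
      ((f (e a) * (t 1 * h (e c) - g (e c) * t 2) -
        t 0 * (g (e a) * h (e c) - g (e c) * h (e a)) +
        f (e c) * (g (e a) * t 2 - t 1 * h (e a))) / D) • e b +
      ((f (e a) * (g (e b) * t 2 - t 1 * h (e b)) -
        f (e b) * (g (e a) * t 2 - t 1 * h (e a)) +
        t 0 * (g (e a) * h (e b) - g (e b) * h (e a))) / D) • e c, ?_⟩
    have hD' : D = f (e a) * (g (e b) * h (e c) - g (e c) * h (e b)) -
        f (e b) * (g (e a) * h (e c) - g (e c) * h (e a)) +
        f (e c) * (g (e a) * h (e b) - g (e b) * h (e a)) := by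
      rw [hD]; rfl
    funext i
    fin_cases i
    · simp only [Φ, LinearMap.pi_apply, map_add, map_smul, smul_eq_mul]
      show _ * f (e a) + _ * f (e b) + _ * f (e c) = t 0
      field_simp
      rw [hD']; ring
    · simp only [Φ, LinearMap.pi_apply, map_add, map_smul, smul_eq_mul]
      show _ * g (e a) + _ * g (e b) + _ * g (e c) = t 1
      field_simp
      rw [hD']; ring
    · simp only [Φ, LinearMap.pi_apply, map_add, map_smul, smul_eq_mul]
      show _ * h (e a) + _ * h (e b) + _ * h (e c) = t 2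
      field_simp
      rw [hD']; ring
  have hk : Module.finrank ℝ (LinearMap.ker Φ) = 2 := by
    have h1 := LinearMap.finrank_range_add_finrank_ker Φ
    rw [hr, finrank_top] at h1
    simp only [Module.finrank_fintype_fun_eq_card, Fintype.card_fin] at h1
    omega
  let B := Module.finBasisOfFinrankEq ℝ (LinearMap.ker Φ) hk
  refine ⟨(B 0 : R5), (B 1 : R5), fun w hf hg hh => ?_⟩
  have hw : w ∈ LinearMap.ker Φ := by
    rw [LinearMap.mem_ker]
    funext i
    fin_cases i
    · exact hf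
    · exact hg
    · exact hh
  have h2 := B.sum_repr ⟨w, hw⟩
  rw [Fin.sum_univ_two] at h2
  refine ⟨B.repr ⟨w, hw⟩ 0, B.repr ⟨w, hw⟩ 1, ?_⟩
  have h3 := congrArg Subtype.val h2
  simpa using h3.symm

theorem span2_neg {f g h : L5} {u0 u1 : R5} (H : Span2 f g h u0 u1) : Span2 f g h (-u0) u1 := by
  intro w hf hg hh
  obtain ⟨g0, g1, hw⟩ := H w hf hg hh
  exact ⟨-g0, g1, by rw [hw]; simp⟩

theorem span2_swap {f g h : L5} {u0 u1 : R5} (H : Span2 f g h u0 u1) : Span2 f g h u1 u0 := by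
  intro w hf hg hh
  obtain ⟨g0, g1, hw⟩ := H w hf hg hh
  exact ⟨g1, g0, by rw [hw, add_comm]⟩

theorem kin_of (e : α → R5) (V : Finset α) (Ω : Finset ι) (x y z : ι → α) (f g h : L5)
    (hNb : Nb e V) (J : ι → L5) (hsub : ∀ t ∈ Ω, ({x t, y t, z t} : Finset α) ⊆ V)
    (hJ : ∀ t ∈ Ω, Sup e V {x t, y t, z t} (J t))
    (hpos : ∀ t ∈ Ω, ∀ t' ∈ Ω, ∀ t'' ∈ Ω,
      0 < br (fun v => f (e v)) (fun v => g (e v)) (fun v => h (e v)) (x t) (y t') (z t''))
    (hgen : ∀ a ∈ V, ∀ b ∈ V, ∀ c ∈ V, a ≠ b → a ≠ c → b ≠ c →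
      br (fun v => f (e v)) (fun v => g (e v)) (fun v => h (e v)) a b c ≠ 0)
    (u0 u1 : R5) (hs : Span2 f g h u0 u1) (h0 : ∀ t ∈ Ω, 0 < J t u0) :
    ∃ H s G G0 G1,
      Kin V Ω x y z (fun v => f (e v)) (fun v => g (e v)) (fun v => h (e v)) H s G G0 G1 := by
  have hG : ∀ a b : α, ∃ K : L5, a ∈ V → b ∈ V → Sup e V {a, b} K := by
    intro a b
    by_cases hab : a ∈ V ∧ b ∈ V
    · obtain ⟨-, K, hK⟩ := hNb {a, b} (by
        intro v hv
        simp only [mem_insert, mem_singleton] at hv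
        rcases hv with rfl | rfl
        · exact hab.1
        · exact hab.2) card_le_two
      exact ⟨K, fun _ _ => hK⟩
    · exact ⟨0, fun ha hb => absurd ⟨ha, hb⟩ hab⟩
  choose K hK using hG
  refine ⟨fun t v => ((J t u0)⁻¹ • J t) (e v), fun t => J t u1 / J t u0,
    fun a b v => K a b (e v), fun a b => K a b u0, fun a b => K a b u1, ?_, hpos, hgen, ?_, ?_, ?_⟩
  · intro t ht
    exact ⟨hsub t ht (by simp), hsub t ht (by simp), hsub t ht (by simp)⟩
  · intro t ht v hv
    have h1 := hJ t ht v hv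
    have h2 := h0 t ht
    simp only [LinearMap.smul_apply, smul_eq_mul]
    refine ⟨mul_nonneg (inv_nonneg.2 h2.le) h1.1, ?_⟩
    rw [mul_eq_zero, or_iff_right (inv_ne_zero h2.ne'), h1.2]
    simp
  · intro a ha b hb v hv
    have h1 := hK a b ha hb v hv
    refine ⟨h1.1, ?_⟩
    rw [h1.2]
    simp
  · intro a _ b _ c _ d _
    obtain ⟨k1, k2, k3⟩ := wv_ker e f g h a b c d
    obtain ⟨g0, g1, hw⟩ := hs _ k1 k2 k3
    refine ⟨g0, g1, ?_, ?_⟩
    · intro t ht
      have h2 := (h0 t ht).ne'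
      rw [lift_eq, hw]
      simp only [LinearMap.smul_apply, map_add, map_smul, smul_eq_mul]
      field_simp
    · intro u _ w _
      rw [lift_eq, hw]
      simp only [map_add, map_smul, smul_eq_mul]

end Time

theorem time : TimeStmt := by
  intro α ι e V Ω x y z f g h hNb hF hV _ hpos hgen
  obtain ⟨a, b, c, ha, hb, hc, hab, hac, hbc⟩ := two_lt_card_iff.1 (by omega : 2 < V.card)
  obtain ⟨u0, u1, hs⟩ := Time.exists_span2 e f g h a b c (hgen a ha b hb c hc hab hac hbc)
  have hJ : ∀ t : ι, ∃ J : L5, t ∈ Ω → Sup e V {x t, y t, z t} J := by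
    intro t
    by_cases ht : t ∈ Ω
    · obtain ⟨-, J, hJ⟩ := hF t ht
      exact ⟨J, fun _ => hJ⟩
    · exact ⟨0, fun h' => absurd h' ht⟩
  choose J hJ using hJ
  have hne : ∀ t ∈ Ω, 0 < J t u0 ∨ 0 < J t (-u0) ∨ 0 < J t u1 ∨ 0 < J t (-u1) := by
    intro t ht
    by_contra hcon
    simp only [map_neg, not_or, not_lt] at hcon
    obtain ⟨c1, c2, c3, c4⟩ := hcon
    have z0 : J t u0 = 0 := by linarith
    have z1 : J t u1 = 0 := by linarith
    have hlt : ({x t, y t, z t} : Finset α).card < V.card := lt_of_le_of_lt card_le_three (by omega)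
    obtain ⟨v, hv, hvn⟩ := exists_mem_notMem_of_card_lt_card hlt
    obtain ⟨k1, k2, k3⟩ := Time.wv_ker e f g h v (x t) (y t) (z t)
    obtain ⟨g0, g1, hw⟩ := hs _ k1 k2 k3
    have e1 := Time.lift_eq e f g h (J t) v (x t) (y t) (z t)
    rw [hw] at e1
    have hsub := (hF t ht).1
    have hx : J t (e (x t)) = 0 := (hJ t ht _ (hsub (by simp))).2.2 (by simp)
    have hy : J t (e (y t)) = 0 := (hJ t ht _ (hsub (by simp))).2.2 (by simp)
    have hz : J t (e (z t)) = 0 := (hJ t ht _ (hsub (by simp))).2.2 (by simp)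
    simp only [lift, map_add, map_smul, smul_eq_mul, z0, z1, hx, hy, hz, mul_zero, add_zero,
      sub_zero] at e1
    rcases mul_eq_zero.1 e1 with e2 | e2
    · exact (hpos t ht t ht t ht).ne' e2
    · exact hvn ((hJ t ht v hv).2.1 e2)
  have key : ∀ w0 w1 : R5, Time.Span2 f g h w0 w1 →
      Ω.card ≤ 4 * (Ω.filter fun t => 0 < J t w0).card →
      ∃ Ω' ⊆ Ω, Ω.card ≤ 4 * Ω'.card ∧ ∃ H s G G0 G1,
        Kin V Ω' x y z (fun v => f (e v)) (fun v => g (e v)) (fun v => h (e v)) H s G G0 G1 := by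
    intro w0 w1 hw hc
    refine ⟨_, filter_subset _ _, hc, ?_⟩
    exact Time.kin_of e V _ x y z f g h hNb J (fun t ht => (hF t (mem_filter.1 ht).1).1)
      (fun t ht => hJ t (mem_filter.1 ht).1)
      (fun t ht t' ht' t'' ht'' =>
        hpos t (mem_filter.1 ht).1 t' (mem_filter.1 ht').1 t'' (mem_filter.1 ht'').1)
      hgen w0 w1 hw (fun t ht => (mem_filter.1 ht).2)
  have hcov : Ω ⊆ (Ω.filter fun t => 0 < J t u0) ∪ (Ω.filter fun t => 0 < J t (-u0)) ∪
      (Ω.filter fun t => 0 < J t u1) ∪ (Ω.filter fun t => 0 < J t (-u1)) := by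
    intro t ht
    have := hne t ht
    simp only [mem_union, mem_filter, ht, true_and]
    tauto
  have hc1 := card_le_card hcov
  have hc2 := card_union_le ((Ω.filter fun t => 0 < J t u0) ∪ (Ω.filter fun t => 0 < J t (-u0)) ∪
      (Ω.filter fun t => 0 < J t u1)) (Ω.filter fun t => 0 < J t (-u1))
  have hc3 := card_union_le ((Ω.filter fun t => 0 < J t u0) ∪ (Ω.filter fun t => 0 < J t (-u0)))
      (Ω.filter fun t => 0 < J t u1)
  have hc4 := card_union_le (Ω.filter fun t => 0 < J t u0) (Ω.filter fun t => 0 < J t (-u0))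
  by_cases d1 : Ω.card ≤ 4 * (Ω.filter fun t => 0 < J t u0).card
  · exact key u0 u1 hs d1
  by_cases d2 : Ω.card ≤ 4 * (Ω.filter fun t => 0 < J t (-u0)).card
  · exact key (-u0) u1 (Time.span2_neg hs) d2
  by_cases d3 : Ω.card ≤ 4 * (Ω.filter fun t => 0 < J t u1).card
  · exact key u1 u0 (Time.span2_swap hs) d3
  exact key (-u1) u0 (Time.span2_neg (Time.span2_swap hs)) (by omega)

end Pool.Agent.MP_04a200_co.N4
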