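import Pool.Agent.MP_04a200_co.N4.Spec
import Mathlib.Tactic.Linarith
import Mathlib.Tactic.Positivity
import Mathlib.Tactic.FieldSimp
import Mathlib.Tactic.Ring
import Mathlib.Algebra.Order.Field.Basic

/-! Every triangle lies in exactly two facets, subtriangles of facets are faces, and every pair
lies in a facet. -/

set_option autoImplicit false

open Classical Finset

namespace Pool.Agent.MP_04a200_co.N4

namespace Two

variable {α : Type}

lemma pos_of_not_mem {e : α → R5} {V S : Finset α} {H : L5} (h : Sup e V S H) {v : α}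
    (hv : v ∈ V) (hS : v ∉ S) : 0 < H (e v) :=
  lt_of_le_of_ne (h v hv).1 fun h0 => hS ((h v hv).2.1 h0.symm)

lemma mem_fac {e : α → R5} {V F : Finset α} :
    F ∈ Fac e V ↔ F.card = 4 ∧ Face e V F := by
  unfold Fac
  rw [mem_filter, mem_powersetCard]
  exact ⟨fun h => ⟨h.1.2, h.2⟩, fun h => ⟨⟨h.2.1, h.1⟩, h.2⟩⟩

lemma mem_tri {e : α → R5} {V F : Finset α} :
    F ∈ Tri e V ↔ F.card = 3 ∧ Face e V F := by
  unfold Tri
  rw [mem_filter, mem_powersetCard]
  exact ⟨fun h => ⟨h.1.2, h.2⟩, fun h => ⟨⟨h.2.1, h.1⟩, h.2⟩⟩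

/-- a face avoiding `x` extends to a facet avoiding `x` -/
lemma avoid (ext : ExtStmt) {e : α → R5} {V S : Finset α} (gp : GP e V) (h5 : 5 ≤ V.card)
    (hS : Face e V S) {x : α} (hx : x ∈ V) (hxS : x ∉ S) :
    ∃ F ∈ Fac e V, S ⊆ F ∧ x ∉ F := by
  obtain ⟨hSV, H, hH⟩ := hS
  have hpos : 0 < H (e x) := pos_of_not_mem hH hx hxS
  have hc : 4 ≤ (V.erase x).card := by rw [card_erase_of_mem hx]; omega
  obtain ⟨F', h1, h2, h3, h4⟩ := ext α e V (V.erase x) x H gp (erase_subset _ _) hc hx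
    (notMem_erase _ _) (fun u hu => (hH u (mem_of_mem_erase hu)).1) hpos.ne'
  refine ⟨(V.erase x).filter fun u => F' (e u) = 0, mem_fac.2 ⟨h4, ?_, F', ?_⟩, ?_, ?_⟩
  · exact (filter_subset _ _).trans (erase_subset _ _)
  · intro v hv
    by_cases hvx : v = x
    · subst hvx
      refine ⟨by rw [h2]; exact hpos.le, fun h0 => ?_, fun h0 => (mem_filter.1 h0).2⟩
      rw [h2] at h0
      exact absurd h0 hpos.ne'
    · have hvU : v ∈ V.erase x := mem_erase.2 ⟨hvx, hv⟩
      exact ⟨h1 v hvU, fun h0 => mem_filter.2 ⟨hvU, h0⟩, fun h0 => (mem_filter.1 h0).2⟩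
  · intro s hs
    have hsU : s ∈ V.erase x := mem_erase.2 ⟨fun h0 => hxS (h0 ▸ hs), hSV hs⟩
    exact mem_filter.2 ⟨hsU, h3 s hsU ((hH s (hSV hs)).2.2 hs)⟩
  · intro h0
    exact notMem_erase _ _ (mem_filter.1 h0).1

lemma exists_not_mem {V S : Finset α} (h : S.card < V.card) : ∃ x ∈ V, x ∉ S := by
  by_contra hc
  push Not at hc
  exact absurd (card_le_card (show V ⊆ S from hc)) (not_le.2 h)

lemma eq_insert {t F : Finset α} (ht : t.card = 3) (hF : F.card = 4) (h : t ⊆ F) :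
    ∃ a, a ∉ t ∧ F = insert a t := by
  obtain ⟨a, haF, hat⟩ := exists_not_mem (V := F) (S := t) (by omega)
  refine ⟨a, hat, (eq_of_subset_of_card_le (insert_subset haF h) ?_).symm⟩
  rw [card_insert_of_notMem hat]; omega

lemma sub {e : α → R5} {V F t : Finset α} (gp : GP e V) (hF : F ∈ Fac e V) (htF : t ⊆ F)
    (ht : t.card = 3) : t ∈ Tri e V := by
  obtain ⟨hc, hFV, H, hH⟩ := mem_fac.1 hF
  obtain ⟨K, hK⟩ := gp.1 F hFV (by omega) (fun v => if v ∈ t then 0 else 1)
  set lam : ℝ := 1 + ∑ v ∈ V, |K (e v)| / H (e v) with hlam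
  refine mem_tri.2 ⟨ht, htF.trans hFV, lam • H + K, fun v hv => ?_⟩
  have hval : (lam • H + K) (e v) = lam * H (e v) + K (e v) := by
    simp [LinearMap.add_apply, LinearMap.smul_apply]
  rw [hval]
  by_cases hvF : v ∈ F
  · have h0 : H (e v) = 0 := (hH v hv).2.2 hvF
    rw [h0, hK v hvF]
    by_cases hvt : v ∈ t
    · simp [hvt]
    · simp [hvt]
  · have hp : 0 < H (e v) := pos_of_not_mem hH hv hvF
    have h1 : |K (e v)| / H (e v) ≤ ∑ u ∈ V, |K (e u)| / H (e u) :=
      single_le_sum (f := fun u => |K (e u)| / H (e u))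
        (fun u hu => div_nonneg (abs_nonneg _) (hH u hu).1) hv
    have h2 : |K (e v)| ≤ (∑ u ∈ V, |K (e u)| / H (e u)) * H (e v) := (div_le_iff₀ hp).1 h1
    have h3 : 0 < lam * H (e v) + K (e v) := by
      have := neg_abs_le (K (e v))
      rw [hlam]
      nlinarith
    exact ⟨h3.le, fun h0 => absurd h0 h3.ne', fun h0 => absurd (htF h0) hvF⟩

lemma not_three {e : α → R5} {V t : Finset α} (gp : GP e V) (ht : t.card = 3) {a b c : α}
    (ha : a ∉ t) (hb : b ∉ t) (hc : c ∉ t) (hab : a ≠ b) (hac : a ≠ c) (hbc : b ≠ c)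
    (fa : Face e V (insert a t)) (fb : Face e V (insert b t)) (fc : Face e V (insert c t)) :
    False := by
  obtain ⟨sa, A, hA⟩ := fa
  obtain ⟨sb, B, hB⟩ := fb
  obtain ⟨sc, C, hC⟩ := fc
  have aV : a ∈ V := sa (mem_insert_self _ _)
  have bV : b ∈ V := sb (mem_insert_self _ _)
  have cV : c ∈ V := sc (mem_insert_self _ _)
  have tV : t ⊆ V := (subset_insert _ _).trans sa
  have Ab : 0 < A (e b) := pos_of_not_mem hA bV (by simp [hb, hab.symm])
  have Ac : 0 < A (e c) := pos_of_not_mem hA cV (by simp [hc, hac.symm])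
  have Ba : 0 < B (e a) := pos_of_not_mem hB aV (by simp [ha, hab])
  have Bc : 0 < B (e c) := pos_of_not_mem hB cV (by simp [hc, hbc.symm])
  have Ca : 0 < C (e a) := pos_of_not_mem hC aV (by simp [ha, hac])
  have Cb : 0 < C (e b) := pos_of_not_mem hC bV (by simp [hb, hbc])
  have Aa : A (e a) = 0 := (hA a aV).2.2 (mem_insert_self _ _)
  have Bb : B (e b) = 0 := (hB b bV).2.2 (mem_insert_self _ _)
  have Cc : C (e c) = 0 := (hC c cV).2.2 (mem_insert_self _ _)
  have hcard : (insert a (insert b t)).card = 5 := by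
    rw [card_insert_of_notMem (by simp [ha, hab]), card_insert_of_notMem hb, ht]
  have hval : ∀ v, ((A (e b) * B (e a)) • C - (C (e b) * B (e a)) • A - (C (e a) * A (e b)) • B) v
      = A (e b) * B (e a) * C v - C (e b) * B (e a) * A v - C (e a) * A (e b) * B v := by
    intro v
    simp [LinearMap.sub_apply, LinearMap.smul_apply]
  have h0 := gp.2 (insert a (insert b t)) (insert_subset aV (insert_subset bV tV)) hcard
    ((A (e b) * B (e a)) • C - (C (e b) * B (e a)) • A - (C (e a) * A (e b)) • B) (by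
      intro v hv
      rw [hval]
      rcases mem_insert.1 hv with rfl | hv
      · rw [Aa]; ring
      rcases mem_insert.1 hv with rfl | hv
      · rw [Bb]; ring
      · rw [(hA v (tV hv)).2.2 (mem_insert_of_mem hv), (hB v (tV hv)).2.2 (mem_insert_of_mem hv),
          (hC v (tV hv)).2.2 (mem_insert_of_mem hv)]
        ring)
  have h1 := hval (e c)
  rw [h0, Cc] at h1
  have h2 : 0 < C (e b) * B (e a) * A (e c) := by positivity
  have h3 : 0 < C (e a) * A (e b) * B (e c) := by positivity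
  simp only [LinearMap.zero_apply, mul_zero] at h1
  linarith

end Two

theorem two (ext : ExtStmt) : TwoStmt := by
  intro α e V nb gp h5
  refine ⟨fun t ht => ?_, fun F hF t htF ht => Two.sub gp hF htF ht, fun a ha b hb => ?_⟩
  · obtain ⟨hc, hf⟩ := Two.mem_tri.1 ht
    apply le_antisymm
    · by_contra hlt
      obtain ⟨F1, F2, F3, h1, h2, h3, h12, h13, h23⟩ := two_lt_card_iff.1 (not_le.1 hlt)
      obtain ⟨h1, t1⟩ := mem_filter.1 h1
      obtain ⟨h2, t2⟩ := mem_filter.1 h2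
      obtain ⟨h3, t3⟩ := mem_filter.1 h3
      obtain ⟨c1, f1⟩ := Two.mem_fac.1 h1
      obtain ⟨c2, f2⟩ := Two.mem_fac.1 h2
      obtain ⟨c3, f3⟩ := Two.mem_fac.1 h3
      obtain ⟨a, ha, rfl⟩ := Two.eq_insert hc c1 t1
      obtain ⟨b, hb, rfl⟩ := Two.eq_insert hc c2 t2
      obtain ⟨c, hc', rfl⟩ := Two.eq_insert hc c3 t3
      exact Two.not_three gp hc ha hb hc' (fun h => h12 (by rw [h])) (fun h => h13 (by rw [h]))
        (fun h => h23 (by rw [h])) f1 f2 f3
    · obtain ⟨x, hx, hxt⟩ := Two.exists_not_mem (V := V) (S := t) (by omega)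
      obtain ⟨F1, h1, t1, -⟩ := Two.avoid ext gp h5 hf hx hxt
      obtain ⟨c1, f1⟩ := Two.mem_fac.1 h1
      obtain ⟨a, ha, rfl⟩ := Two.eq_insert hc c1 t1
      obtain ⟨F2, h2, t2, ha2⟩ := Two.avoid ext gp h5 hf (f1.1 (mem_insert_self _ _)) ha
      exact one_lt_card.2 ⟨_, mem_filter.2 ⟨h1, t1⟩, F2, mem_filter.2 ⟨h2, t2⟩,
        fun h => ha2 (h ▸ mem_insert_self _ _)⟩
  · have hc : ({a, b} : Finset α).card ≤ 2 := card_le_two
    have hf : Face e V {a, b} := nb _ (insert_subset ha (singleton_subset_iff.2 hb)) hc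
    obtain ⟨x, hx, hxt⟩ := Two.exists_not_mem (V := V) (S := {a, b}) (by omega)
    obtain ⟨F, hF, t1, -⟩ := Two.avoid ext gp h5 hf hx hxt
    exact ⟨F, hF, t1 (mem_insert_self _ _), t1 (mem_insert_of_mem (mem_singleton_self _))⟩

end Pool.Agent.MP_04a200_co.N4
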