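import Pool.Agent.MP_04a200_co.N4.Class
import Pool.Agent.MP_04a200_co.N4.Cnt
import Pool.Agent.MP_04a200_co.N4.Comb
import Pool.Agent.MP_04a200_co.N4.Core
import Pool.Agent.MP_04a200_co.N4.Cyc
import Pool.Agent.MP_04a200_co.N4.DC
import Pool.Agent.MP_04a200_co.N4.Down
import Pool.Agent.MP_04a200_co.N4.Final
import Pool.Agent.MP_04a200_co.N4.Fine
import Pool.Agent.MP_04a200_co.N4.GP
import Pool.Agent.MP_04a200_co.N4.Gen
import Pool.Agent.MP_04a200_co.N4.Greedy
import Pool.Agent.MP_04a200_co.N4.KKT2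
import Pool.Agent.MP_04a200_co.N4.LL
import Pool.Agent.MP_04a200_co.N4.Lev
import Pool.Agent.MP_04a200_co.N4.Plan
import Pool.Agent.MP_04a200_co.N4.Sep
import Pool.Agent.MP_04a200_co.N4.Sep1
import Pool.Agent.MP_04a200_co.N4.Sep2
import Pool.Agent.MP_04a200_co.N4.Supp
import Pool.Agent.MP_04a200_co.N4.Sweep
import Pool.Agent.MP_04a200_co.N4.Time
import Pool.Agent.MP_04a200_co.N4.Two

/-! Triangle families with bounded pair multiplicity are small; the facet system. -/

set_option autoImplicit false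

open Classical Finset

namespace Pool.Agent.MP_04a200_co.N4

theorem lAll : LStmt :=
  ll gp (sep (sep1 ext) (sep2 (cnt ext kkt2))) (plan rank) gen time rank core
    (comb rank loc cls fine (sweep supp (down greedy lev)) (final cls dc))

theorem fsys {α : Type} (e : α → R5) (V : Finset α) (hN : Nb e V) (h5 : 5 ≤ V.card) :
    FSys V (Fac e V) (Tri e V) := by
  have hG := gp α e V hN
  obtain ⟨t1, t2, t3⟩ := two ext α e V hN hG h5
  obtain ⟨c1, c2⟩ := cnt ext kkt2 α e V hG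
  obtain ⟨y1, y2⟩ := cyc α e V hG
  refine ⟨fun F hF => mem_powersetCard.mp (mem_filter.mp hF).1,
    fun F hF => mem_powersetCard.mp (mem_filter.mp hF).1, t1, t2, t3, c1, fun v U hU => ?_, y1, y2⟩
  refine le_trans (card_le_card fun t ht => ?_) (c2 v U hU)
  obtain ⟨h1, h2, h3⟩ := mem_filter.mp ht
  obtain ⟨h4, -, H, hH⟩ := mem_filter.mp h1
  exact mem_filter.mpr ⟨mem_filter.mpr ⟨mem_powersetCard.mpr ⟨h3, (mem_powersetCard.mp h4).2⟩,
    h3, H, fun u hu => hH u (hU hu)⟩, h2⟩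

theorem pat (grid : GridStmt) : PatStmt := by
  obtain ⟨D, K, n0, hg⟩ := grid
  obtain ⟨n1, hl⟩ := lAll D K
  refine ⟨n0 + n1 + 5, fun α e V hN hn => ?_⟩
  exact hg α V _ _ (fsys e V hN (by omega)) (by omega)
    fun Λ h1 h2 => hl α e V Λ hN (by omega) h1 h2

end Pool.Agent.MP_04a200_co.N4
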