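import Pool.Agent.MP_04a200_co.N4.SpecG
import Mathlib.Tactic.Ring

/-! Few facets are close to a triangle that is not nice. -/

set_option autoImplicit false

open Classical Finset

namespace Pool.Agent.MP_04a200_co.N4

namespace Ball

variable {α : Type} {V : Finset α} {Fc Tr : Finset (Finset α)}

/-- a facet has at most four neighbours -/
theorem nbr (S : FSys V Fc Tr) {G : Finset α} (hG : G ∈ Fc) :
    (Fc.filter fun F => (F ∩ G).card = 3).card ≤ 4 := by
  have h4 : (G.powersetCard 3).card = 4 := by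
    rw [card_powersetCard, (S.fc G hG).2]
    rfl
  rw [← h4]
  refine card_le_card_of_injOn (fun F => F ∩ G) (fun F hF => ?_) fun F hF F' hF' e => ?_
  · exact mem_coe.2 (mem_powersetCard.2 ⟨inter_subset_right, (mem_filter.1 (mem_coe.1 hF)).2⟩)
  · obtain ⟨h1, h2⟩ := mem_filter.1 (mem_coe.1 hF)
    obtain ⟨h3, h5⟩ := mem_filter.1 (mem_coe.1 hF')
    have e : F ∩ G = F' ∩ G := e
    have hne : ∀ H : Finset α, (H ∩ G).card = 3 → H ≠ G := by
      rintro H hH rfl
      rw [inter_self, (S.fc H hG).2] at hH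
      omega
    by_contra hn
    have h6 := S.two _ (S.sub G hG (F ∩ G) inter_subset_right h2)
    have h7 : 2 < (Fc.filter fun H => F ∩ G ⊆ H).card :=
      two_lt_card_iff.2 ⟨F, F', G, mem_filter.2 ⟨h1, inter_subset_left⟩,
        mem_filter.2 ⟨h3, e.subset.trans inter_subset_left⟩,
        mem_filter.2 ⟨hG, inter_subset_right⟩, hn,
        hne F h2, hne F' h5⟩
    omega

end Ball

theorem ball : BallStmt := by
  intro α V Fc Tr D k S
  induction k with
  | zero =>
    have h : (Fc.filter fun F => ¬ Gd D Fc Tr 0 F) ⊆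
        (Tr.filter fun t => ¬ NiceT D Tr t).biUnion fun t => Fc.filter fun F => t ⊆ F := by
      intro F hF
      obtain ⟨h1, h2⟩ := mem_filter.1 hF
      by_contra hn
      refine h2 fun t ht h3 => ?_
      by_contra h4
      exact hn (mem_biUnion.2 ⟨t, mem_filter.2 ⟨S.sub F h1 t ht h3, h4⟩, mem_filter.2 ⟨h1, ht⟩⟩)
    refine (card_le_card h).trans ((card_biUnion_le_card_mul _ _ 2 fun t ht =>
      (S.two t (mem_filter.1 ht).1).le).trans (le_of_eq ?_))
    ring
  | succ k ih =>
    have h : (Fc.filter fun F => ¬ Gd D Fc Tr (k + 1) F) ⊆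
        (Fc.filter fun F => ¬ Gd D Fc Tr k F) ∪ (Fc.filter fun F => ¬ Gd D Fc Tr k F).biUnion
          fun G => Fc.filter fun F => (F ∩ G).card = 3 := by
      intro F hF
      obtain ⟨h1, h2⟩ := mem_filter.1 hF
      by_contra hn
      rw [mem_union, not_or] at hn
      refine h2 ⟨?_, fun G hG h3 => ?_⟩
      · by_contra h4
        exact hn.1 (mem_filter.2 ⟨h1, h4⟩)
      · by_contra h4
        exact hn.2 (mem_biUnion.2 ⟨G, mem_filter.2 ⟨hG, h4⟩, mem_filter.2 ⟨h1, h3⟩⟩)
    have h1 := (card_le_card h).trans ((card_union_le _ _).trans (Nat.add_le_add_left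
      (card_biUnion_le_card_mul _ _ 4 fun G hG => Ball.nbr S (mem_filter.1 hG).1) _))
    rw [pow_succ, mul_comm _ 5, mul_assoc]
    omega

end Pool.Agent.MP_04a200_co.N4
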