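import Pool.Agent.MP_04a200_co.SewAny
import Pool.Agent.MP_04a200_co.N4.Spec

/-! From the pattern in rank five to the polytope. -/

set_option autoImplicit false

open Classical Finset

namespace Pool.Agent.MP_04a200_co.N4

theorem bridge (pat : PatStmt) : ∃ N : ℕ, ∀ (d : ℕ) (V σ : Finset (E d)), σ.card + 4 = d →
    NeighborlyOver V σ → d + N ≤ V.card → ¬ Circumscribable V := by
  obtain ⟨n0, hp⟩ := pat
  refine ⟨n0 + 5, fun d V σ hd hN hc => ?_⟩
  have hN' : NbI id V σ := ⟨hN.1, fun S h1 h2 => (isFace_iff _ _).1 (hN.2 S h1 h2)⟩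
  have hcard : n0 + 5 ≤ (V \ σ).card := by
    have := card_sdiff_add_card_eq_card hN.1
    omega
  obtain ⟨t, ht⟩ : ∃ t : Fin 5 ↪ E d, ∀ k, t k ∈ V \ σ := by
    obtain ⟨T, hT, hc5⟩ := exists_subset_card_eq (show 5 ≤ (V \ σ).card by omega)
    exact ⟨(T.equivFinOfCardEq hc5).symm.toEmbedding.trans (Function.Embedding.subtype _),
      fun k => hT ((T.equivFinOfCardEq hc5).symm k).2⟩
  obtain ⟨g, Q⟩ := hN'.quot hd t t.injective ht
  have nb : Nb (fun v => g v) (V \ σ) := by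
    intro S hS h2
    obtain ⟨ψ, hψ⟩ := hN'.2 (σ ∪ S) (union_subset hN.1 (hS.trans sdiff_subset))
      (le_trans (card_le_card (by intro v hv; simp only [mem_sdiff, mem_union] at hv; tauto)) h2)
    obtain ⟨φ, hφ⟩ := Q.q2 ψ fun s hs => (hψ s (hN.1 hs)).2.2 (mem_union_left _ hs)
    refine ⟨hS, φ, fun v hv => ?_⟩
    obtain ⟨h3, h4⟩ := hψ v (mem_sdiff.mp hv).1
    rw [hφ] at h3 h4
    exact ⟨h3, h4.trans (by simp [(mem_sdiff.mp hv).2])⟩
  obtain ⟨v, h1, h2, h3⟩ := hp _ _ _ nb (by omega)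
  have := not_circ hN' hd (Set.injOn_id _) (Or.inl ⟨v, h1, h2, fun p hp q hq => by
    obtain ⟨-, -, H, hH⟩ := mem_filter.mp (h3 p hp q hq)
    refine ⟨H.toAffineMap.comp g, fun u hu => ?_⟩
    by_cases hs : u ∈ σ
    · have : (H.toAffineMap.comp g) (id u) = 0 := by
        have := Q.q1 u hs
        simp only [id] at this
        simp [this]
      rw [this]
      exact ⟨le_rfl, fun _ => mem_union_left _ hs, fun _ => rfl⟩
    · obtain ⟨h4, h5⟩ := hH u (mem_sdiff.mpr ⟨hu, hs⟩)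
      exact ⟨h4, h5.trans (by simp [hs])⟩⟩)
  rwa [image_id] at this

end Pool.Agent.MP_04a200_co.N4
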