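import Pool.Agent.MP_04a200_co.N4.Spec
import Mathlib.Tactic.Linarith
import Mathlib.Tactic.Ring
import Mathlib.Tactic.Positivity

/-! A class of centres with the same set of active blocks. -/

set_option autoImplicit false

open Classical Finset

namespace Pool.Agent.MP_04a200_co.N4

namespace Class

variable {α ι : Type}

/-- the blocks in which the centre `p` is active -/
noncomputable def act (Ω : Finset ι) (c : ι → α) (β : ι → ℕ) (p : α) : Finset ℕ :=
  (Ω.filter fun t => c t = p).image β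

/-- the class of roots whose centre is active exactly in `B` -/
noncomputable def cl (Ω : Finset ι) (c : ι → α) (β : ι → ℕ) (B : Finset ℕ) : Finset ι :=
  Ω.filter fun t => act Ω c β (c t) = B

theorem act_mem (Ω : Finset ι) (c : ι → α) (β : ι → ℕ) (M : ℕ) (h : ∀ t ∈ Ω, β t < M) (p : α) :
    act Ω c β p ∈ (range M).powerset := by
  rw [mem_powerset]
  intro b hb
  obtain ⟨t, ht, rfl⟩ := mem_image.1 hb
  exact mem_range.2 (h t (mem_filter.1 ht).1)

theorem full_cl (Ω : Finset ι) (c : ι → α) (β : ι → ℕ) (B : Finset ℕ) :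
    Full (cl Ω c β B) c β := by
  intro t ht t' ht'
  obtain ⟨_, h2⟩ := mem_filter.1 ht
  obtain ⟨h3, h4⟩ := mem_filter.1 ht'
  have h5 : β t' ∈ act Ω c β (c t') := mem_image.2 ⟨t', mem_filter.2 ⟨h3, rfl⟩, rfl⟩
  rw [h4, ← h2] at h5
  obtain ⟨u, hu, hβ⟩ := mem_image.1 h5
  obtain ⟨hu1, hu2⟩ := mem_filter.1 hu
  exact ⟨u, mem_filter.2 ⟨hu1, by rw [hu2, h2]⟩, hu2, hβ⟩

theorem image_cl (Ω : Finset ι) (c : ι → α) (β : ι → ℕ) (B : Finset ℕ) :
    (cl Ω c β B).image c = (Ω.image c).filter fun p => act Ω c β p = B := by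
  ext p
  simp only [cl, mem_image, mem_filter]
  constructor
  · rintro ⟨t, ⟨h1, h2⟩, rfl⟩
    exact ⟨⟨t, h1, rfl⟩, h2⟩
  · rintro ⟨⟨t, h1, rfl⟩, h2⟩
    exact ⟨t, ⟨h1, h2⟩, rfl⟩

theorem card_cl_le (Ω : Finset ι) (c : ι → α) (β : ι → ℕ) (B : Finset ℕ) (Δ : ℕ)
    (h : ∀ p, (Ω.filter fun t => c t = p).card ≤ Δ) :
    (cl Ω c β B).card ≤ Δ * ((cl Ω c β B).image c).card := by
  refine card_le_mul_card_image _ Δ fun p _ => le_trans (card_le_card ?_) (h p)
  intro t ht
  obtain ⟨h1, h2⟩ := mem_filter.1 ht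
  exact mem_filter.2 ⟨(mem_filter.1 h1).1, h2⟩

end Class

open Class in
theorem cls : ClassStmt := by
  intro α ι Ω c β M Δ m hne hβ hΔ hm
  by_contra hcon
  have hN : 0 < Ω.card := hne.card_pos
  have hm0 : 0 < m := lt_of_lt_of_le (hne.image c).card_pos hm
  have key : ∀ B ∈ (range M).powerset, 4 * m * 2 ^ M * (cl Ω c β B).card ≤
      2 * 2 ^ M * Ω.card * ((cl Ω c β B).image c).card + m * Ω.card := by
    intro B _
    rcases (cl Ω c β B).eq_empty_or_nonempty with h0 | h0
    · rw [h0]; simp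
    have hle := card_cl_le Ω c β B Δ hΔ
    by_cases h1 : Ω.card * ((cl Ω c β B).image c).card ≤ 2 * m * (cl Ω c β B).card
    · by_cases h2 : Ω.card ≤ 4 * 2 ^ M * Δ * ((cl Ω c β B).image c).card
      · exact absurd ⟨cl Ω c β B, filter_subset _ _, h0, full_cl Ω c β B, h1, h2⟩ hcon
      · have h3 : 4 * 2 ^ M * (cl Ω c β B).card ≤ Ω.card := by
          calc 4 * 2 ^ M * (cl Ω c β B).card
              ≤ 4 * 2 ^ M * (Δ * ((cl Ω c β B).image c).card) := Nat.mul_le_mul_left _ hle
            _ = 4 * 2 ^ M * Δ * ((cl Ω c β B).image c).card := by ring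
            _ ≤ Ω.card := (not_le.1 h2).le
        calc 4 * m * 2 ^ M * (cl Ω c β B).card = m * (4 * 2 ^ M * (cl Ω c β B).card) := by ring
          _ ≤ m * Ω.card := Nat.mul_le_mul_left _ h3
          _ ≤ _ := Nat.le_add_left _ _
    · calc 4 * m * 2 ^ M * (cl Ω c β B).card
            = 2 * 2 ^ M * (2 * m * (cl Ω c β B).card) := by ring
          _ ≤ 2 * 2 ^ M * (Ω.card * ((cl Ω c β B).image c).card) :=
            Nat.mul_le_mul_left _ (not_le.1 h1).le
          _ = 2 * 2 ^ M * Ω.card * ((cl Ω c β B).image c).card := by ring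
          _ ≤ _ := Nat.le_add_right _ _
  have s1 : ∑ B ∈ (range M).powerset, (cl Ω c β B).card = Ω.card :=
    (card_eq_sum_card_fiberwise (f := fun t => act Ω c β (c t)) (s := Ω)
      (t := (range M).powerset) fun t _ => act_mem Ω c β M hβ (c t)).symm
  have s2 : ∑ B ∈ (range M).powerset, ((cl Ω c β B).image c).card = (Ω.image c).card := by
    simp only [image_cl]
    exact (card_eq_sum_card_fiberwise (f := fun p => act Ω c β p) (s := Ω.image c)
      (t := (range M).powerset) fun p _ => act_mem Ω c β M hβ p).symm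
  have s3 := sum_le_sum key
  rw [sum_add_distrib, ← mul_sum, ← mul_sum, s1, s2, sum_const, card_powerset, card_range,
    smul_eq_mul] at s3
  have h4 : 2 * 2 ^ M * Ω.card * (Ω.image c).card ≤ 2 * 2 ^ M * Ω.card * m :=
    Nat.mul_le_mul_left _ hm
  have h5 : 0 < m * 2 ^ M * Ω.card := by positivity
  nlinarith

end Pool.Agent.MP_04a200_co.N4
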