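import Pool.Agent.MP_04a200_co.N4.SpecG
import Mathlib.Algebra.BigOperators.Ring.Finset
import Mathlib.Data.Finset.Prod
import Mathlib.Tactic.Ring

/-! Four double counts in an abstract facet system. -/

set_option autoImplicit false

open Classical Finset

namespace Pool.Agent.MP_04a200_co.N4

namespace GA

lemma swap {β γ : Type} (s : Finset β) (t : Finset γ) (r : β → γ → Prop) :
    ∑ a ∈ s, (t.filter fun b => r a b).card = ∑ b ∈ t, (s.filter fun a => r a b).card := by
  simp only [card_filter]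
  exact sum_comm

variable {α : Type}

lemma td_comm (Tr : Finset (Finset α)) (a b : α) : td Tr a b = td Tr b a := by
  unfold td
  simp only [and_comm]

lemma sum_td (Tr : Finset (Finset α)) (P : Finset (α × α)) :
    ∑ p ∈ P, td Tr p.1 p.2 = ∑ t ∈ Tr, (P.filter fun p => p.1 ∈ t ∧ p.2 ∈ t).card := by
  have h := swap P Tr (fun p t => p.1 ∈ t ∧ p.2 ∈ t)
  unfold td
  convert h

lemma sub_off {V t : Finset α} {P : Finset (α × α)} (hP : P ⊆ V.offDiag) :
    (P.filter fun p => p.1 ∈ t ∧ p.2 ∈ t) ⊆ t.offDiag := by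
  intro p hp
  obtain ⟨h1, h2, h3⟩ := mem_filter.1 hp
  exact mem_offDiag.2 ⟨h2, h3, (mem_offDiag.1 (hP h1)).2.2⟩

lemma six {V t : Finset α} {P : Finset (α × α)} (hP : P ⊆ V.offDiag) (ht : t.card = 3) :
    (P.filter fun p => p.1 ∈ t ∧ p.2 ∈ t).card ≤ 6 := by
  have h := card_le_card (sub_off (t := t) hP)
  rw [offDiag_card, ht] at h
  exact h

lemma four {V t : Finset α} {Tr : Finset (Finset α)} {D : ℕ} (ht : t.card = 3)
    (hr : RegT D Tr t) : ((Lgt D V Tr).filter fun p => p.1 ∈ t ∧ p.2 ∈ t).card ≤ 4 := by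
  obtain ⟨a, b, c, habc, h1, -, -⟩ := hr
  have hab : a ≠ b := by
    rintro rfl
    have : t.card ≤ 2 := by
      rw [habc, insert_eq_of_mem (mem_insert_self _ _)]
      exact card_le_two
    omega
  have ha : a ∈ t := by rw [habc]; exact mem_insert_self _ _
  have hb : b ∈ t := by rw [habc]; exact mem_insert_of_mem (mem_insert_self _ _)
  have hsub : ((Lgt D V Tr).filter fun p => p.1 ∈ t ∧ p.2 ∈ t) ⊆
      (t.offDiag.erase (a, b)).erase (b, a) := by
    intro p hp
    have hl : td Tr p.1 p.2 ≤ D := (mem_filter.1 (mem_filter.1 hp).1).2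
    refine mem_erase.2 ⟨?_, mem_erase.2 ⟨?_, sub_off (V := V) (filter_subset _ _) hp⟩⟩
    · rintro rfl
      rw [td_comm] at hl
      exact absurd hl (not_le.2 h1)
    · rintro rfl
      exact absurd hl (not_le.2 h1)
  have h := card_le_card hsub
  have m1 : (a, b) ∈ t.offDiag := mem_offDiag.2 ⟨ha, hb, hab⟩
  have m2 : (b, a) ∈ t.offDiag.erase (a, b) :=
    mem_erase.2 ⟨fun h0 => hab (Prod.ext_iff.1 h0).2, mem_offDiag.2 ⟨hb, ha, hab.symm⟩⟩
  rw [card_erase_of_mem m2, card_erase_of_mem m1, offDiag_card, ht] at h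
  exact h

end GA

theorem gA : GAStmt := by
  intro α V Fc Tr D S
  refine ⟨?_, ?_, ?_, ?_⟩
  · have h := GA.swap Tr Fc (fun t F => t ⊆ F)
    have h1 : ∑ t ∈ Tr, (Fc.filter fun F => t ⊆ F).card = Tr.card * 2 :=
      sum_const_nat fun t ht => S.two t ht
    have h2 : ∑ F ∈ Fc, (Tr.filter fun t => t ⊆ F).card = Fc.card * 4 := by
      refine sum_const_nat fun F hF => ?_
      have : (Tr.filter fun t => t ⊆ F) = F.powersetCard 3 := by
        ext t
        rw [mem_filter, mem_powersetCard]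
        exact ⟨fun h => ⟨h.2, (S.tr t h.1).2⟩, fun h => ⟨S.sub F hF t h.1 h.2, h.1⟩⟩
      rw [this, card_powersetCard, (S.fc F hF).2]
      rfl
    have h3 : Tr.card * 2 = Fc.card * 4 := by
      rw [← h1, ← h2]
      convert h
    omega
  · have hsub : V.offDiag ⊆ Fc.biUnion fun F => F.offDiag := by
      intro p hp
      obtain ⟨h1, h2, h3⟩ := mem_offDiag.1 hp
      obtain ⟨F, hF, h4, h5⟩ := S.edge _ h1 _ h2
      exact mem_biUnion.2 ⟨F, hF, mem_offDiag.2 ⟨h4, h5, h3⟩⟩
    have h := (card_le_card hsub).trans card_biUnion_le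
    have h2 : ∑ F ∈ Fc, F.offDiag.card = Fc.card * 12 :=
      sum_const_nat fun F hF => by rw [offDiag_card, (S.fc F hF).2]
    rw [h2, offDiag_card] at h
    omega
  · have h1 : D * (Hvy D V Tr).card ≤ ∑ p ∈ Hvy D V Tr, td Tr p.1 p.2 := by
      rw [mul_comm]
      exact card_nsmul_le_sum _ _ _ fun p hp => (mem_filter.1 hp).2.le
    rw [GA.sum_td] at h1
    refine h1.trans ?_
    rw [mul_comm]
    exact sum_le_card_nsmul _ _ _ fun t ht => GA.six (V := V) (filter_subset _ _) (S.tr t ht).2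
  · rw [GA.sum_td]
    have h1 : ∑ t ∈ Tr, ((Lgt D V Tr).filter fun p => p.1 ∈ t ∧ p.2 ∈ t).card ≤
        ∑ t ∈ Tr, (4 + 2 * if ¬ RegT D Tr t then 1 else 0) := by
      refine sum_le_sum fun t ht => ?_
      by_cases hr : RegT D Tr t
      · rw [if_neg (not_not.2 hr)]
        exact GA.four (S.tr t ht).2 hr
      · rw [if_pos hr]
        exact GA.six (V := V) (filter_subset _ _) (S.tr t ht).2
    refine h1.trans (le_of_eq ?_)
    rw [sum_add_distrib, ← mul_sum, sum_const, smul_eq_mul, mul_comm, Irr, card_filter]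

end Pool.Agent.MP_04a200_co.N4
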