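import Pool.Agent.MP_04a200_co.N4.SpecG

/-! Few irregular triangles. -/

set_option autoImplicit false

open Classical Finset

namespace Pool.Agent.MP_04a200_co.N4

namespace GB

theorem sym {α : Type} (Tr : Finset (Finset α)) (a b : α) : td Tr a b = td Tr b a := by
  unfold td
  simp only [and_comm]

end GB

theorem gB : GBStmt := by
  intro α V Fc Tr D K hF hK
  obtain ⟨N, hN⟩ : ∃ N : α → Finset α, ∀ v, N v = V.filter fun u => u ≠ v ∧ D < td Tr v u :=
    ⟨_, fun _ => rfl⟩
  have h0 := hK (Tr.filter fun t => ∀ a ∈ t, ∀ b ∈ t, a ≠ b → td Tr a b ≤ D) (filter_subset _ _)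
    (by
      intro a b hab
      by_contra hc
      obtain ⟨t, ht⟩ := card_pos.1 (Nat.zero_lt_of_lt (not_le.1 hc))
      simp only [mem_filter] at ht
      exact hc ((card_le_card (filter_subset_filter _ (filter_subset _ _))).trans
        (ht.1.2 a ht.2.1 b ht.2.2 hab)))
  have two : ∀ t ∈ Tr, ∀ a b c, t = {a, b, c} → a ≠ b → a ≠ c → D < td Tr a b → D < td Tr a c →
      t ∈ V.biUnion fun v => Tr.filter fun t => v ∈ t ∧ t ⊆ insert v (N v) := by
    rintro t ht a b c rfl h1 h2 h3 h4
    have hV := (hF.tr _ ht).1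
    refine mem_biUnion.2 ⟨a, hV (by simp), mem_filter.2 ⟨ht, by simp, ?_⟩⟩
    refine insert_subset_insert _ (insert_subset ?_ (singleton_subset_iff.2 ?_))
    · rw [hN]
      exact mem_filter.2 ⟨hV (by simp), h1.symm, h3⟩
    · rw [hN]
      exact mem_filter.2 ⟨hV (by simp), h2.symm, h4⟩
  have hsub : Irr D Tr ⊆ (Tr.filter fun t => ∀ a ∈ t, ∀ b ∈ t, a ≠ b → td Tr a b ≤ D) ∪
      V.biUnion fun v => Tr.filter fun t => v ∈ t ∧ t ⊆ insert v (N v) := by
    intro t ht
    obtain ⟨ht, hr⟩ := mem_filter.1 ht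
    obtain ⟨a, b, c, hab, hac, hbc, e⟩ := card_eq_three.1 (hF.tr t ht).2
    have e2 : t = {b, a, c} := e.trans (insert_comm _ _ _)
    have e3 : t = {a, c, b} := by rw [e, pair_comm]
    have e4 : t = {c, a, b} := e3.trans (insert_comm _ _ _)
    have e5 : t = {b, c, a} := by rw [e2, pair_comm]
    have s1 := GB.sym Tr a b
    have s2 := GB.sym Tr a c
    have s3 := GB.sym Tr b c
    rcases lt_or_ge D (td Tr a b) with h1 | h1 <;> rcases lt_or_ge D (td Tr a c) with h2 | h2 <;>
      rcases lt_or_ge D (td Tr b c) with h3 | h3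
    · exact mem_union_right _ (two t ht a b c e hab hac h1 h2)
    · exact mem_union_right _ (two t ht a b c e hab hac h1 h2)
    · exact mem_union_right _ (two t ht b a c e2 hab.symm hbc (by omega) h3)
    · exact (hr ⟨a, b, c, e, h1, h2, h3⟩).elim
    · exact mem_union_right _ (two t ht c a b e4 hac.symm hbc.symm (by omega) (by omega))
    · exact (hr ⟨a, c, b, e3, h2, h1, by omega⟩).elim
    · exact (hr ⟨b, c, a, e5, h3, by omega, by omega⟩).elim
    · refine mem_union_left _ (mem_filter.2 ⟨ht, fun u hu w hw huw => ?_⟩)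
      rw [e] at hu hw
      simp only [mem_insert, mem_singleton] at hu hw
      rcases hu with rfl | rfl | rfl <;> rcases hw with rfl | rfl | rfl <;>
        first | exact (huw rfl).elim | omega
  have h1 : ∀ v ∈ V, (Tr.filter fun t => v ∈ t ∧ t ⊆ insert v (N v)).card ≤
      6 * ((Hvy D V Tr).filter fun p => p.1 = v).card + 12 := by
    intro v hv
    have a1 := hF.pl v (insert v (N v)) (insert_subset hv (by rw [hN]; exact filter_subset _ _))
    have a2 := card_insert_le v (N v)
    have a3 : (N v).card ≤ ((Hvy D V Tr).filter fun p => p.1 = v).card := by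
      refine card_le_card_of_injOn (fun u => (v, u)) (fun u hu => ?_)
        fun u _ w _ h => congrArg Prod.snd h
      rw [hN] at hu
      obtain ⟨b1, b2, b3⟩ := mem_filter.1 hu
      exact mem_coe.2 (mem_filter.2 ⟨mem_filter.2 ⟨mem_offDiag.2 ⟨hv, b1, b2.symm⟩, b3⟩, rfl⟩)
    omega
  have h2 : (Hvy D V Tr).card = ∑ v ∈ V, ((Hvy D V Tr).filter fun p => p.1 = v).card :=
    card_eq_sum_card_fiberwise fun p hp => (mem_offDiag.1 (mem_filter.1 hp).1).1
  have h3 := (card_biUnion_le (s := V)
    (t := fun v => Tr.filter fun t => v ∈ t ∧ t ⊆ insert v (N v))).trans (sum_le_sum h1)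
  rw [sum_add_distrib, ← mul_sum, ← h2, sum_const, smul_eq_mul, mul_comm V.card] at h3
  have h4 := (card_le_card hsub).trans ((card_union_le _ _).trans (Nat.add_le_add_left h3 _))
  refine (Nat.mul_le_mul_left K h4).trans ?_
  rw [mul_add]
  exact Nat.add_le_add_right h0 _

end Pool.Agent.MP_04a200_co.N4
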