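import Pool.Agent.MP_04a200_co.N4.SpecG

/-! Row GC: lower bounds for the number of triangles through a pair. -/

set_option autoImplicit false

open Classical Finset

namespace Pool.Agent.MP_04a200_co.N4

namespace GC

variable {α : Type} {V : Finset α} {Fc Tr : Finset (Finset α)}

theorem td_comm (a b : α) : td Tr a b = td Tr b a := by
  unfold td
  congr 1
  ext t
  simp only [Finset.mem_filter, and_comm]

theorem dist3 {a b c : α} (h : ({a, b, c} : Finset α).card = 3) : a ≠ b ∧ a ≠ c ∧ b ≠ c := by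
  refine ⟨?_, ?_, ?_⟩ <;> rintro rfl
  · have : ({a, a, c} : Finset α) = {a, c} := by simp
    have h2 := Finset.card_le_two (a := a) (b := c)
    rw [this] at h; omega
  · have : ({a, b, a} : Finset α) = {a, b} := by ext x; simp only [mem_insert, mem_singleton]; tauto
    have h2 := Finset.card_le_two (a := a) (b := b)
    rw [this] at h; omega
  · have : ({a, b, b} : Finset α) = {a, b} := by simp
    have h2 := Finset.card_le_two (a := a) (b := b)
    rw [this] at h; omega

theorem dist4 {a b c d : α} (h : ({a, b, c, d} : Finset α).card = 4) :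
    a ≠ b ∧ a ≠ c ∧ a ≠ d ∧ b ≠ c ∧ b ≠ d ∧ c ≠ d := by
  have h3 := Finset.card_le_three (a := b) (b := c) (c := d)
  have ha : a ∉ ({b, c, d} : Finset α) := by
    intro ha
    rw [Finset.insert_eq_of_mem ha] at h
    omega
  rw [Finset.card_insert_of_notMem ha] at h
  have := dist3 (a := b) (b := c) (c := d) (by omega)
  simp only [mem_insert, mem_singleton, not_or] at ha
  exact ⟨ha.1, ha.2.1, ha.2.2, this⟩

theorem card3 {a b c : α} (h1 : a ≠ b) (h2 : a ≠ c) (h3 : b ≠ c) :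
    ({a, b, c} : Finset α).card = 3 := Finset.card_eq_three.2 ⟨a, b, c, h1, h2, h3, rfl⟩

theorem swap34 (a b c d : α) : ({a, b, c, d} : Finset α) = {a, b, d, c} := by
  rw [Finset.pair_comm c d]

theorem tri (S : FSys V Fc Tr) {a b c d : α} (h : ({a, b, c, d} : Finset α) ∈ Fc) :
    ({a, b, c} : Finset α) ∈ Tr := by
  obtain ⟨h1, h2, -, h3, -, -⟩ := dist4 (S.fc _ h).2
  refine S.sub _ h _ ?_ (card3 h1 h2 h3)
  intro x hx
  simp only [mem_insert, mem_singleton] at hx ⊢
  tauto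

theorem other (S : FSys V Fc Tr) {a b c d : α} (h : ({a, b, c, d} : Finset α) ∈ Fc) :
    ∃ e, e ≠ d ∧ ({a, b, c, e} : Finset α) ∈ Fc := by
  have ht := tri S h
  have h2 := S.two _ ht
  obtain ⟨F, hF, hne⟩ := Finset.exists_mem_ne (by omega : 1 < (Fc.filter fun F =>
    ({a, b, c} : Finset α) ⊆ F).card) {a, b, c, d}
  obtain ⟨hF1, hF2⟩ := Finset.mem_filter.1 hF
  obtain ⟨e, -, he⟩ := Finset.exists_eq_insert_iff.2
    ⟨hF2, by rw [(S.tr _ ht).2, (S.fc _ hF1).2]⟩
  have : ({a, b, c, e} : Finset α) = F := by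
    rw [← he]
    ext x
    simp only [mem_insert, mem_singleton]
    tauto
  refine ⟨e, ?_, this ▸ hF1⟩
  rintro rfl
  exact hne this.symm

theorem cnt {a b : α} (U : Finset α)
    (h : ∀ u ∈ U, a ≠ u ∧ b ≠ u ∧ ({a, b, u} : Finset α) ∈ Tr) : U.card ≤ td Tr a b := by
  unfold td
  refine Finset.card_le_card_of_injOn (fun u => ({a, b, u} : Finset α)) ?_ ?_
  · intro u hu
    exact Finset.mem_coe.2 (Finset.mem_filter.2 ⟨(h u hu).2.2, by simp, by simp⟩)
  · intro u hu w _ huw
    have h1 : u ∈ ({a, b, w} : Finset α) := by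
      have : ({a, b, u} : Finset α) = {a, b, w} := huw
      rw [← this]; simp
    have h2 := h u hu
    simp only [mem_insert, mem_singleton] at h1
    rcases h1 with h1 | h1 | h1
    exacts [absurd h1.symm h2.1, absurd h1.symm h2.2.1, h1]

theorem reg {D : ℕ} {x y z : α} (h : RegT D Tr {x, y, z}) (h1 : x ≠ y) (h2 : x ≠ z) (h3 : y ≠ z) :
    (D < td Tr x y ∨ D < td Tr x z ∨ D < td Tr y z) ∧ (td Tr x y ≤ D ∨ td Tr x z ≤ D) := by
  obtain ⟨p, q, r, he, a1, a2, a3⟩ := h
  have hx : x ∈ ({p, q, r} : Finset α) := by rw [← he]; simp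
  have hy : y ∈ ({p, q, r} : Finset α) := by rw [← he]; simp
  have hz : z ∈ ({p, q, r} : Finset α) := by rw [← he]; simp
  have b1 := td_comm (Tr := Tr) p q
  have b2 := td_comm (Tr := Tr) p r
  have b3 := td_comm (Tr := Tr) q r
  simp only [mem_insert, mem_singleton] at hx hy hz
  rcases hx with hx | hx | hx <;> rcases hy with hy | hy | hy <;> rcases hz with hz | hz | hz <;>
    first
    | exact absurd (hx.trans hy.symm) h1
    | exact absurd (hx.trans hz.symm) h2
    | exact absurd (hy.trans hz.symm) h3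
    | (rw [hx, hy, hz]; omega)

theorem pairF (S : FSys V Fc Tr) {D : ℕ} {a b c d : α} (h : ({a, b, c, d} : Finset α) ∈ Fc)
    (hl : td Tr a b ≤ D) (hr : ∀ F ∈ Fc, a ∈ F → b ∈ F → ∀ t ⊆ F, t.card = 3 → RegT D Tr t) :
    (D < td Tr a c ∨ D < td Tr b c) ∧ (D < td Tr a d ∨ D < td Tr b d) ∧
      (td Tr a c ≤ D ∨ td Tr a d ≤ D) ∧ (td Tr b c ≤ D ∨ td Tr b d ≤ D) := by
  obtain ⟨h1, h2, h3, h4, h5, h6⟩ := dist4 (S.fc _ h).2
  have H := hr _ h (by simp) (by simp)
  have r1 := (reg (H {a, b, c} (by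
    intro x hx; simp only [mem_insert, mem_singleton] at hx ⊢; tauto) (card3 h1 h2 h4)) h1 h2 h4).1
  have r2 := (reg (H {a, b, d} (by
    intro x hx; simp only [mem_insert, mem_singleton] at hx ⊢; tauto) (card3 h1 h3 h5)) h1 h3 h5).1
  have r3 := (reg (H {a, c, d} (by
    intro x hx; simp only [mem_insert, mem_singleton] at hx ⊢; tauto) (card3 h2 h3 h6)) h2 h3 h6).2
  have r4 := (reg (H {b, c, d} (by
    intro x hx; simp only [mem_insert, mem_singleton] at hx ⊢; tauto) (card3 h4 h5 h6)) h4 h5 h6).2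
  omega

end GC

theorem gC : GCStmt := by
  intro α V Fc Tr D a b S ha hb hab
  obtain ⟨F, hF, haF, hbF⟩ := S.edge a ha b hb
  have hsub : ({a, b} : Finset α) ⊆ F := by
    intro x hx
    simp only [mem_insert, mem_singleton] at hx
    rcases hx with rfl | rfl <;> assumption
  have hc : (F \ {a, b}).card = 2 := by
    rw [Finset.card_sdiff_of_subset hsub, (S.fc _ hF).2, Finset.card_pair hab]
  obtain ⟨c, d, -, hcd⟩ := Finset.card_eq_two.1 hc
  have hF1 : ({a, b, c, d} : Finset α) ∈ Fc := by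
    have : ({a, b, c, d} : Finset α) = F := by
      rw [← Finset.union_sdiff_of_subset hsub, hcd]
      ext x
      simp only [mem_insert, mem_singleton, mem_union]
      tauto
    exact this ▸ hF
  obtain ⟨e, hed, hF2⟩ := GC.other S hF1
  have hF1' := GC.swap34 a b c d ▸ hF1
  obtain ⟨f, hfc, hF3⟩ := GC.other S hF1'
  obtain ⟨-, a2, a3, a4, a5, a6⟩ := GC.dist4 (S.fc _ hF1).2
  obtain ⟨-, -, b3, -, b5, b6⟩ := GC.dist4 (S.fc _ hF2).2
  obtain ⟨-, -, c3, -, c5, c6⟩ := GC.dist4 (S.fc _ hF3).2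
  have t1 := GC.tri S hF1
  have t2 := GC.tri S hF1'
  have t3 := GC.tri S (GC.swap34 a b c e ▸ hF2)
  have t4 := GC.tri S (GC.swap34 a b d f ▸ hF3)
  refine ⟨?_, fun hl hr => ?_⟩
  · rw [← GC.card3 a6 b6 hed.symm]
    refine GC.cnt _ fun u hu => ?_
    simp only [mem_insert, mem_singleton] at hu
    rcases hu with rfl | rfl | rfl
    exacts [⟨a2, a4, t1⟩, ⟨a3, a5, t2⟩, ⟨b3, b5, t3⟩]
  · by_cases hfe : f = e
    · subst hfe
      have p1 := GC.pairF S hF1 hl hr
      have p2 := GC.pairF S hF2 hl hr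
      have p3 := GC.pairF S hF3 hl hr
      omega
    · have h4 : ({f, c, d, e} : Finset α).card = 4 := by
        rw [Finset.card_insert_of_notMem, GC.card3 a6 b6 hed.symm]
        simp only [mem_insert, mem_singleton, not_or]
        exact ⟨hfc, c6.symm, hfe⟩
      rw [← h4]
      refine GC.cnt _ fun u hu => ?_
      simp only [mem_insert, mem_singleton] at hu
      rcases hu with rfl | rfl | rfl | rfl
      exacts [⟨c3, c5, t4⟩, ⟨a2, a4, t1⟩, ⟨a3, a5, t2⟩, ⟨b3, b5, t3⟩]

end Pool.Agent.MP_04a200_co.N4
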