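import Pool.Agent.MP_04a200_co.N4.SpecG

/-! Few triangles are not nice. -/

set_option autoImplicit false

open Classical Finset

namespace Pool.Agent.MP_04a200_co.N4

namespace GD

variable {α : Type}

/-- some facet through the pair has an irregular triangle -/
def Unclean (D : ℕ) (Fc Tr : Finset (Finset α)) (p : α × α) : Prop :=
  ∃ F ∈ Fc, p.1 ∈ F ∧ p.2 ∈ F ∧ ∃ t ⊆ F, t.card = 3 ∧ ¬ RegT D Tr t

theorem nonnice_le {V : Finset α} {Fc Tr : Finset (Finset α)} (D : ℕ) (h : FSys V Fc Tr) :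
    (Tr.filter fun t => ¬ NiceT D Tr t).card ≤ (Irr D Tr).card +
      ∑ p ∈ Lgt D V Tr, (if 5 ≤ td Tr p.1 p.2 then td Tr p.1 p.2 else 0) := by
  have hsub : (Tr.filter fun t => ¬ NiceT D Tr t) ⊆ Irr D Tr ∪
      ((Lgt D V Tr).filter fun p => 5 ≤ td Tr p.1 p.2).biUnion
        (fun p => Tr.filter fun t => p.1 ∈ t ∧ p.2 ∈ t) := by
    intro t ht
    obtain ⟨htT, hn⟩ := mem_filter.1 ht
    by_cases hr : RegT D Tr t
    · refine mem_union_right _ ?_
      obtain ⟨a, b, c, rfl, hab, hac, hbc⟩ := hr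
      obtain ⟨hV, hcard⟩ := h.tr _ htT
      have haV : a ∈ V := hV (by simp)
      have hbV : b ∈ V := hV (by simp)
      have hcV : c ∈ V := hV (by simp)
      have hne1 : a ≠ c := by
        rintro rfl
        have : ({a, b, a} : Finset α) = {a, b} := by ext x; simp; tauto
        rw [this] at hcard
        have := card_le_two (a := a) (b := b)
        omega
      have hne2 : b ≠ c := by
        rintro rfl
        have : ({a, b, b} : Finset α) = {a, b} := by ext x; simp
        rw [this] at hcard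
        have := card_le_two (a := a) (b := b)
        omega
      by_cases h1 : td Tr a c ≤ 4
      · have h2 : ¬ td Tr b c ≤ 4 := fun h2 => hn ⟨a, b, c, rfl, hab, h1, h2⟩
        refine mem_biUnion.2 ⟨(b, c), mem_filter.2 ⟨mem_filter.2 ⟨mem_offDiag.2 ⟨hbV, hcV, hne2⟩,
          hbc⟩, by simpa using (by omega : 5 ≤ td Tr b c)⟩, mem_filter.2 ⟨htT, by simp⟩⟩
      · refine mem_biUnion.2 ⟨(a, c), mem_filter.2 ⟨mem_filter.2 ⟨mem_offDiag.2 ⟨haV, hcV, hne1⟩,
          hac⟩, by simpa using (by omega : 5 ≤ td Tr a c)⟩, mem_filter.2 ⟨htT, by simp⟩⟩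
    · exact mem_union_left _ (mem_filter.2 ⟨htT, hr⟩)
  refine (card_le_card hsub).trans ((card_union_le _ _).trans ?_)
  refine Nat.add_le_add_left (card_biUnion_le.trans ?_) _
  rw [sum_filter]
  exact le_of_eq rfl

theorem unclean_le {V : Finset α} {Fc Tr : Finset (Finset α)} (D : ℕ) (h : FSys V Fc Tr) :
    ((Lgt D V Tr).filter fun p => Unclean D Fc Tr p).card ≤ 24 * (Irr D Tr).card := by
  have hsub : ((Lgt D V Tr).filter fun p => Unclean D Fc Tr p) ⊆
      (Irr D Tr).biUnion fun t => (Fc.filter fun F => t ⊆ F).biUnion fun F => F.offDiag := by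
    intro p hp
    obtain ⟨hL, F, hF, h1, h2, t, htF, hc, hr⟩ := mem_filter.1 hp
    have hne : p.1 ≠ p.2 := (mem_offDiag.1 (mem_filter.1 hL).1).2.2
    exact mem_biUnion.2 ⟨t, mem_filter.2 ⟨h.sub F hF t htF hc, hr⟩,
      mem_biUnion.2 ⟨F, mem_filter.2 ⟨hF, htF⟩, mem_offDiag.2 ⟨h1, h2, hne⟩⟩⟩
  refine (card_le_card hsub).trans (card_biUnion_le.trans ?_)
  rw [mul_comm, ← smul_eq_mul]
  refine sum_le_card_nsmul _ _ _ fun t ht => card_biUnion_le.trans ?_
  have h2 := h.two t (mem_filter.1 ht).1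
  have : ∑ F ∈ Fc.filter (fun F => t ⊆ F), F.offDiag.card ≤
      (Fc.filter fun F => t ⊆ F).card • 12 := by
    refine sum_le_card_nsmul _ _ _ fun F hF => ?_
    rw [offDiag_card, (h.fc F (mem_filter.1 hF).1).2]
  rw [h2] at this
  simpa using this

end GD

theorem gD (ga : GAStmt) (gc : GCStmt) : GDStmt := by
  intro α V Fc Tr D h
  obtain ⟨hT, -, -, hS⟩ := ga α V Fc Tr D h
  have h1 := GD.nonnice_le D h
  have h2 := GD.unclean_le D h
  have h3 : ∑ p ∈ Lgt D V Tr, ((if 5 ≤ td Tr p.1 p.2 then td Tr p.1 p.2 else 0) + 20) ≤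
      ∑ p ∈ Lgt D V Tr, (5 * td Tr p.1 p.2 + 5 * (if GD.Unclean D Fc Tr p then 1 else 0)) := by
    refine sum_le_sum fun p hp => ?_
    obtain ⟨hd, hle⟩ := mem_filter.1 hp
    obtain ⟨ha, hb, hne⟩ := mem_offDiag.1 hd
    obtain ⟨g1, g2⟩ := gc α V Fc Tr D p.1 p.2 h ha hb hne
    by_cases hu : GD.Unclean D Fc Tr p
    · rw [if_pos hu]
      split_ifs <;> omega
    · rw [if_neg hu]
      have : 4 ≤ td Tr p.1 p.2 := g2 hle fun F hF h1 h2 t ht hc => by
        by_contra hr
        exact hu ⟨F, hF, h1, h2, t, ht, hc, hr⟩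
      split_ifs <;> omega
  rw [sum_add_distrib, sum_add_distrib, ← mul_sum, ← mul_sum, ← card_filter, sum_const,
    smul_eq_mul] at h3
  have h4 : (Hvy D V Tr).card + (Lgt D V Tr).card = V.offDiag.card := by
    have := card_filter_add_card_filter_not (s := V.offDiag) (fun p => D < td Tr p.1 p.2)
    rw [← this]
    simp only [Hvy, Lgt, not_lt]
  have h5 : V.offDiag.card + V.card = V.card * V.card := by
    rw [offDiag_card]
    exact Nat.sub_add_cancel (Nat.le_mul_self _)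
  have h6 := h.cnt
  omega

end Pool.Agent.MP_04a200_co.N4
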