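import Pool.Agent.MP_04a200_co.N4.SpecG
import Mathlib.Tactic.FinCases
import Mathlib.Tactic.Tauto
import Mathlib.Data.Fin.VecNotation

/-! A ball of nice facets contains the grid pattern. -/

set_option autoImplicit false

open Classical Finset

namespace Pool.Agent.MP_04a200_co.N4

namespace GE

variable {α : Type} {V : Finset α} {Fc Tr : Finset (Finset α)} {D : ℕ}

lemma td_comm (Tr : Finset (Finset α)) (a b : α) : td Tr a b = td Tr b a := by
  unfold td
  congr 1
  ext t
  simp only [mem_filter]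
  tauto

lemma four {a b c d : α} (h : ({a, b, c, d} : Finset α).card = 4) :
    a ≠ b ∧ a ≠ c ∧ a ≠ d ∧ b ≠ c ∧ b ≠ d ∧ c ≠ d := by
  have h3 : ∀ x y z : α, ({x, y, z} : Finset α).card ≤ 3 := fun x y z => card_le_three
  refine ⟨?_, ?_, ?_, ?_, ?_, ?_⟩ <;> intro e <;> subst e
  · have := h3 a c d
    rw [insert_eq_of_mem (by simp)] at h; omega
  · have := h3 b a d
    rw [insert_eq_of_mem (by simp)] at h; omega
  · have := h3 b c a
    rw [insert_eq_of_mem (by simp)] at h; omega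
  · have := h3 a b d
    rw [insert_eq_of_mem (s := {b, d}) (by simp)] at h; omega
  · have := h3 a c b
    rw [insert_eq_of_mem (s := {c, b}) (by simp)] at h; omega
  · have := h3 a b c
    rw [insert_eq_of_mem (s := {c}) (by simp)] at h; omega

lemma three {a b c : α} (h1 : a ≠ b) (h2 : a ≠ c) (h3 : b ≠ c) :
    ({a, b, c} : Finset α).card = 3 := card_eq_three.2 ⟨a, b, c, h1, h2, h3, rfl⟩

/-- in a nice triangle with a heavy pair the two other pairs are light -/
lemma nice_light (hD : 4 ≤ D) {a b c : α} (h1 : a ≠ b) (h2 : a ≠ c) (h3 : b ≠ c)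
    (hn : NiceT D Tr {a, b, c}) (hh : D < td Tr a b) : td Tr a c ≤ 4 ∧ td Tr b c ≤ 4 := by
  obtain ⟨x, y, z, he, k1, k2, k3⟩ := hn
  have ha : a ∈ ({x, y, z} : Finset α) := he ▸ by simp
  have hb : b ∈ ({x, y, z} : Finset α) := he ▸ by simp
  have hc : c ∈ ({x, y, z} : Finset α) := he ▸ by simp
  have c1 := td_comm Tr x y
  have c2 := td_comm Tr x z
  have c3 := td_comm Tr y z
  simp only [mem_insert, mem_singleton] at ha hb hc
  rcases ha with rfl | rfl | rfl <;> rcases hb with rfl | rfl | rfl <;>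
    rcases hc with rfl | rfl | rfl <;>
    first
      | exact absurd rfl h1
      | exact absurd rfl h2
      | exact absurd rfl h3
      | (constructor <;> omega)

/-- in a nice triangle with two light pairs the third is heavy -/
lemma nice_heavy (hD : 4 ≤ D) {a b c : α} (h1 : a ≠ b) (h2 : a ≠ c) (h3 : b ≠ c)
    (hn : NiceT D Tr {a, b, c}) (k : td Tr a c ≤ 4) (k' : td Tr b c ≤ 4) : D < td Tr a b := by
  obtain ⟨x, y, z, he, k1, k2, k3⟩ := hn
  have ha : a ∈ ({x, y, z} : Finset α) := he ▸ by simp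
  have hb : b ∈ ({x, y, z} : Finset α) := he ▸ by simp
  have hc : c ∈ ({x, y, z} : Finset α) := he ▸ by simp
  have c1 := td_comm Tr x y
  have c2 := td_comm Tr x z
  have c3 := td_comm Tr y z
  simp only [mem_insert, mem_singleton] at ha hb hc
  rcases ha with rfl | rfl | rfl <;> rcases hb with rfl | rfl | rfl <;>
    rcases hc with rfl | rfl | rfl <;>
    first
      | exact absurd rfl h1
      | exact absurd rfl h2
      | exact absurd rfl h3
      | omega

lemma gd_zero {k : ℕ} {F : Finset α} (h : Gd D Fc Tr k F) : Gd D Fc Tr 0 F := by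
  induction k with
  | zero => exact h
  | succ k ih => exact ih h.1

/-- a flag: a good facet with its two heavy pairs -/
def Fl (D : ℕ) (Fc Tr : Finset (Finset α)) (k : ℕ) (a b c d : α) : Prop :=
  ({a, b, c, d} : Finset α) ∈ Fc ∧ Gd D Fc Tr k {a, b, c, d} ∧ D < td Tr a b ∧ D < td Tr c d

lemma Fl.swap {k : ℕ} {a b c d : α} (h : Fl D Fc Tr k a b c d) : Fl D Fc Tr k c d a b := by
  have e : ({c, d, a, b} : Finset α) = {a, b, c, d} := by
    ext x; simp only [mem_insert, mem_singleton]; tauto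
  exact ⟨e ▸ h.1, e ▸ h.2.1, h.2.2.2, h.2.2.1⟩

lemma Fl.ne (S : FSys V Fc Tr) {k : ℕ} {a b c d : α} (h : Fl D Fc Tr k a b c d) :
    a ≠ b ∧ a ≠ c ∧ a ≠ d ∧ b ≠ c ∧ b ≠ d ∧ c ≠ d := four (S.fc _ h.1).2

lemma Fl.light (S : FSys V Fc Tr) (hD : 4 ≤ D) {k : ℕ} {a b c d : α}
    (h : Fl D Fc Tr k a b c d) :
    td Tr a c ≤ 4 ∧ td Tr b c ≤ 4 ∧ td Tr a d ≤ 4 ∧ td Tr b d ≤ 4 := by
  obtain ⟨n1, n2, n3, n4, n5, n6⟩ := h.ne S
  have g := gd_zero h.2.1
  have t1 := nice_light hD n1 n2 n4 (g {a, b, c} (by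
    intro x; simp only [mem_insert, mem_singleton]; tauto) (three n1 n2 n4)) h.2.2.1
  have t2 := nice_light hD n1 n3 n5 (g {a, b, d} (by
    intro x; simp only [mem_insert, mem_singleton]; tauto) (three n1 n3 n5)) h.2.2.1
  exact ⟨t1.1, t1.2, t2.1, t2.2⟩

/-- the second facet on a triangle -/
lemma other (S : FSys V Fc Tr) {a b c d : α} (h : ({a, b, c, d} : Finset α) ∈ Fc) :
    ∃ e, e ≠ a ∧ ({b, e, c, d} : Finset α) ∈ Fc := by
  obtain ⟨n1, n2, n3, n4, n5, n6⟩ := four (S.fc _ h).2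
  have hs : ({b, c, d} : Finset α) ⊆ {a, b, c, d} := subset_insert _ _
  have ht := S.sub _ h _ hs (three n4 n5 n6)
  have h2 := S.two _ ht
  obtain ⟨F, hF, hne⟩ := exists_mem_ne (s := Fc.filter fun F => {b, c, d} ⊆ F) (by omega)
    {a, b, c, d}
  obtain ⟨hF1, hF2⟩ := mem_filter.1 hF
  have hc : (F \ {b, c, d}).card = 1 := by
    rw [card_sdiff_of_subset hF2, (S.fc _ hF1).2, three n4 n5 n6]
  obtain ⟨e, he⟩ := card_eq_one.1 hc
  have hFe : F = {e, b, c, d} := by
    rw [← sdiff_union_of_subset hF2, he]; rfl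
  refine ⟨e, ?_, ?_⟩
  · rintro rfl; exact hne hFe
  · rw [insert_comm, ← hFe]; exact hF1

lemma Fl.step (S : FSys V Fc Tr) (hD : 4 ≤ D) {k : ℕ} {a b c d : α}
    (h : Fl D Fc Tr (k + 1) a b c d) : ∃ e, e ≠ a ∧ Fl D Fc Tr k b e c d := by
  obtain ⟨e, he, hF⟩ := other S h.1
  obtain ⟨n1, n2, n3, n4, n5, n6⟩ := h.ne S
  obtain ⟨m1, m2, m3, m4, m5, m6⟩ := four (S.fc _ hF).2
  have hi : ({a, b, c, d} : Finset α) ∩ {b, e, c, d} = {b, c, d} := by
    ext x
    simp only [mem_inter, mem_insert, mem_singleton]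
    constructor
    · rintro ⟨h1 | h1 | h1 | h1, h2⟩
      · subst h1
        rcases h2 with h2 | h2 | h2 | h2
        · exact absurd h2 n1
        · exact absurd h2.symm he
        · exact absurd h2 n2
        · exact absurd h2 n3
      all_goals tauto
    · tauto
  have g : Gd D Fc Tr k {b, e, c, d} := h.2.1.2 _ hF (by rw [hi]; exact three n4 n5 n6)
  have g0 := gd_zero g
  have l := h.light S hD
  have t1 := nice_light hD n6 m4.symm m5.symm (g0 {c, d, e} (by
    intro x; simp only [mem_insert, mem_singleton]; tauto) (three n6 m4.symm m5.symm)) h.2.2.2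
  refine ⟨e, he, hF, g, ?_, h.2.2.2⟩
  refine nice_heavy hD m1 m2 m4 (g0 {b, e, c} (by
    intro x; simp only [mem_insert, mem_singleton]; tauto) (three m1 m2 m4)) l.2.1 ?_
  rw [td_comm]; exact t1.1

lemma five_le {a b : α} {x : Fin 5 → α} (hx : Function.Injective x)
    (hab : ∀ i, x i ≠ a ∧ x i ≠ b) (h : ∀ i, ({a, b, x i} : Finset α) ∈ Tr) : 5 ≤ td Tr a b := by
  have : (univ : Finset (Fin 5)).card ≤ td Tr a b := by
    refine card_le_card_of_injOn (fun i => ({a, b, x i} : Finset α)) ?_ ?_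
    · intro i _
      simp only [coe_filter, Set.mem_ofPred_eq]
      exact ⟨h i, by simp, by simp⟩
    · intro i _ j _ e
      have : x i ∈ ({a, b, x j} : Finset α) := by
        have e' : ({a, b, x i} : Finset α) = {a, b, x j} := e
        rw [← e']; simp
      simp only [mem_insert, mem_singleton] at this
      rcases this with h1 | h1 | h1
      · exact absurd h1 (hab i).1
      · exact absurd h1 (hab i).2
      · exact hx h1
  simpa using this

lemma tri_of (S : FSys V Fc Tr) {F : Finset α} (hF : F ∈ Fc) {a b c : α} (ha : a ∈ F)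
    (hb : b ∈ F) (hc : c ∈ F) (h1 : a ≠ b) (h2 : a ≠ c) (h3 : b ≠ c) :
    ({a, b, c} : Finset α) ∈ Tr :=
  S.sub _ hF _ (by
    intro x hx
    simp only [mem_insert, mem_singleton] at hx
    rcases hx with rfl | rfl | rfl <;> assumption) (three h1 h2 h3)

/-- the two shifts commute -/
lemma Fl.square (S : FSys V Fc Tr) (hD : 4 ≤ D) {i j k : ℕ} {p q r b0 b1 b2 : α}
    (h0 : Fl D Fc Tr i p q b0 b1) (h1 : Fl D Fc Tr j q r b0 b1) (hr : r ≠ p)
    (h2 : Fl D Fc Tr (k + 1) p q b1 b2) (hb : b2 ≠ b0) : Fl D Fc Tr k q r b1 b2 := by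
  obtain ⟨s, hs, h3⟩ := h2.step S hD
  by_cases e : s = r
  · exact e ▸ h3
  exfalso
  obtain ⟨a1, a2, a3, a4, a5, a6⟩ := h0.ne S
  obtain ⟨c1, c2, c3, c4, c5, c6⟩ := h1.ne S
  obtain ⟨d1, d2, d3, d4, d5, d6⟩ := h2.ne S
  obtain ⟨f1, f2, f3, f4, f5, f6⟩ := h3.ne S
  have l0 := h0.light S hD
  have l2 := h2.light S hD
  have rb : r ≠ b2 := by
    rintro rfl
    have := h1.2.2.1
    omega
  have sb : s ≠ b0 := by
    rintro rfl
    have := h3.2.2.1
    omega
  have key : 5 ≤ td Tr q b1 := by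
    refine five_le (x := ![p, b0, b2, r, s]) ?_ ?_ ?_
    · intro u v
      fin_cases u <;> fin_cases v <;> simp <;>
        first
          | assumption
          | (intro e'; subst e'; contradiction)
    · intro u
      fin_cases u <;> simp <;> constructor <;>
        first
          | assumption
          | (intro e'; subst e'; contradiction)
    · intro u
      fin_cases u
      · exact tri_of S h0.1 (by simp) (by simp) (by simp) a5 a1.symm a3.symm
      · exact tri_of S h0.1 (by simp) (by simp) (by simp) a5 a4 a6.symm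
      · exact tri_of S h2.1 (by simp) (by simp) (by simp) a5 d5 d6
      · exact tri_of S h1.1 (by simp) (by simp) (by simp) a5 c1 c5.symm
      · exact tri_of S h3.1 (by simp) (by simp) (by simp) a5 f1 f4.symm
  omega

lemma td_le (S : FSys V Fc Tr) {a b : α} (hab : a ≠ b) (C : Finset α)
    (h : ∀ d, ({a, b, d} : Finset α) ∈ Tr → d ∈ C) : td Tr a b ≤ C.card := by
  refine le_trans (card_le_card (t := C.image fun d => ({a, b, d} : Finset α)) ?_) card_image_le
  intro t ht
  obtain ⟨h1, h2, h3⟩ := mem_filter.1 ht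
  have hs : ({a, b} : Finset α) ⊆ t := by
    intro x hx
    simp only [mem_insert, mem_singleton] at hx
    rcases hx with rfl | rfl <;> assumption
  have hc : (t \ {a, b}).card = 1 := by
    rw [card_sdiff_of_subset hs, (S.tr _ h1).2, card_pair hab]
  obtain ⟨e, he⟩ := card_eq_one.1 hc
  have hte : t = {a, b, e} := by
    rw [← sdiff_union_of_subset hs, he]
    ext x; simp only [mem_union, mem_insert, mem_singleton]; tauto
  exact mem_image.2 ⟨e, h e (hte ▸ h1), hte.symm⟩

lemma no3 (S : FSys V Fc Tr) (hD : 4 ≤ D) {i j k : ℕ} {a b c0 c1 c2 c3 : α}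
    (h0 : Fl D Fc Tr i a b c0 c1) (h1 : Fl D Fc Tr j a b c1 c2) (h2 : Fl D Fc Tr k a b c2 c3) :
    c0 ≠ c3 := by
  rintro rfl
  have := td_le S (h0.ne S).1 {c0, c1, c2} fun d hd => by
    simpa using S.c3 a b c0 c1 c2 d h0.1 h1.1 h2.1 hd
  have h3 : ({c0, c1, c2} : Finset α).card ≤ 3 := card_le_three
  have := h0.2.2.1
  omega

lemma no4 (S : FSys V Fc Tr) (hD : 4 ≤ D) {i j k l : ℕ} {a b c0 c1 c2 c3 c4 : α}
    (h0 : Fl D Fc Tr i a b c0 c1) (h1 : Fl D Fc Tr j a b c1 c2) (h2 : Fl D Fc Tr k a b c2 c3)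
    (h3 : Fl D Fc Tr l a b c3 c4) (n2 : c0 ≠ c2) (n3 : c1 ≠ c3) : c0 ≠ c4 := by
  rintro rfl
  have := td_le S (h0.ne S).1 {c0, c1, c2, c3} fun d hd => by
    simpa using S.c4 a b c0 c1 c2 c3 d n2 n3 h0.1 h1.1 h2.1 h3.1 hd
  have h4 : ({c0, c1, c2, c3} : Finset α).card ≤ 4 := card_le_four
  have := h0.2.2.1
  omega

lemma start (S : FSys V Fc Tr) (hD : 4 ≤ D) {k : ℕ} {F : Finset α} (hF : F ∈ Fc)
    (g : Gd D Fc Tr k F) : ∃ a b c d, Fl D Fc Tr k a b c d := by
  have g0 := gd_zero g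
  obtain ⟨t, ht, hc⟩ := exists_subset_card_eq (s := F) (n := 3) (by rw [(S.fc _ hF).2]; omega)
  obtain ⟨a, b, c, rfl, k1, k2, k3⟩ := g0 t ht hc
  have h1 : (F \ {a, b, c}).card = 1 := by rw [card_sdiff_of_subset ht, (S.fc _ hF).2, hc]
  obtain ⟨d, hd⟩ := card_eq_one.1 h1
  have e : F = {a, b, c, d} := by
    rw [← sdiff_union_of_subset ht, hd]
    ext x; simp only [mem_union, mem_insert, mem_singleton]; tauto
  subst e
  obtain ⟨n1, n2, n3, n4, n5, n6⟩ := four (S.fc _ hF).2
  refine ⟨a, b, c, d, hF, g, k1, ?_⟩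
  have t2 := nice_light hD n1 n3 n5 (g0 {a, b, d} (by
    intro x; simp only [mem_insert, mem_singleton]; tauto) (three n1 n3 n5)) k1
  refine nice_heavy hD n6 n2.symm n3.symm (g0 {c, d, a} (by
    intro x; simp only [mem_insert, mem_singleton]; tauto) (three n6 n2.symm n3.symm)) ?_ ?_
  · rw [td_comm]; exact k2
  · rw [td_comm]; exact t2.1

end GE

open _root_.Pool.Agent.MP_04a200_co.N4.GE in
theorem gE : GEStmt := by
  intro α V Fc Tr D F S hD hF g
  obtain ⟨a0, a1, b0, b1, f00⟩ := start S hD hF g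
  obtain ⟨a2, n20, f10⟩ := f00.step S hD
  obtain ⟨a3, n31, f20⟩ := f10.step S hD
  obtain ⟨b2, m20, g01⟩ := f00.swap.step S hD
  obtain ⟨b3, m31, g02⟩ := g01.step S hD
  obtain ⟨b4, m42, g03⟩ := g02.step S hD
  have f01 := g01.swap
  have f02 := g02.swap
  have f03 := g03.swap
  have f11 := f00.square S hD f10 n20 f01 m20
  have f12 := f01.square S hD f11 n20 f02 m31
  have f13 := f02.square S hD f12 n20 f03 m42
  have f21 := f10.square S hD f20 n31 f11 m20
  have f22 := f11.square S hD f21 n31 f12 m31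
  have f23 := f12.square S hD f22 n31 f13 m42
  have n03 : a0 ≠ a3 := no3 S hD f00.swap f10.swap f20.swap
  have m03 : b0 ≠ b3 := no3 S hD f00 f01 f02
  have m14 : b1 ≠ b4 := no3 S hD f01 f02 f03
  have m04 : b0 ≠ b4 := no4 S hD f00 f01 f02 f03 m20.symm m31.symm
  obtain ⟨p1, p2, p3, p4, p5, p6⟩ := f00.ne S
  obtain ⟨-, -, q3, -, q5, q6⟩ := f01.ne S
  obtain ⟨-, -, r3, -, r5, r6⟩ := f02.ne S
  obtain ⟨-, -, s3, -, s5, s6⟩ := f03.ne S
  obtain ⟨t0, -, -, -, -, -⟩ := f10.ne S
  obtain ⟨t1, t2, t3, t4, t5, -⟩ := f20.ne S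
  obtain ⟨-, u2, u3, u4, u5, -⟩ := f22.ne S
  obtain ⟨-, -, v3, -, v5, -⟩ := f23.ne S
  refine ⟨![a0, a1, a2, a3, b0, b1, b2, b3, b4], ?_, ?_, ?_⟩
  · intro u v
    fin_cases u <;> fin_cases v <;> simp <;>
      first
        | assumption
        | (intro e'; subst e'; contradiction)
  · have w0 := (S.fc _ f00.1).1
    have w1 := (S.fc _ f22.1).1
    have w2 := (S.fc _ f23.1).1
    intro u
    fin_cases u
    · exact w0 (by simp)
    · exact w0 (by simp)
    · exact w1 (by simp)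
    · exact w1 (by simp)
    · exact w0 (by simp)
    · exact w0 (by simp)
    · exact w1 (by simp)
    · exact w1 (by simp)
    · exact w2 (by simp)
  · intro p hp q hq
    simp only [List.mem_cons, List.not_mem_nil, or_false] at hp hq
    rcases hp with rfl | rfl | rfl <;> rcases hq with rfl | rfl | rfl | rfl
    · exact f00.1
    · exact f01.1
    · exact f02.1
    · exact f03.1
    · exact f10.1
    · exact f11.1
    · exact f12.1
    · exact f13.1
    · exact f20.1
    · exact f21.1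
    · exact f22.1
    · exact f23.1

end Pool.Agent.MP_04a200_co.N4
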