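import Pool.Agent.MP_04a200_co.N4.SpecG
import Mathlib.Tactic.Linarith
import Mathlib.Tactic.NormNum

/-! Few light triangles give the grid pattern: the arithmetic glue. -/

set_option autoImplicit false

open Classical Finset

namespace Pool.Agent.MP_04a200_co.N4

theorem grid (ga : GAStmt) (gb : GBStmt) (gd : GDStmt) (ball : BallStmt) (ge : GEStmt) :
    GridStmt := by
  refine ⟨10 ^ 9, 10 ^ 9, 10 ^ 9, ?_⟩
  intro α V Fc Tr S hn hL
  obtain ⟨a1, a2, a3, -⟩ := ga α V Fc Tr (10 ^ 9) S
  have b := gb α V Fc Tr (10 ^ 9) (10 ^ 9) S hL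
  have d := gd α V Fc Tr (10 ^ 9) S
  have c := ball α V Fc Tr (10 ^ 9) 5 S
  by_contra hP
  have hall : (Fc.filter fun F => ¬ Gd (10 ^ 9) Fc Tr 5 F) = Fc := by
    refine filter_true_of_mem fun F hF g => hP ?_
    exact ge α V Fc Tr (10 ^ 9) F S (by norm_num) hF g
  rw [hall] at c
  have hsq : 10 ^ 9 * V.card ≤ V.card * V.card := Nat.mul_le_mul_right _ hn
  generalize V.card * V.card = m at *
  generalize V.card = n at *
  generalize Fc.card = N at *
  generalize Tr.card = R at *
  generalize (Hvy (10 ^ 9) V Tr).card = T at *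
  generalize (Irr (10 ^ 9) Tr).card = I at *
  generalize (Tr.filter fun t => ¬ NiceT (10 ^ 9) Tr t).card = B at *
  norm_num at *
  omega

end Pool.Agent.MP_04a200_co.N4
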