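import Pool.Agent.MP_04a200_co.N4.GA
import Pool.Agent.MP_04a200_co.N4.GB
import Pool.Agent.MP_04a200_co.N4.GC
import Pool.Agent.MP_04a200_co.N4.GD
import Pool.Agent.MP_04a200_co.N4.Ball
import Pool.Agent.MP_04a200_co.N4.GE
import Pool.Agent.MP_04a200_co.N4.Grid

/-! Few light triangles give the grid pattern. -/

set_option autoImplicit false

namespace Pool.Agent.MP_04a200_co.N4

theorem gridMain : GridStmt := grid gA gB (gD gA gC) ball gE

end Pool.Agent.MP_04a200_co.N4
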