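import Mathlib.Tactic.Linarith
import Mathlib.Tactic.FieldSimp
import Mathlib.Tactic.Ring
import Mathlib.Algebra.Module.Submodule.Union
import Mathlib.Order.Interval.Set.Infinite
import Pool.Agent.MP_04a200_co.N4.Spec

set_option autoImplicit false

open Classical Finset

namespace Pool.Agent.MP_04a200_co.N4

namespace KKT2

lemma generic (S : Finset L5) (h : ∀ L ∈ S, L ≠ 0) : ∃ o : R5, ∀ L ∈ S, L o ≠ 0 := by
  obtain ⟨o, ho⟩ := Submodule.exists_forall_notMem_of_forall_ne_top
    (fun L : S => LinearMap.ker (L : L5)) (fun L => by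
      rw [Ne, LinearMap.ker_eq_top]; exact h L L.2)
  exact ⟨o, fun L hL => by simpa using ho ⟨L, hL⟩⟩

end KKT2

theorem kkt2 : KKTStmt := by
  intro α e V U hG hU
  by_cases h4 : U.card ≤ 4
  · have one : ∀ F ∈ Fac e U, F = U := fun F hF => by
      obtain ⟨h1, h2⟩ := mem_powersetCard.mp (mem_filter.mp hF).1
      exact eq_of_subset_of_card_le h1 (by omega)
    exact ⟨id, fun _ _ => Subset.rfl, fun F hF F' hF' _ _ => (one F hF).trans (one F' hF').symm,
      fun F hF F' hF' _ _ => (one F hF).trans (one F' hF').symm⟩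
  let c : R5 := ∑ u ∈ U, e u
  have A : ∀ F : Finset α, ∃ (H : L5) (L : α → L5), F ∈ Fac e U → Sup e U F H ∧ H c = 1 ∧
      (∀ v ∈ F, L v ≠ 0) ∧ ∀ (J : L5) (o : R5), J o = J c * H o + ∑ v ∈ F, J (e v) * L v o := by
    intro F
    by_cases hF : F ∈ Fac e U
    swap
    · exact ⟨0, fun _ => 0, fun h => (hF h).elim⟩
    obtain ⟨h1, -, H0, hH⟩ := mem_filter.mp hF
    obtain ⟨h1, h2⟩ := mem_powersetCard.mp h1
    obtain ⟨u, hu, huF⟩ := exists_mem_notMem_of_card_lt_card (show F.card < U.card by omega)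
    have pu : 0 < H0 (e u) := lt_of_le_of_ne (hH u hu).1 fun h => huF ((hH u hu).2.1 h.symm)
    have pc : 0 < H0 c := by
      simp only [c, map_sum]
      exact sum_pos' (fun v hv => (hH v hv).1) ⟨u, hu, pu⟩
    let H : L5 := (H0 c)⁻¹ • H0
    have Hc : H c = 1 := by simp only [H, LinearMap.smul_apply, smul_eq_mul]; field_simp
    have HF : ∀ v ∈ F, H (e v) = 0 := fun v hv => by
      simp [H, (hH v (h1 hv)).2.2 hv]
    choose K hK using fun v : α => hG.1 F (h1.trans hU) (by omega) fun w => if w = v then 1 else 0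
    refine ⟨H, fun v => K v - K v c • H, fun _ => ⟨fun v hv => ?_, Hc, fun v hv h => ?_,
      fun J o => ?_⟩⟩
    · simp only [H, LinearMap.smul_apply, smul_eq_mul]
      exact ⟨mul_nonneg (inv_pos.mpr pc).le (hH v hv).1, by
        rw [mul_eq_zero, ← (hH v hv).2]; simp [pc.ne']⟩
    · have := LinearMap.congr_fun h (e v)
      simp [hK v v hv, HF v hv] at this
    · let M : L5 := J - J c • H - ∑ v ∈ F, J (e v) • (K v - K v c • H)
      have MF : ∀ w ∈ F, M (e w) = 0 := fun w hw => by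
        simp only [M, LinearMap.sub_apply, LinearMap.smul_apply, LinearMap.sum_apply, smul_eq_mul,
          HF w hw, mul_zero, sub_zero]
        rw [sum_congr rfl fun v _ => by rw [hK v w hw]]
        simp [hw]
      have Mc : M c = 0 := by
        simp [M, LinearMap.sum_apply, Hc]
      have z := hG.2 (insert u F) (insert_subset (hU hu) (h1.trans hU))
        (by rw [card_insert_of_notMem huF, h2]) (H0 (e u) • M - M (e u) • H0) fun w hw => by
          rcases mem_insert.mp hw with rfl | hw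
          · simp [mul_comm]
          · simp [MF w hw, (hH w (h1 hw)).2.2 hw]
      have z1 := LinearMap.congr_fun z c
      simp [Mc, pc.ne'] at z1
      have z2 := LinearMap.congr_fun z o
      simp only [z1, zero_smul, sub_zero, LinearMap.smul_apply, smul_eq_mul,
        LinearMap.zero_apply, mul_eq_zero, pu.ne', false_or] at z2
      simp only [M, LinearMap.sub_apply, LinearMap.smul_apply, LinearMap.sum_apply,
        smul_eq_mul] at z2 ⊢
      linarith
  choose H L hHL using A
  obtain ⟨o, ho⟩ := KKT2.generic ((Fac e U).biUnion fun F => F.image (L F)) (by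
    intro M hM
    obtain ⟨F, hF, hM⟩ := mem_biUnion.mp hM
    obtain ⟨v, hv, rfl⟩ := mem_image.mp hM
    exact (hHL F hF).2.2.1 v hv)
  have ho' : ∀ F ∈ Fac e U, ∀ v ∈ F, L F v o ≠ 0 := fun F hF v hv =>
    ho _ (mem_biUnion.mpr ⟨F, hF, mem_image_of_mem _ hv⟩)
  have sub : ∀ F ∈ Fac e U, F ⊆ U ∧ F.card = 4 := fun F hF =>
    mem_powersetCard.mp (mem_filter.mp hF).1
  have key : ∀ ε : ℝ, ε ≠ 0 → ∀ F ∈ Fac e U, ∀ F' ∈ Fac e U,
      (∀ v ∈ F, 0 < ε * L F v o → v ∈ F') → (∀ v ∈ F', 0 < ε * L F' v o → v ∈ F) → F = F' := by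
    intro ε hε
    have term : ∀ F ∈ Fac e U, ∀ F' ∈ Fac e U, (∀ v ∈ F, 0 < ε * L F v o → v ∈ F') →
        ∀ v ∈ F, H F' (e v) * (ε * L F v o) ≤ 0 := by
      intro F hF F' hF' h v hv
      obtain ⟨k1, k2⟩ := (hHL F' hF').1 v ((sub F hF).1 hv)
      rcases le_or_gt (ε * L F v o) 0 with k | k
      · exact mul_nonpos_of_nonneg_of_nonpos k1 k
      · rw [k2.2 (h v hv k), zero_mul]
    have ex : ∀ F ∈ Fac e U, ∀ F' ∈ Fac e U, ε * H F' o =
        ε * H F o + ∑ v ∈ F, H F' (e v) * (ε * L F v o) := by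
      intro F hF F' hF'
      rw [(hHL F hF).2.2.2 (H F') o, (hHL F' hF').2.1, mul_add, mul_sum, one_mul]
      exact congrArg _ (sum_congr rfl fun v _ => by ring)
    intro F hF F' hF' h1 h2
    have s1 := sum_nonpos (term F hF F' hF' h1)
    have s2 := sum_nonpos (term F' hF' F hF h2)
    have e1 := ex F hF F' hF'
    have e2 := ex F' hF' F hF
    have z := (sum_eq_zero_iff_of_nonpos (term F hF F' hF' h1)).1 (by linarith)
    refine eq_of_subset_of_card_le (fun v hv => ?_) (by rw [(sub F hF).2, (sub F' hF').2])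
    exact ((hHL F' hF').1 v ((sub F hF).1 hv)).2.1
      ((mul_eq_zero.mp (z v hv)).resolve_right (mul_ne_zero hε (ho' F hF v hv)))
  refine ⟨fun F => F.filter fun v => 0 < L F v o, fun F _ => filter_subset _ _,
    fun F hF F' hF' h1 h2 => key 1 one_ne_zero F hF F' hF'
      (fun v hv h => h1 (mem_filter.mpr ⟨hv, by linarith⟩))
      (fun v hv h => h2 (mem_filter.mpr ⟨hv, by linarith⟩)),
    fun F hF F' hF' h1 h2 => key (-1) (by norm_num) F hF F' hF'
      (fun v hv h => h1 (mem_sdiff.mpr ⟨hv, fun k => by linarith [(mem_filter.mp k).2]⟩))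
      (fun v hv h => h2 (mem_sdiff.mpr ⟨hv, fun k => by linarith [(mem_filter.mp k).2]⟩))⟩

end Pool.Agent.MP_04a200_co.N4
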