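import Pool.Agent.MP_04a200_co.N4.AllL
import Pool.Agent.MP_04a200_co.N4.Ball
import Pool.Agent.MP_04a200_co.N4.Bridge
import Pool.Agent.MP_04a200_co.N4.GA
import Pool.Agent.MP_04a200_co.N4.GB
import Pool.Agent.MP_04a200_co.N4.GC
import Pool.Agent.MP_04a200_co.N4.GD
import Pool.Agent.MP_04a200_co.N4.GE
import Pool.Agent.MP_04a200_co.N4.Grid

/-! Large neighborly four dimensional quotients are not circumscribable. -/

set_option autoImplicit false

open Classical Finset

namespace Pool.Agent.MP_04a200_co.N4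

theorem patAll : PatStmt := pat (grid gA gB (gD gA gC) ball gE)

theorem quot4 : ∃ N : ℕ, ∀ (d : ℕ) (V σ : Finset (E d)), σ.card + 4 = d →
    NeighborlyOver V σ → d + N ≤ V.card → ¬ Circumscribable V := bridge patAll

theorem main4 : ∃ N : ℕ,
    (∀ V : Finset (E 4), N ≤ V.card → (∀ S ⊆ V, S.card ≤ 2 → IsFace V S) → ¬ Circumscribable V) ∧
    ∀ (d : ℕ) (V σ : Finset (E d)), σ.card + 4 = d → NeighborlyOver V σ → d + N ≤ V.card →
      ¬ Circumscribable V := by
  obtain ⟨N, h⟩ := quot4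
  exact ⟨4 + N, fun V hV hN => h 4 V ∅ rfl ⟨empty_subset _, fun S hS hc => hN S hS (by simpa using hc)⟩
    hV, fun d V σ hd hN hc => h d V σ hd hN (by omega)⟩

end Pool.Agent.MP_04a200_co.N4
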