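import Pool.Agent.MP_04a200_co.N4.Spec

/-! Statements of the steps from few light triangles to the grid pattern. -/

set_option autoImplicit false

open Classical Finset

namespace Pool.Agent.MP_04a200_co.N4

section Defs

variable {α : Type}

/-- number of triangles through a pair -/
noncomputable def td (Tr : Finset (Finset α)) (a b : α) : ℕ :=
  (Tr.filter fun t => a ∈ t ∧ b ∈ t).card

/-- exactly one heavy edge -/
def RegT (D : ℕ) (Tr : Finset (Finset α)) (t : Finset α) : Prop :=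
  ∃ a b c, t = {a, b, c} ∧ D < td Tr a b ∧ td Tr a c ≤ D ∧ td Tr b c ≤ D

/-- one heavy edge and two edges of degree at most four -/
def NiceT (D : ℕ) (Tr : Finset (Finset α)) (t : Finset α) : Prop :=
  ∃ a b c, t = {a, b, c} ∧ D < td Tr a b ∧ td Tr a c ≤ 4 ∧ td Tr b c ≤ 4

/-- heavy ordered pairs -/
noncomputable def Hvy (D : ℕ) (V : Finset α) (Tr : Finset (Finset α)) : Finset (α × α) :=
  V.offDiag.filter fun p => D < td Tr p.1 p.2

/-- light ordered pairs -/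
noncomputable def Lgt (D : ℕ) (V : Finset α) (Tr : Finset (Finset α)) : Finset (α × α) :=
  V.offDiag.filter fun p => td Tr p.1 p.2 ≤ D

/-- irregular triangles -/
noncomputable def Irr (D : ℕ) (Tr : Finset (Finset α)) : Finset (Finset α) :=
  Tr.filter fun t => ¬ RegT D Tr t

/-- all facets within `k` steps have nice triangles only -/
def Gd (D : ℕ) (Fc Tr : Finset (Finset α)) : ℕ → Finset α → Prop
  | 0, F => ∀ t ⊆ F, t.card = 3 → NiceT D Tr t
  | k + 1, F => Gd D Fc Tr k F ∧ ∀ F' ∈ Fc, (F ∩ F').card = 3 → Gd D Fc Tr k F'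

end Defs

def GAStmt : Prop := ∀ (α : Type) (V : Finset α) (Fc Tr : Finset (Finset α)) (D : ℕ),
  FSys V Fc Tr → Tr.card = 2 * Fc.card ∧ V.card * V.card ≤ 12 * Fc.card + V.card ∧
    D * (Hvy D V Tr).card ≤ 6 * Tr.card ∧
    ∑ p ∈ Lgt D V Tr, td Tr p.1 p.2 ≤ 4 * Tr.card + 2 * (Irr D Tr).card

def GBStmt : Prop := ∀ (α : Type) (V : Finset α) (Fc Tr : Finset (Finset α)) (D K : ℕ),
  FSys V Fc Tr → (∀ Λ ⊆ Tr, PairLe D Λ → K * Λ.card ≤ V.card * V.card) →
  K * (Irr D Tr).card ≤ V.card * V.card + K * (6 * (Hvy D V Tr).card + 12 * V.card)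

def GCStmt : Prop := ∀ (α : Type) (V : Finset α) (Fc Tr : Finset (Finset α)) (D : ℕ) (a b : α),
  FSys V Fc Tr → a ∈ V → b ∈ V → a ≠ b → 3 ≤ td Tr a b ∧
    (td Tr a b ≤ D → (∀ F ∈ Fc, a ∈ F → b ∈ F → ∀ t ⊆ F, t.card = 3 → RegT D Tr t) →
      4 ≤ td Tr a b)

def GDStmt : Prop := ∀ (α : Type) (V : Finset α) (Fc Tr : Finset (Finset α)) (D : ℕ),
  FSys V Fc Tr → (Tr.filter fun t => ¬ NiceT D Tr t).card ≤
    131 * (Irr D Tr).card + 20 * (Hvy D V Tr).card + 100 * V.card + 80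

def BallStmt : Prop := ∀ (α : Type) (V : Finset α) (Fc Tr : Finset (Finset α)) (D k : ℕ),
  FSys V Fc Tr → (Fc.filter fun F => ¬ Gd D Fc Tr k F).card ≤
    5 ^ k * (2 * (Tr.filter fun t => ¬ NiceT D Tr t).card)

def GEStmt : Prop := ∀ (α : Type) (V : Finset α) (Fc Tr : Finset (Finset α)) (D : ℕ)
  (F : Finset α), FSys V Fc Tr → 4 ≤ D → F ∈ Fc → Gd D Fc Tr 5 F → Pat Fc V

end Pool.Agent.MP_04a200_co.N4
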